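import Pool.Agent.Lib.MP_1618a1_an.Fam

/-!
# The actions of the algebra on the atomic spaces
-/

set_option autoImplicit false

namespace Pool.Agent.Lib.MP_1618a1_an

noncomputable section

/-- the action on `M k` is bounded -/
lemma bddM (k k' : Bool) :
    Bdd₂ (atomsM k') (atomsM k) (fun b b' => (atomsM k).og (bmul b b')) 1 := by
  have key : ∀ t ∈ (atomsI k').S, ∀ s ∈ (atomsI k).S,
      ‖lc (fun p => lc (fun b' => (atomsM k).og (bmul (.inl p) b'))
        (Finsupp.mapDomain Sum.inl s)) t‖ ≤ 1 := by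
    intro t ht s hs
    have h : ∀ p : ℕ × ℕ, lc (fun b' => (atomsM k).og (bmul (.inl p) b'))
        (Finsupp.mapDomain Sum.inl s) = s p • (atomsM k).g (.inl p) := fun p => by
      rw [lc_mapDomain, ← lc_ite_eq (fun q => (atomsM k).g (.inl q))]
      congr 1
      funext q
      simp only [bmul]
      split_ifs <;> rfl
    simp only [h]
    rw [lc_mul (fun p => (atomsM k).g (.inl p)), ← lc_mapDomain Sum.inl (atomsM k).g]
    exact norm_atom_le (Or.inl ⟨_, atomsI_mul ht hs, rfl⟩)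
  rintro _ (⟨t, ht, rfl⟩ | ⟨_, ⟨l, rfl⟩, rfl⟩) _ (⟨s, hs, rfl⟩ | ⟨_, ⟨m, rfl⟩, rfl⟩)
  · rw [lc_mapDomain]
    exact key t ht s hs
  · rw [lc_mapDomain]
    have h : (fun p : ℕ × ℕ => lc (fun b' => (atomsM k).og (bmul (.inl p) b'))
        (Finsupp.mapDomain Sum.inr (Finsupp.single m (1 : ℂ)))) =
        fun p => if p.1 = m then (atomsM k).g (.inl p) else 0 := by
      funext p
      rw [lc_mapDomain]
      simp only [lc, Finsupp.linearCombination_single, one_smul, bmul]
      split_ifs <;> rfl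
    rw [h, lc_filter (fun p => (atomsM k).g (.inl p)), ← lc_mapDomain Sum.inl (atomsM k).g]
    exact norm_atom_le (Or.inl ⟨_, atomsI_filter_col ht _, rfl⟩)
  · rw [lc_mapDomain]
    simp only [lc, Finsupp.linearCombination_single, one_smul]
    change ‖lc (fun b' => (atomsM k).og (bmul (.inr l) b')) (Finsupp.mapDomain Sum.inl s)‖ ≤ 1
    have h : lc (fun b' => (atomsM k).og (bmul (.inr l) b')) (Finsupp.mapDomain Sum.inl s) =
        lc (atomsM k).g (Finsupp.mapDomain Sum.inl (s.filter (fun p => l = p.1))) := by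
      rw [lc_mapDomain, lc_mapDomain, ← lc_filter]
      congr 1
      funext q
      simp only [bmul]
      split_ifs <;> rfl
    rw [h]
    exact norm_atom_le (Or.inl ⟨_, atomsI_filter hs _, rfl⟩)
  · rw [lc_mapDomain]
    simp only [lc, Finsupp.linearCombination_single, one_smul, Finsupp.mapDomain_single, bmul]
    split_ifs
    · exact norm_g_le _
    · simp

lemma bddL (k' : Bool) :
    Bdd₂ (atomsM k') atomsL (fun b b' => atomsL.og (bactL b b')) 1 := by
  rintro _ (⟨t, ht, rfl⟩ | ⟨_, ⟨l, rfl⟩, rfl⟩) _ ⟨m, rfl⟩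
  · rw [lc_mapDomain]
    simp [lc, Finsupp.linearCombination_apply, bactL]
  · rw [lc_mapDomain]
    simp only [lc, Finsupp.linearCombination_single, one_smul, bactL]
    split_ifs
    · exact norm_g_le _
    · simp

lemma bddC (k' : Bool) :
    Bdd₂ (atomsM k') atomsC (fun b b' => atomsC.og (bactL b b')) 1 := by
  rintro _ (⟨t, ht, rfl⟩ | ⟨_, ⟨l, rfl⟩, rfl⟩) s hs
  · rw [lc_mapDomain]
    simp [lc, Finsupp.linearCombination_apply, bactL]
  · rw [lc_mapDomain]
    simp only [lc, Finsupp.linearCombination_single, one_smul]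
    change ‖lc (fun b' => atomsC.og (bactL (.inr l) b')) s‖ ≤ 1
    have h : lc (fun b' => atomsC.og (bactL (.inr l) b')) s = s l • atomsC.g l := by
      rw [← lc_ite_eq]
      congr 1
      funext q
      simp only [bactL]
      split_ifs <;> rfl
    rw [h, norm_smul]
    calc ‖s l‖ * ‖atomsC.g l‖ ≤ 1 * 1 := by
          gcongr
          · exact Sgn.norm_le hs l
          · exact norm_g_le l
      _ = 1 := one_mul 1

/-- the action of `At (atomsM k')` on `I k` -/
def actI (k' k : Bool) : At (atomsM k') →L[ℂ] At (atomsI k) →L[ℂ] At (atomsI k) :=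
  oact (atomsM k') (atomsI k) (atomsI k) bactI

/-- the action of `At (atomsM k')` on `M k` -/
def actM (k' k : Bool) : At (atomsM k') →L[ℂ] At (atomsM k) →L[ℂ] At (atomsM k) :=
  oact (atomsM k') (atomsM k) (atomsM k) bmul

/-- the action of `At (atomsM k')` on `L` -/
def actL (k' : Bool) : At (atomsM k') →L[ℂ] At atomsL →L[ℂ] At atomsL :=
  oact (atomsM k') atomsL atomsL bactL

/-- the action of `At (atomsM k')` on `X` -/
def actC (k' : Bool) : At (atomsM k') →L[ℂ] At atomsC →L[ℂ] At atomsC :=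
  oact (atomsM k') atomsC atomsC bactL

@[simp] lemma actI_g (k' k : Bool) (b : BB) (p : ℕ × ℕ) :
    actI k' k ((atomsM k').g b) ((atomsI k).g p) = (atomsI k).og (bactI b p) :=
  atLift₂_g zero_le_one (bddI k k') b p

@[simp] lemma actM_g (k' k : Bool) (b b' : BB) :
    actM k' k ((atomsM k').g b) ((atomsM k).g b') = (atomsM k).og (bmul b b') :=
  atLift₂_g zero_le_one (bddM k k') b b'

@[simp] lemma actL_g (k' : Bool) (b : BB) (l : ℕ) :
    actL k' ((atomsM k').g b) (atomsL.g l) = atomsL.og (bactL b l) :=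
  atLift₂_g zero_le_one (bddL k') b l

@[simp] lemma actC_g (k' : Bool) (b : BB) (l : ℕ) :
    actC k' ((atomsM k').g b) (atomsC.g l) = atomsC.og (bactL b l) :=
  atLift₂_g zero_le_one (bddC k') b l

lemma norm_actI_le (k' k : Bool) : ‖actI k' k‖ ≤ 1 := norm_atLift₂_le zero_le_one (bddI k k')
lemma norm_actM_le (k' k : Bool) : ‖actM k' k‖ ≤ 1 := norm_atLift₂_le zero_le_one (bddM k k')
lemma norm_actL_le (k' : Bool) : ‖actL k'‖ ≤ 1 := norm_atLift₂_le zero_le_one (bddL k')
lemma norm_actC_le (k' : Bool) : ‖actC k'‖ ≤ 1 := norm_atLift₂_le zero_le_one (bddC k')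

/-- induction on the elements of an atomic space, for equalities of continuous linear maps -/
lemma at_eq {B G : Type} {A : Atoms B} [NormedAddCommGroup G] [NormedSpace ℂ G]
    (f g : At A →L[ℂ] G) (h : ∀ b, f (A.g b) = g (A.g b)) (x : At A) : f x = g x := by
  rw [gen_ext h]

/-- a trilinear identity can be checked on the bases -/
lemma at_assoc {B₁ B₂ B₃ B₁₂ B₂₃ G : Type} {A₁ : Atoms B₁} {A₂ : Atoms B₂} {A₃ : Atoms B₃}
    [NormedAddCommGroup G] [NormedSpace ℂ G]
    {A₁₂ : Atoms B₁₂} {A₂₃ : Atoms B₂₃}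
    (f : At A₁ →L[ℂ] At A₂ →L[ℂ] At A₁₂) (g : At A₁₂ →L[ℂ] At A₃ →L[ℂ] G)
    (f' : At A₂ →L[ℂ] At A₃ →L[ℂ] At A₂₃) (g' : At A₁ →L[ℂ] At A₂₃ →L[ℂ] G)
    (h : ∀ b₁ b₂ b₃, g (f (A₁.g b₁) (A₂.g b₂)) (A₃.g b₃) = g' (A₁.g b₁) (f' (A₂.g b₂) (A₃.g b₃)))
    (a : At A₁) (b : At A₂) (c : At A₃) : g (f a b) c = g' a (f' b c) := by
  refine gen_ind (T := A₁.test) (p := fun a => g (f a b) c = g' a (f' b c)) ?_ (by simp)
    (fun x y hx hy => by simp [hx, hy]) (fun r x hx => by simp [hx]) (fun b₁ => ?_) a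
  · exact isClosed_eq (by fun_prop) (by fun_prop)
  refine gen_ind (T := A₂.test) (p := fun b => g (f (A₁.g b₁) b) c = g' (A₁.g b₁) (f' b c)) ?_
    (by simp) (fun x y hx hy => by simp [hx, hy]) (fun r x hx => by simp [hx]) (fun b₂ => ?_) b
  · exact isClosed_eq (by fun_prop) (by fun_prop)
  refine gen_ind (T := A₃.test)
    (p := fun c => g (f (A₁.g b₁) (A₂.g b₂)) c = g' (A₁.g b₁) (f' (A₂.g b₂) c)) ?_
    (by simp) (fun x y hx hy => by simp [hx, hy]) (fun r x hx => by simp [hx]) (fun b₃ => ?_) c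
  · exact isClosed_eq (by fun_prop) (by fun_prop)
  exact h b₁ b₂ b₃

end

end Pool.Agent.Lib.MP_1618a1_an
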