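import Pool.Agent.Lib.MP_1618a1_an.Defs

/-!
# Basic constructions for `OpMod`: kernels, products, admissible short exact sequences
-/

set_option autoImplicit false

namespace Pool.Agent.Lib.MP_1618a1_an

noncomputable section

variable {Op : Type}

/-- the product of two modules -/
def prodMod (X Y : OpMod Op) : OpMod Op where
  V := X.V × Y.V
  act o := (X.act o).prodMap (Y.act o)

@[simp] lemma prodMod_act (X Y : OpMod Op) (o : Op) (x : X.V) (y : Y.V) :
    (prodMod X Y).act o (x, y) = (X.act o x, Y.act o y) := rfl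

/-- the kernel of a morphism -/
def kerMod {X Y : OpMod Op} (f : X.V →L[ℂ] Y.V) (hf : IsHom X Y f) : OpMod Op where
  V := f.ker
  cpl := (ContinuousLinearMap.isClosed_ker f).completeSpace_coe
  act o := ((X.act o).comp (f.ker.subtypeL)).codRestrict f.ker fun x => by
    have : f x.1 = 0 := x.2
    change f (X.act o x.1) = 0
    rw [hf, this, map_zero]

/-- the inclusion of the kernel -/
def kerIncl {X Y : OpMod Op} (f : X.V →L[ℂ] Y.V) (hf : IsHom X Y f) :
    (kerMod f hf).V →L[ℂ] X.V := f.ker.subtypeL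

/-- `K → P → X` is a short exact sequence of modules that splits by bounded linear maps -/
structure SES (K P X : OpMod Op) (j : K.V →L[ℂ] P.V) (π : P.V →L[ℂ] X.V) : Prop where
  jhom : IsHom K P j
  πhom : IsHom P X π
  split : ∃ (t : P.V →L[ℂ] K.V) (s : X.V →L[ℂ] P.V), (∀ x, t (j x) = x) ∧ (∀ x, π (s x) = x) ∧
    (∀ x, j (t x) + s (π x) = x) ∧ ∀ x, π (j x) = 0

/-- `X` has dimension `≤ n`, inductive form -/
def dhLE (C : OpMod Op → Prop) : ℕ → OpMod Op → Prop
  | 0, X => Proj C X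
  | n + 1, X => C X ∧ ∃ (K P : OpMod Op) (j : K.V →L[ℂ] P.V) (π : P.V →L[ℂ] X.V),
      SES K P X j π ∧ Proj C P ∧ dhLE C n K

/-- closure properties of a class of modules -/
structure Good (C : OpMod Op → Prop) : Prop where
  emb : ∀ (X Y : OpMod Op) (f : X.V →L[ℂ] Y.V), IsHom X Y f →
    (∃ c : ℝ, 0 < c ∧ ∀ x, c * ‖x‖ ≤ ‖f x‖) → C Y → C X
  quot : ∀ (X Y : OpMod Op) (f : Y.V →L[ℂ] X.V), IsHom Y X f →
    (∃ s : X.V →L[ℂ] Y.V, ∀ x, f (s x) = x) → C Y → C X
  prod : ∀ X Y : OpMod Op, C X → C Y → C (prodMod X Y)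
  enough : ∀ X : OpMod Op, C X → ∃ (P : OpMod Op) (π : P.V →L[ℂ] X.V), Proj C P ∧
    IsHom P X π ∧ ∃ s : X.V →L[ℂ] P.V, ∀ x, π (s x) = x

end

end Pool.Agent.Lib.MP_1618a1_an
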