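import Pool.Agent.Lib.MP_1618a1_an.Act
import Pool.Agent.Lib.MP_1618a1_an.Basic

/-!
# The Banach function algebra `M`
-/

set_option autoImplicit false

namespace Pool.Agent.Lib.MP_1618a1_an

noncomputable section

/-- the algebra `M` -/
abbrev MAlg : Type := At (atomsM true)

lemma bmul_assoc (a b c : BB) :
    (bmul a b).bind (fun x => bmul x c) = (bmul b c).bind (fun x => bmul a x) := by
  rcases a with a | a <;> rcases b with b | b <;> rcases c with c | c <;>
    simp only [bmul] <;> split_ifs <;> simp_all <;> (rintro rfl; simp_all)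

lemma bactI_assoc (a b : BB) (c : ℕ × ℕ) :
    (bmul a b).bind (fun x => bactI x c) = (bactI b c).bind (fun x => bactI a x) := by
  rcases a with a | a <;> rcases b with b | b <;>
    simp only [bmul, bactI] <;> split_ifs <;> simp_all <;> (rintro rfl; simp_all)

lemma bactL_assoc (a b : BB) (c : ℕ) :
    (bmul a b).bind (fun x => bactL x c) = (bactL b c).bind (fun x => bactL a x) := by
  rcases a with a | a <;> rcases b with b | b <;>
    simp only [bmul, bactL] <;> split_ifs <;> simp_all

lemma bmul_comm (a b : BB) : bmul a b = bmul b a := by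
  rcases a with a | a <;> rcases b with b | b <;>
    simp only [bmul] <;> split_ifs <;> simp_all

lemma actM_og_g (k' k : Bool) (o : Option BB) (b : BB) :
    actM k' k ((atomsM k').og o) ((atomsM k).g b) = (atomsM k).og (o.bind fun x => bmul x b) := by
  cases o <;> simp

lemma actM_g_og (k' k : Bool) (o : Option BB) (b : BB) :
    actM k' k ((atomsM k').g b) ((atomsM k).og o) = (atomsM k).og (o.bind fun x => bmul b x) := by
  cases o <;> simp

lemma actI_og_g (k' k : Bool) (o : Option BB) (b : ℕ × ℕ) :
    actI k' k ((atomsM k').og o) ((atomsI k).g b) = (atomsI k).og (o.bind fun x => bactI x b) := by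
  cases o <;> simp

lemma actI_g_og (k' k : Bool) (o : Option (ℕ × ℕ)) (b : BB) :
    actI k' k ((atomsM k').g b) ((atomsI k).og o) = (atomsI k).og (o.bind fun x => bactI b x) := by
  cases o <;> simp

lemma actL_og_g (k' : Bool) (o : Option BB) (b : ℕ) :
    actL k' ((atomsM k').og o) (atomsL.g b) = atomsL.og (o.bind fun x => bactL x b) := by
  cases o <;> simp

lemma actL_g_og (k' : Bool) (o : Option ℕ) (b : BB) :
    actL k' ((atomsM k').g b) (atomsL.og o) = atomsL.og (o.bind fun x => bactL b x) := by
  cases o <;> simp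

lemma actC_og_g (k' : Bool) (o : Option BB) (b : ℕ) :
    actC k' ((atomsM k').og o) (atomsC.g b) = atomsC.og (o.bind fun x => bactL x b) := by
  cases o <;> simp

lemma actC_g_og (k' : Bool) (o : Option ℕ) (b : BB) :
    actC k' ((atomsM k').g b) (atomsC.og o) = atomsC.og (o.bind fun x => bactL b x) := by
  cases o <;> simp

lemma actM_assoc (k₁ k₂ k : Bool) (a : At (atomsM k₁)) (b : At (atomsM k₂)) (c : At (atomsM k)) :
    actM k₂ k (actM k₁ k₂ a b) c = actM k₁ k a (actM k₂ k b c) :=
  at_assoc (actM k₁ k₂) (actM k₂ k) (actM k₂ k) (actM k₁ k) (fun b₁ b₂ b₃ => by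
    rw [actM_g, actM_g, actM_og_g, actM_g_og, bmul_assoc]) a b c

lemma actI_assoc (k₁ k₂ k : Bool) (a : At (atomsM k₁)) (b : At (atomsM k₂)) (c : At (atomsI k)) :
    actI k₂ k (actM k₁ k₂ a b) c = actI k₁ k a (actI k₂ k b c) :=
  at_assoc (actM k₁ k₂) (actI k₂ k) (actI k₂ k) (actI k₁ k) (fun b₁ b₂ b₃ => by
    rw [actM_g, actI_g, actI_og_g, actI_g_og, bactI_assoc]) a b c

lemma actL_assoc (k₁ k₂ : Bool) (a : At (atomsM k₁)) (b : At (atomsM k₂)) (c : At atomsL) :
    actL k₂ (actM k₁ k₂ a b) c = actL k₁ a (actL k₂ b c) :=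
  at_assoc (actM k₁ k₂) (actL k₂) (actL k₂) (actL k₁) (fun b₁ b₂ b₃ => by
    rw [actM_g, actL_g, actL_og_g, actL_g_og, bactL_assoc]) a b c

lemma actC_assoc (k₁ k₂ : Bool) (a : At (atomsM k₁)) (b : At (atomsM k₂)) (c : At atomsC) :
    actC k₂ (actM k₁ k₂ a b) c = actC k₁ a (actC k₂ b c) :=
  at_assoc (actM k₁ k₂) (actC k₂) (actC k₂) (actC k₁) (fun b₁ b₂ b₃ => by
    rw [actM_g, actC_g, actC_og_g, actC_g_og, bactL_assoc]) a b c

lemma actM_comm (k : Bool) (a b : At (atomsM k)) : actM k k a b = actM k k b a := by
  have h : actM k k = (actM k k).flip := by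
    refine gen_ext fun b₁ => gen_ext fun b₂ => ?_
    rw [ContinuousLinearMap.flip_apply]
    change actM k k ((atomsM k).g b₁) ((atomsM k).g b₂) =
      actM k k ((atomsM k).g b₂) ((atomsM k).g b₁)
    rw [actM_g, actM_g, bmul_comm]
  conv_lhs => rw [h]
  rfl

/-- the ring structure of the algebra `M` -/
instance MAlg.ring : NonUnitalNormedCommRing MAlg :=
  { (inferInstance : NormedAddCommGroup MAlg) with
    mul := fun a b => actM true true a b
    left_distrib := fun a b c => by
      change actM true true a (b + c) = actM true true a b + actM true true a c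
      rw [map_add]
    right_distrib := fun a b c => by
      change actM true true (a + b) c = actM true true a c + actM true true b c
      rw [map_add]; rfl
    zero_mul := fun a => by
      change actM true true 0 a = 0
      rw [map_zero]; rfl
    mul_zero := fun a => by
      change actM true true a 0 = 0
      rw [map_zero]
    mul_assoc := fun a b c => actM_assoc true true true a b c
    mul_comm := fun a b => actM_comm true a b
    norm_mul_le := fun a b => by
      change ‖actM true true a b‖ ≤ ‖a‖ * ‖b‖
      calc ‖actM true true a b‖ ≤ ‖actM true true‖ * ‖a‖ * ‖b‖ :=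
            ContinuousLinearMap.le_opNorm₂ _ _ _
        _ ≤ 1 * ‖a‖ * ‖b‖ := by
            have := norm_actM_le true true
            gcongr
        _ = ‖a‖ * ‖b‖ := by ring }

lemma MAlg.mul_def (a b : MAlg) : a * b = actM true true a b := rfl

instance MAlg.tower : IsScalarTower ℂ MAlg MAlg := ⟨fun c a b => by
  change actM true true (c • a) b = c • actM true true a b
  rw [map_smul]; rfl⟩

instance MAlg.smulComm : SMulCommClass ℂ MAlg MAlg := ⟨fun c a b => by
  change c • actM true true a b = actM true true a (c • b)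
  rw [map_smul]⟩

example : NormedSpace ℂ MAlg := inferInstance
example : CompleteSpace MAlg := inferInstance

/-- `I` and `I'` as left modules -/
abbrev modI (k : Bool) : OpMod MAlg where
  V := At (atomsI k)
  act a := actI true k a

/-- `M` and `M'` as left modules -/
abbrev modM (k : Bool) : OpMod MAlg where
  V := At (atomsM k)
  act a := actM true k a

/-- `L = ℓ¹` as a left module -/
abbrev modL : OpMod MAlg where
  V := At atomsL
  act a := actL true a

/-- `X = c₀` as a left module -/
abbrev modC : OpMod MAlg where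
  V := At atomsC
  act a := actC true a

/-- `ℂ` with the zero action -/
abbrev triv : OpMod MAlg where
  V := ℂ
  act _ := 0

lemma isLeft_of_bilinear {V : Type} [NormedAddCommGroup V] [NormedSpace ℂ V] [CompleteSpace V]
    (β : MAlg →L[ℂ] V →L[ℂ] V) (h : ∀ a b x, β (a * b) x = β a (β b x)) :
    IsLeft MAlg ⟨V, fun a => β a⟩ where
  add a b x := by
    change β (a + b) x = β a x + β b x
    rw [map_add]; rfl
  smul c a x := by
    change β (c • a) x = c • β a x
    rw [map_smul]; rfl
  mul a b x := h a b x
  bdd := ⟨‖β‖, fun a x => β.le_opNorm₂ a x⟩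

lemma modI_left (k : Bool) : IsLeft MAlg (modI k) :=
  isLeft_of_bilinear (actI true k) fun a b x => actI_assoc true true k a b x

lemma modM_left (k : Bool) : IsLeft MAlg (modM k) :=
  isLeft_of_bilinear (actM true k) fun a b x => actM_assoc true true k a b x

lemma modL_left : IsLeft MAlg modL :=
  isLeft_of_bilinear (actL true) fun a b x => actL_assoc true true a b x

lemma modC_left : IsLeft MAlg modC :=
  isLeft_of_bilinear (actC true) fun a b x => actC_assoc true true a b x

lemma triv_left : IsLeft MAlg triv :=
  isLeft_of_bilinear (0 : MAlg →L[ℂ] ℂ →L[ℂ] ℂ) fun a b x => by simp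

end

end Pool.Agent.Lib.MP_1618a1_an
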