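import Pool.Agent.Lib.MP_1618a1_an.Gen

/-!
# Atomic spaces

`At A` is the completion of the free vector space on `B` for the largest norm for which the atoms
`s ∈ A.S` (finitely supported functions on `B`) have norm `≤ 1`.
-/

set_option autoImplicit false

open scoped ENNReal

namespace Pool.Agent.Lib.MP_1618a1_an

noncomputable section

/-- a family of atoms on `B`; the basis vectors are atoms -/
structure Atoms (B : Type) where
  /-- the atoms -/
  S : Set (B →₀ ℂ)
  single_mem : ∀ b, Finsupp.single b 1 ∈ S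

variable {B B' : Type}

/-- the test functions of a family of atoms -/
def Atoms.test (A : Atoms B) : Test B where
  W := {F | ∀ s ∈ A.S, ‖lc F s‖ ≤ 1}
  bdd b := ⟨1, fun F hF => by simpa using hF _ (A.single_mem b)⟩

/-- the atomic space -/
abbrev At (A : Atoms B) : Type := GenSp A.test

/-- the basis vectors -/
abbrev Atoms.g (A : Atoms B) (b : B) : At A := gen A.test b

variable {A : Atoms B} {A' : Atoms B'}
variable {G : Type} [NormedAddCommGroup G] [NormedSpace ℂ G]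

lemma norm_atom_le {s : B →₀ ℂ} (hs : s ∈ A.S) : ‖lc A.g s‖ ≤ 1 :=
  norm_lc_gen_le zero_le_one fun _ hF => hF s hs

lemma norm_g_le (b : B) : ‖A.g b‖ ≤ 1 := by
  simpa using norm_atom_le (A.single_mem b)

lemma map_lc (f : At A →L[ℂ] G) (s : B →₀ ℂ) : f (lc A.g s) = lc (fun b => f (A.g b)) s := by
  simp only [lc, Finsupp.linearCombination_apply, Finsupp.sum, map_sum, map_smul]

lemma norm_lc_le_of_atoms {v : B → G} {C : ℝ} (hC : 0 ≤ C) (h : ∀ s ∈ A.S, ‖lc v s‖ ≤ C)
    (u : B →₀ ℂ) : ‖lc v u‖ ≤ C * ‖lc A.g u‖ := by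
  rcases hC.eq_or_lt with rfl | hC
  · have : v = 0 := by
      funext b
      have := h _ (A.single_mem b)
      simpa using this
    subst this
    have : lc (0 : B → G) u = 0 := by
      simp [lc, Finsupp.linearCombination_apply]
    rw [this]; simp
  · refine bound_of_dual (T := A.test) (fun φ hφ => ?_) hC.le u
    refine ⟨fun b => φ (v b) / C, fun s hs => ?_, fun b => ?_⟩
    · have h1 : lc (fun b => φ (v b) / (C : ℂ)) s = φ (lc v s) / C := by
        simp only [lc, Finsupp.linearCombination_apply, Finsupp.sum, map_sum, map_smul,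
          Finset.sum_div, smul_eq_mul]
        exact Finset.sum_congr rfl fun b _ => by ring
      rw [h1, norm_div]
      have h2 : ‖(C : ℂ)‖ = C := by simp [abs_of_pos hC]
      rw [h2, div_le_one hC]
      calc ‖φ (lc v s)‖ ≤ ‖φ‖ * ‖lc v s‖ := φ.le_opNorm _
        _ ≤ 1 * C := by gcongr; exact h s hs
        _ = C := one_mul _
    · have : (C : ℂ) ≠ 0 := by exact_mod_cast hC.ne'
      field_simp

lemma LBdd_of_atoms {v : B → G} (h : ∃ C : ℝ, ∀ s ∈ A.S, ‖lc v s‖ ≤ C) : LBdd A.test v := by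
  obtain ⟨C, hC⟩ := h
  exact ⟨max C 0, fun u => norm_lc_le_of_atoms (le_max_right _ _)
    (fun s hs => (hC s hs).trans (le_max_left _ _)) u⟩

/-- an operator on an atomic space is bounded by its values at the atoms -/
lemma opNorm_le_of_atoms {f : At A →L[ℂ] G} {C : ℝ} (hC : 0 ≤ C)
    (h : ∀ s ∈ A.S, ‖f (lc A.g s)‖ ≤ C) : ‖f‖ ≤ C := by
  refine f.opNorm_le_bound hC fun x => ?_
  refine (dense_genLC A.test).induction (P := fun x => ‖f x‖ ≤ C * ‖x‖) ?_
    (isClosed_le (by fun_prop) (by fun_prop)) x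
  rintro _ ⟨u, rfl⟩
  change ‖f (lc A.g u)‖ ≤ C * ‖lc A.g u‖
  rw [map_lc]
  exact norm_lc_le_of_atoms hC (fun s hs => by rw [← map_lc]; exact h s hs) u

variable [CompleteSpace G]

/-- the bounded linear map on an atomic space with given values on the basis -/
def atLift (A : Atoms B) (v : B → G) : At A →L[ℂ] G := genLift A.test v

lemma atLift_g {v : B → G} (h : ∃ C : ℝ, ∀ s ∈ A.S, ‖lc v s‖ ≤ C) (b : B) :
    atLift A v (A.g b) = v b := genLift_gen (LBdd_of_atoms h) b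

lemma atLift_lc {v : B → G} (h : ∃ C : ℝ, ∀ s ∈ A.S, ‖lc v s‖ ≤ C) (s : B →₀ ℂ) :
    atLift A v (lc A.g s) = lc v s := by
  rw [map_lc]; simp only [atLift_g h]

lemma norm_atLift_le {v : B → G} {C : ℝ} (hC : 0 ≤ C) (h : ∀ s ∈ A.S, ‖lc v s‖ ≤ C) :
    ‖atLift A v‖ ≤ C :=
  opNorm_le_of_atoms hC fun s hs => by rw [atLift_lc ⟨C, h⟩]; exact h s hs

/-- the bounded bilinear map with given values on the bases -/
def atLift₂ (A : Atoms B) (A' : Atoms B') (v : B → B' → G) : At A →L[ℂ] At A' →L[ℂ] G :=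
  atLift A fun b => atLift A' (v b)

/-- boundedness condition for bilinear maps -/
def Bdd₂ (A : Atoms B) (A' : Atoms B') (v : B → B' → G) (C : ℝ) : Prop :=
  ∀ s ∈ A.S, ∀ s' ∈ A'.S, ‖lc (fun b => lc (v b) s') s‖ ≤ C

lemma Bdd₂.right {v : B → B' → G} {C : ℝ} (h : Bdd₂ A A' v C) (b : B) :
    ∀ s' ∈ A'.S, ‖lc (v b) s'‖ ≤ C := fun s' hs' => by
  simpa using h _ (A.single_mem b) s' hs'

lemma Bdd₂.left {v : B → B' → G} {C : ℝ} (hC : 0 ≤ C) (h : Bdd₂ A A' v C) :
    ∀ s ∈ A.S, ‖lc (fun b => atLift A' (v b)) s‖ ≤ C := fun s hs => by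
  refine opNorm_le_of_atoms hC fun s' hs' => ?_
  have : (lc (fun b => atLift A' (v b)) s) (lc A'.g s') = lc (fun b => lc (v b) s') s := by
    simp only [lc, Finsupp.linearCombination_apply, Finsupp.sum, sum_apply, smul_apply]
    refine Finset.sum_congr rfl fun b _ => ?_
    congr 1
    exact atLift_lc ⟨C, h.right b⟩ s'
  rw [this]
  exact h s hs s' hs'

lemma atLift₂_g {v : B → B' → G} {C : ℝ} (hC : 0 ≤ C) (h : Bdd₂ A A' v C) (b : B) (b' : B') :
    atLift₂ A A' v (A.g b) (A'.g b') = v b b' := by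
  have h1 : atLift₂ A A' v (A.g b) = atLift A' (v b) :=
    atLift_g (G := At A' →L[ℂ] G) ⟨C, h.left hC⟩ b
  rw [h1]
  exact atLift_g ⟨C, h.right b⟩ b'

lemma norm_atLift₂_le {v : B → B' → G} {C : ℝ} (hC : 0 ≤ C) (h : Bdd₂ A A' v C) :
    ‖atLift₂ A A' v‖ ≤ C := norm_atLift_le hC (h.left hC)

/-! ### disjoint unions of families of atoms -/

/-- the atoms of the `ℓ¹`-sum -/
def Atoms.sum (A : Atoms B) (A' : Atoms B') : Atoms (B ⊕ B') where
  S := (Finsupp.mapDomain Sum.inl) '' A.S ∪ (Finsupp.mapDomain Sum.inr) '' A'.S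
  single_mem b := by
    cases b with
    | inl b => exact Or.inl ⟨_, A.single_mem b, by simp⟩
    | inr b => exact Or.inr ⟨_, A'.single_mem b, by simp⟩

lemma lc_mapDomain {G : Type} [AddCommGroup G] [Module ℂ G] (f : B → B') (v : B' → G)
    (t : B →₀ ℂ) : lc v (Finsupp.mapDomain f t) = lc (fun b => v (f b)) t := by
  simp only [lc]
  rw [Finsupp.linearCombination_mapDomain]
  rfl

omit [CompleteSpace G] in
lemma sum_bdd {v : B ⊕ B' → G} {C : ℝ} (h : ∀ s ∈ A.S, ‖lc (fun b => v (.inl b)) s‖ ≤ C)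
    (h' : ∀ s ∈ A'.S, ‖lc (fun b => v (.inr b)) s‖ ≤ C) :
    ∀ s ∈ (A.sum A').S, ‖lc v s‖ ≤ C := by
  rintro _ (⟨s, hs, rfl⟩ | ⟨s, hs, rfl⟩)
  · rw [lc_mapDomain]; exact h s hs
  · rw [lc_mapDomain]; exact h' s hs

end

end Pool.Agent.Lib.MP_1618a1_an
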