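import Pool.Agent.Lib.MP_1618a1_an.Mods

/-!
# The balanced tensor product `B ⊗_A X` and the inequality `dg A ≤ db A`
-/

set_option autoImplicit false

namespace Pool.Agent.Lib.MP_1618a1_an

noncomputable section

section General

variable {A : Type} [NonUnitalNormedCommRing A] [NormedSpace ℂ A]

/-- the closed subspace of `B ⊗ X` spanned by the elements `(b a) ⊗ x - b ⊗ (a x)` -/
def balSub (B : OpMod (A ⊕ A)) (X : OpMod A) : Submodule ℂ (Ten B.V X.V) :=
  (Submodule.span ℂ {u | ∃ (a : A) (b : B.V) (x : X.V),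
    u = tmk (B.act (.inr a) b) x - tmk b (X.act a x)}).topologicalClosure

instance balSub_closed (B : OpMod (A ⊕ A)) (X : OpMod A) :
    IsClosed (balSub B X : Set (Ten B.V X.V)) := Submodule.isClosed_topologicalClosure _

/-- the balanced tensor product `B ⊗_A X` as a Banach space -/
abbrev BalV (B : OpMod (A ⊕ A)) (X : OpMod A) : Type := Ten B.V X.V ⧸ balSub B X

/-- the quotient map `B ⊗ X → B ⊗_A X` -/
def bmk (B : OpMod (A ⊕ A)) (X : OpMod A) : Ten B.V X.V →L[ℂ] BalV B X := (balSub B X).mkQL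

lemma bmk_surj (B : OpMod (A ⊕ A)) (X : OpMod A) (u : BalV B X) : ∃ v, bmk B X v = u :=
  Submodule.Quotient.mk_surjective _ u

lemma bmk_bal (B : OpMod (A ⊕ A)) (X : OpMod A) (a : A) (b : B.V) (x : X.V) :
    bmk B X (tmk (B.act (.inr a) b) x) = bmk B X (tmk b (X.act a x)) := by
  rw [← sub_eq_zero, ← map_sub]
  refine (Submodule.Quotient.mk_eq_zero _).2 ?_
  exact Submodule.le_topologicalClosure _ (Submodule.subset_span ⟨a, b, x, rfl⟩)

lemma norm_bmk_le (B : OpMod (A ⊕ A)) (X : OpMod A) (v : Ten B.V X.V) : ‖bmk B X v‖ ≤ ‖v‖ :=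
  Submodule.Quotient.norm_mk_le _ v

lemma bmk_norm_lt (B : OpMod (A ⊕ A)) (X : OpMod A) (u : BalV B X) {ε : ℝ} (hε : 0 < ε) :
    ∃ v, bmk B X v = u ∧ ‖v‖ < ‖u‖ + ε := Submodule.Quotient.norm_mk_lt u hε

variable {G : Type} [NormedAddCommGroup G] [NormedSpace ℂ G]

/-- the linear map on `B ⊗_A X` induced by a map on `B ⊗ X` -/
def blift {B : OpMod (A ⊕ A)} {X : OpMod A} (f : Ten B.V X.V →L[ℂ] G)
    (h : ∀ a b x, f (tmk (B.act (.inr a) b) x) = f (tmk b (X.act a x))) : BalV B X →L[ℂ] G :=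
  (balSub B X).liftQL f (by
    refine Submodule.topologicalClosure_minimal _ ?_ (ContinuousLinearMap.isClosed_ker f)
    refine Submodule.span_le.2 ?_
    rintro _ ⟨a, b, x, rfl⟩
    change f _ = 0
    rw [map_sub, h, sub_self])

@[simp] lemma blift_bmk {B : OpMod (A ⊕ A)} {X : OpMod A} (f : Ten B.V X.V →L[ℂ] G)
    (h : ∀ a b x, f (tmk (B.act (.inr a) b) x) = f (tmk b (X.act a x))) (v : Ten B.V X.V) :
    blift f h (bmk B X v) = f v := rfl

lemma bal_ext {B : OpMod (A ⊕ A)} {X : OpMod A} {f g : BalV B X →L[ℂ] G}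
    (h : ∀ b x, f (bmk B X (tmk b x)) = g (bmk B X (tmk b x))) : f = g := by
  have h1 : f ∘L bmk B X = g ∘L bmk B X := ten_ext fun b x => h b x
  ext u
  obtain ⟨v, rfl⟩ := bmk_surj B X u
  exact DFunLike.congr_fun h1 v

/-- the balanced tensor product is functorial for morphisms of right modules -/
def bmap {B B' : OpMod (A ⊕ A)} {X : OpMod A} (f : B.V →L[ℂ] B'.V)
    (h : ∀ a b, f (B.act (.inr a) b) = B'.act (.inr a) (f b)) : BalV B X →L[ℂ] BalV B' X :=
  blift (bmk B' X ∘L tmap f (.id ℂ X.V)) (fun a b x => by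
    change bmk B' X (tmap _ _ _) = bmk B' X (tmap _ _ _)
    rw [tmap_tmk, tmap_tmk, h]
    exact bmk_bal B' X a (f b) x)

@[simp] lemma bmap_bmk {B B' : OpMod (A ⊕ A)} {X : OpMod A} (f : B.V →L[ℂ] B'.V)
    (h : ∀ a b, f (B.act (.inr a) b) = B'.act (.inr a) (f b)) (b : B.V) (x : X.V) :
    bmap (X := X) f h (bmk B X (tmk b x)) = bmk B' X (tmk (f b) x) := by
  change bmk B' X (tmap _ _ _) = _
  rw [tmap_tmk]; rfl

lemma norm_bmap_le {B B' : OpMod (A ⊕ A)} {X : OpMod A} (f : B.V →L[ℂ] B'.V)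
    (h : ∀ a b, f (B.act (.inr a) b) = B'.act (.inr a) (f b)) (u : BalV B X) :
    ‖bmap (X := X) f h u‖ ≤ ‖f‖ * ‖u‖ := by
  refine le_of_forall_pos_le_add fun ε hε => ?_
  obtain ⟨v, rfl, hv⟩ := bmk_norm_lt B X u (ε := ε / (‖f‖ + 1)) (by positivity)
  have h1 : ‖bmap (X := X) f h (bmk B X v)‖ ≤ ‖f‖ * ‖v‖ := by
    refine (norm_bmk_le B' X (tmap f (.id ℂ X.V) v)).trans ?_
    refine (ContinuousLinearMap.le_opNorm _ _).trans ?_
    refine mul_le_mul_of_nonneg_right ?_ (norm_nonneg _)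
    refine (norm_tmap_le _ _).trans ?_
    calc ‖f‖ * ‖ContinuousLinearMap.id ℂ X.V‖ ≤ ‖f‖ * 1 :=
          mul_le_mul_of_nonneg_left ContinuousLinearMap.norm_id_le (norm_nonneg _)
      _ = _ := mul_one _
  refine h1.trans ?_
  have h2 : ‖f‖ * ‖v‖ ≤ ‖f‖ * (‖bmk B X v‖ + ε / (‖f‖ + 1)) :=
    mul_le_mul_of_nonneg_left hv.le (norm_nonneg _)
  refine h2.trans ?_
  have h3 : ‖f‖ * (ε / (‖f‖ + 1)) ≤ ε := by
    rw [mul_div_assoc', div_le_iff₀ (by positivity)]
    nlinarith [norm_nonneg f]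
  linarith [mul_add ‖f‖ ‖bmk B X v‖ (ε / (‖f‖ + 1))]

/-- a bimodule as a right (= left, as `A` is commutative) module -/
@[reducible] def rgtB (B : OpMod (A ⊕ A)) : OpMod A where
  V := B.V
  act a := B.act (.inr a)

lemma rgt_left {B : OpMod (A ⊕ A)} (hB : IsBi A B) : IsLeft A (rgtB B) where
  add := hB.radd
  smul := hB.rsmul
  mul a b x := by
    change B.act (.inr (a * b)) x = _
    rw [mul_comm, hB.rmul]
  bdd := hB.rbdd

/-- the left module `B ⊗_A X` -/
@[reducible] def bal (B : OpMod (A ⊕ A)) (hB : IsBi A B) (X : OpMod A) : OpMod A where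
  V := BalV B X
  act a := bmap (X := X) (B.act (.inl a)) (fun a' b => hB.comm a a' b)

@[simp] lemma bal_act (B : OpMod (A ⊕ A)) (hB : IsBi A B) (X : OpMod A) (a : A) (b : B.V)
    (x : X.V) : (bal B hB X).act a (bmk B X (tmk b x)) = bmk B X (tmk (B.act (.inl a) b) x) :=
  bmap_bmk (B.act (.inl a)) (fun a' b => hB.comm a a' b) b x

lemma bal_left {B : OpMod (A ⊕ A)} (hB : IsBi A B) (X : OpMod A) : IsLeft A (bal B hB X) where
  add a b u := by
    have : (bal B hB X).act (a + b) = (bal B hB X).act a + (bal B hB X).act b := by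
      refine bal_ext fun y x => ?_
      rw [add_apply, bal_act, bal_act, bal_act, hB.ladd, tmk_add_left, map_add]
    rw [this]; rfl
  smul c a u := by
    have : (bal B hB X).act (c • a) = c • (bal B hB X).act a := by
      refine bal_ext fun y x => ?_
      rw [smul_apply, bal_act, bal_act, hB.lsmul, tmk_smul_left, map_smul]
    rw [this]; rfl
  mul a b u := by
    have : (bal B hB X).act (a * b) = (bal B hB X).act a ∘L (bal B hB X).act b := by
      refine bal_ext fun y x => ?_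
      rw [ContinuousLinearMap.comp_apply, bal_act, bal_act, bal_act, hB.lmul]
    rw [this]; rfl
  bdd := by
    obtain ⟨C, hC⟩ := hB.lbdd
    refine ⟨max C 0, fun a u => ?_⟩
    refine (norm_bmap_le (X := X) (B.act (.inl a)) (fun a' b => hB.comm a a' b) u).trans ?_
    refine mul_le_mul_of_nonneg_right ?_ (norm_nonneg _)
    refine ContinuousLinearMap.opNorm_le_bound _ (by positivity) fun x => ?_
    refine (hC a x).trans ?_
    gcongr
    exact le_max_left _ _

/-! ### the bimodules `L(X, Z)` -/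

/-- the bimodule `L(X, Z)`: `(a T)(x) = a T(x)`, `(T a)(x) = T(a x)` -/
@[reducible] def homB (X Z : OpMod A) : OpMod (A ⊕ A) where
  V := X.V →L[ℂ] Z.V
  act := Sum.elim (fun a => ContinuousLinearMap.compL ℂ X.V Z.V Z.V (Z.act a))
    (fun a => (ContinuousLinearMap.compL ℂ X.V X.V Z.V).flip (X.act a))

/-- the bimodule `L(X, Z)` with the two actions exchanged -/
@[reducible] def homB' (X Z : OpMod A) : OpMod (A ⊕ A) where
  V := X.V →L[ℂ] Z.V
  act := Sum.elim (fun a => (ContinuousLinearMap.compL ℂ X.V X.V Z.V).flip (X.act a))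
    (fun a => ContinuousLinearMap.compL ℂ X.V Z.V Z.V (Z.act a))

lemma IsLeft.add' {X : OpMod A} (hX : IsLeft A X) (a b : A) :
    X.act (a + b) = X.act a + X.act b := by
  ext x; exact hX.add a b x

lemma IsLeft.smul' {X : OpMod A} (hX : IsLeft A X) (c : ℂ) (a : A) :
    X.act (c • a) = c • X.act a := by
  ext x; exact hX.smul c a x

lemma IsLeft.mul' {X : OpMod A} (hX : IsLeft A X) (a b : A) :
    X.act (a * b) = X.act a ∘L X.act b := by
  ext x; exact hX.mul a b x

lemma IsLeft.mul'' {X : OpMod A} (hX : IsLeft A X) (a b : A) :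
    X.act (a * b) = X.act b ∘L X.act a := by
  rw [mul_comm]; exact hX.mul' b a

lemma IsLeft.bdd' {X : OpMod A} (hX : IsLeft A X) : ∃ C : ℝ, 0 ≤ C ∧ ∀ a, ‖X.act a‖ ≤ C * ‖a‖ := by
  obtain ⟨C, hC⟩ := hX.bdd
  refine ⟨max C 0, le_max_right _ _, fun a => ?_⟩
  refine ContinuousLinearMap.opNorm_le_bound _ (by positivity) fun x => ?_
  refine (hC a x).trans ?_
  gcongr
  exact le_max_left _ _

lemma homB_inl (X Z : OpMod A) (a : A) (T : X.V →L[ℂ] Z.V) :
    (homB X Z).act (.inl a) T = (Z.act a) ∘L T := rfl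

lemma homB_inr (X Z : OpMod A) (a : A) (T : X.V →L[ℂ] Z.V) :
    (homB X Z).act (.inr a) T = T ∘L (X.act a) := rfl

lemma homB'_inl (X Z : OpMod A) (a : A) (T : X.V →L[ℂ] Z.V) :
    (homB' X Z).act (.inl a) T = T ∘L (X.act a) := rfl

lemma homB'_inr (X Z : OpMod A) (a : A) (T : X.V →L[ℂ] Z.V) :
    (homB' X Z).act (.inr a) T = (Z.act a) ∘L T := rfl

lemma homB_bi {X Z : OpMod A} (hX : IsLeft A X) (hZ : IsLeft A Z) : IsBi A (homB X Z) where
  ladd a b T := by
    rw [homB_inl, homB_inl, homB_inl, hZ.add']; rfl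
  lsmul c a T := by
    rw [homB_inl, homB_inl, hZ.smul']; rfl
  lmul a b T := by
    rw [homB_inl, homB_inl, homB_inl, hZ.mul']; rfl
  lbdd := by
    obtain ⟨C, hC0, hC⟩ := hZ.bdd'
    refine ⟨C, fun a T => ?_⟩
    rw [homB_inl]
    refine (ContinuousLinearMap.opNorm_comp_le _ _).trans ?_
    exact mul_le_mul_of_nonneg_right (hC a) (norm_nonneg _)
  radd a b T := by
    rw [homB_inr, homB_inr, homB_inr, hX.add']
    exact ContinuousLinearMap.comp_add T (X.act a) (X.act b)
  rsmul c a T := by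
    rw [homB_inr, homB_inr, hX.smul']
    exact ContinuousLinearMap.comp_smul T c (X.act a)
  rmul a b T := by
    rw [homB_inr, homB_inr, homB_inr, hX.mul']; rfl
  rbdd := by
    obtain ⟨C, hC0, hC⟩ := hX.bdd'
    refine ⟨C, fun a T => ?_⟩
    rw [homB_inr]
    refine (ContinuousLinearMap.opNorm_comp_le _ _).trans ?_
    rw [mul_comm]
    exact mul_le_mul_of_nonneg_right (hC a) (norm_nonneg _)
  comm a b T := rfl

lemma homB'_bi {X Z : OpMod A} (hX : IsLeft A X) (hZ : IsLeft A Z) : IsBi A (homB' X Z) where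
  radd a b T := by
    rw [homB'_inr, homB'_inr, homB'_inr, hZ.add']; rfl
  rsmul c a T := by
    rw [homB'_inr, homB'_inr, hZ.smul']; rfl
  rmul a b T := by
    rw [homB'_inr, homB'_inr, homB'_inr, hZ.mul'']; rfl
  rbdd := by
    obtain ⟨C, hC0, hC⟩ := hZ.bdd'
    refine ⟨C, fun a T => ?_⟩
    rw [homB'_inr]
    refine (ContinuousLinearMap.opNorm_comp_le _ _).trans ?_
    exact mul_le_mul_of_nonneg_right (hC a) (norm_nonneg _)
  ladd a b T := by
    rw [homB'_inl, homB'_inl, homB'_inl, hX.add']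
    exact ContinuousLinearMap.comp_add T (X.act a) (X.act b)
  lsmul c a T := by
    rw [homB'_inl, homB'_inl, hX.smul']
    exact ContinuousLinearMap.comp_smul T c (X.act a)
  lmul a b T := by
    rw [homB'_inl, homB'_inl, homB'_inl, hX.mul'']; rfl
  lbdd := by
    obtain ⟨C, hC0, hC⟩ := hX.bdd'
    refine ⟨C, fun a T => ?_⟩
    rw [homB'_inl]
    refine (ContinuousLinearMap.opNorm_comp_le _ _).trans ?_
    rw [mul_comm]
    exact mul_le_mul_of_nonneg_right (hC a) (norm_nonneg _)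
  comm a b T := rfl

/-- composition with `σ` -/
def homMap (X : OpMod A) {Y Z : OpMod A} (σ : Y.V →L[ℂ] Z.V) :
    (X.V →L[ℂ] Y.V) →L[ℂ] (X.V →L[ℂ] Z.V) := ContinuousLinearMap.compL ℂ X.V Y.V Z.V σ

@[simp] lemma homMap_apply (X : OpMod A) {Y Z : OpMod A} (σ : Y.V →L[ℂ] Z.V)
    (T : X.V →L[ℂ] Y.V) : homMap X σ T = σ ∘L T := rfl

/-! ### projectivity -/

/-- `B` projective ⟹ `B ⊗_A X` projective -/
lemma bal_proj {B : OpMod (A ⊕ A)} (hB : Proj (IsBi A) B) {X : OpMod A} (hX : IsLeft A X) :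
    Proj (IsLeft A) (bal B hB.1 X) := by
  refine ⟨bal_left hB.1 X, fun Y Z hY hZ σ hσ hτ φ hφ => ?_⟩
  obtain ⟨τ, hτ⟩ := hτ
  have h1 : IsHom (homB X Y) (homB X Z) (homMap X σ) := by
    rintro (a | a) T
    · ext x
      exact hσ a (T x)
    · rfl
  have h2 : ∃ τ' : (homB X Z).V →L[ℂ] (homB X Y).V, ∀ T, (homMap X σ) (τ' T) = T := by
    refine ⟨homMap X τ, fun T => ?_⟩
    ext x
    exact hτ (T x)
  -- the map `B → L(X, Z)`
  let Φ : B.V →L[ℂ] (homB X Z).V :=
    ContinuousLinearMap.compL ℂ X.V (BalV B X) Z.V φ ∘L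
      (ContinuousLinearMap.compL ℂ X.V (Ten B.V X.V) (BalV B X) (bmk B X) ∘L tmkL)
  have hΦ : ∀ b x, Φ b x = φ (bmk B X (tmk b x)) := fun b x => rfl
  have h3 : IsHom B (homB X Z) Φ := by
    rintro (a | a) b
    · ext x
      change Φ (B.act (.inl a) b) x = Z.act a (Φ b x)
      rw [hΦ, hΦ, ← hφ a, bal_act]
    · ext x
      change Φ (B.act (.inr a) b) x = Φ b (X.act a x)
      rw [hΦ, hΦ, bmk_bal]
  obtain ⟨Ψ, hΨ, hΨ2⟩ := hB.2 (homB X Y) (homB X Z) (homB_bi hX hY) (homB_bi hX hZ)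
    (homMap X σ) h1 h2 Φ h3
  have hbal : ∀ a b x, tlift (G := Y.V) Ψ (tmk (B.act (.inr a) b) x) =
      tlift (G := Y.V) Ψ (tmk b (X.act a x)) := fun a b x => by
    rw [tlift_tmk, tlift_tmk, hΨ (.inr a) b]; rfl
  refine ⟨blift (tlift (G := Y.V) Ψ) hbal, fun a u => ?_, fun u => ?_⟩
  · have : blift (tlift (G := Y.V) Ψ) hbal ∘L (bal B hB.1 X).act a =
        Y.act a ∘L blift (tlift (G := Y.V) Ψ) hbal := by
      refine bal_ext fun b x => ?_
      rw [ContinuousLinearMap.comp_apply, ContinuousLinearMap.comp_apply, bal_act, blift_bmk,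
        blift_bmk, tlift_tmk, tlift_tmk, hΨ (.inl a) b]; rfl
    exact DFunLike.congr_fun this u
  · have : σ ∘L blift (tlift (G := Y.V) Ψ) hbal = φ := by
      refine bal_ext fun b x => ?_
      rw [ContinuousLinearMap.comp_apply, blift_bmk, tlift_tmk]
      have := DFunLike.congr_fun (hΨ2 b) x
      rw [hΦ] at this
      exact this
    exact DFunLike.congr_fun this u

end General

variable (A : Type) [NonUnitalNormedCommRing A] [NormedSpace ℂ A] [IsScalarTower ℂ A A]
  [SMulCommClass ℂ A A] [CompleteSpace A]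

variable {A} in
/-- the map `b ↦ ((z, a) ↦ z b + a b)` -/
def orb {B : OpMod (A ⊕ A)} (hB : IsBi A B) : B.V →L[ℂ] ((ℂ × A) →L[ℂ] B.V) :=
  LinearMap.mkContinuous₂
    (LinearMap.mk₂ ℂ (fun (b : B.V) (u : ℂ × A) => u.1 • b + B.act (.inl u.2) b)
      (fun b b' u => by simp only [smul_add, map_add]; abel)
      (fun c b u => by simp only [map_smul, smul_add, smul_comm c])
      (fun b u u' => by
        simp only [Prod.fst_add, Prod.snd_add, add_smul, hB.ladd]; abel)
      (fun c b u => by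
        simp only [Prod.smul_fst, Prod.smul_snd, hB.lsmul, smul_add, smul_assoc]))
    (1 + max hB.lbdd.choose 0) (fun b u => by
      have h := hB.lbdd.choose_spec u.2 b
      change ‖u.1 • b + B.act (.inl u.2) b‖ ≤ _
      have h1 : ‖u.1 • b‖ ≤ ‖u‖ * ‖b‖ := by
        rw [norm_smul]
        exact mul_le_mul_of_nonneg_right (norm_fst_le u) (norm_nonneg _)
      have h2 : ‖B.act (.inl u.2) b‖ ≤ max hB.lbdd.choose 0 * ‖u‖ * ‖b‖ := by
        refine h.trans ?_
        gcongr
        · exact le_max_left _ _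
        · exact norm_snd_le u
      refine (norm_add_le _ _).trans ((add_le_add h1 h2).trans (le_of_eq ?_))
      ring)

variable {A} in
lemma orb_apply {B : OpMod (A ⊕ A)} (hB : IsBi A B) (b : B.V) (u : ℂ × A) :
    orb hB b u = u.1 • b + B.act (.inl u.2) b := rfl

variable {A} in
/-- a projective bimodule is projective as a right module -/
lemma rgt_proj {B : OpMod (A ⊕ A)} (hB : Proj (IsBi A) B) : Proj (IsLeft A) (rgtB B) := by
  refine ⟨rgt_left hB.1, fun Y Z hY hZ σ hσ hτ φ hφ => ?_⟩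
  obtain ⟨τ, hτ⟩ := hτ
  have hP := plusL_left A
  have h1 : IsHom (homB' (plusL A) Y) (homB' (plusL A) Z) (homMap (plusL A) σ) := by
    rintro (a | a) T
    · rfl
    · ext x
      exact hσ a (T x)
  have h2 : ∃ τ' : (homB' (plusL A) Z).V →L[ℂ] (homB' (plusL A) Y).V,
      ∀ T, (homMap (plusL A) σ) (τ' T) = T := by
    refine ⟨homMap (plusL A) τ, fun T => ?_⟩
    ext x
    exact hτ (T x)
  let Φ : B.V →L[ℂ] (homB' (plusL A) Z).V :=
    ContinuousLinearMap.compL ℂ (ℂ × A) B.V Z.V φ ∘L orb hB.1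
  have hΦ : ∀ b (u : ℂ × A), Φ b u = φ (u.1 • b + B.act (.inl u.2) b) := fun b x => rfl
  have h3 : IsHom B (homB' (plusL A) Z) Φ := by
    rintro (a | a) b
    · ext1 u
      change Φ (B.act (.inl a) b) u = Φ b (plusLeft A a u)
      rw [hΦ, hΦ]
      have hu : plusLeft A a u = (0, u.1 • a + a * u.2) := rfl
      rw [hu]
      simp only [zero_smul, zero_add, hB.1.ladd, hB.1.lsmul]
      rw [mul_comm a u.2, hB.1.lmul]
    · ext1 u
      change Φ (B.act (.inr a) b) u = Z.act a (Φ b u)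
      rw [hΦ, hΦ, ← hφ a]
      change φ _ = φ (B.act (.inr a) _)
      rw [map_add (B.act (.inr a)), map_smul (B.act (.inr a)), hB.1.comm]
  obtain ⟨Ψ, hΨ, hΨ2⟩ := hB.2 (homB' (plusL A) Y) (homB' (plusL A) Z) (homB'_bi hP hY)
    (homB'_bi hP hZ) (homMap (plusL A) σ) h1 h2 Φ h3
  let e : (plusL A).V := ((1 : ℂ), (0 : A))
  have he : ∀ b, B.act (.inl (0 : A)) b = 0 := fun b => by
    have := hB.1.lsmul 0 0 b
    rwa [zero_smul, zero_smul] at this
  refine ⟨(ContinuousLinearMap.apply ℂ Y.V e) ∘L Ψ, fun a b => ?_, fun b => ?_⟩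
  · change Ψ (B.act (.inr a) b) e = Y.act a (Ψ b e)
    rw [hΨ (.inr a) b]; rfl
  · change σ (Ψ b e) = φ b
    have := DFunLike.congr_fun (hΨ2 b) e
    rw [hΦ] at this
    refine Eq.trans this ?_
    change φ ((1 : ℂ) • b + B.act (.inl (0 : A)) b) = φ b
    rw [he, one_smul, add_zero]

variable {A} in
lemma IsHom.rgtB {B B' : OpMod (A ⊕ A)} {f : B.V →L[ℂ] B'.V} (hf : IsHom B B' f) :
    IsHom (rgtB B) (rgtB B') f := fun a b => hf (.inr a) b

variable {A} in
lemma IsHom.bal {B B' : OpMod (A ⊕ A)} {f : B.V →L[ℂ] B'.V} (hf : IsHom B B' f) (hB : IsBi A B)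
    (hB' : IsBi A B') (X : OpMod A) :
    IsHom (Pool.Agent.Lib.MP_1618a1_an.bal B hB X) (Pool.Agent.Lib.MP_1618a1_an.bal B' hB' X)
      (bmap (X := X) f (fun a b => hf (.inr a) b)) := by
  intro a u
  have : bmap (X := X) f (fun a b => hf (.inr a) b) ∘L (Pool.Agent.Lib.MP_1618a1_an.bal B hB X).act a =
      (Pool.Agent.Lib.MP_1618a1_an.bal B' hB' X).act a ∘L bmap (X := X) f (fun a b => hf (.inr a) b) := by
    refine bal_ext fun b x => ?_
    rw [ContinuousLinearMap.comp_apply, ContinuousLinearMap.comp_apply, bal_act, bmap_bmk,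
      bmap_bmk, bal_act, hf (.inl a) b]
  exact DFunLike.congr_fun this u

variable {A} in
/-- the main induction -/
lemma bal_dhLE {X : OpMod A} (hX : IsLeft A X) (n : ℕ) : ∀ (B : OpMod (A ⊕ A)),
    Proj (IsLeft A) (rgtB B) → dhLE (IsBi A) n B → ∀ hB : IsBi A B,
    dhLE (IsLeft A) n (bal B hB X) := by
  induction n with
  | zero =>
    intro B _ h hB
    exact bal_proj (B := B) h hX
  | succ n ih =>
    intro B hr h hB
    obtain ⟨_, K, P, j, π, hS, hP, hK⟩ := h
    refine ⟨bal_left hB X, ?_⟩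
    have hKb : IsBi A K := hK.cls
    obtain ⟨t, s, htj, hπs, hts, hπj⟩ := hS.split
    -- right-module splitting
    have hSr : SES (rgtB K) (rgtB P) (rgtB B) j π := ⟨hS.jhom.rgtB, hS.πhom.rgtB, hS.split⟩
    obtain ⟨σ, hσ, hπσ⟩ := Proj.section_of_epi hr (rgt_left hP.1) hSr.πhom ⟨s, hπs⟩
    have hid : IsHom (rgtB P) (rgtB P) ((.id ℂ P.V) - σ ∘L π) := by
      intro a x
      change (rgtB P).act a x - σ (π ((rgtB P).act a x)) = (rgtB P).act a (x - σ (π x))
      rw [hSr.πhom, hσ, map_sub]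
    obtain ⟨r, hr2, hjr⟩ := hSr.lift hid (fun y => by
      change π (y - σ (π y)) = 0
      rw [map_sub, hπσ, sub_self])
    have hjr' : ∀ x, j (r x) = x - σ (π x) := hjr
    have hinj : ∀ x y, j x = j y → x = y := fun x y h => by rw [← htj x, h, htj]
    have hrj : ∀ x, r (j x) = x := fun x => by
      apply hinj
      rw [hjr', hπj, map_zero, sub_zero]
    have hKr : Proj (IsLeft A) (rgtB K) :=
      Proj.retract (good_left A) hSr.jhom hr2 hrj (rgt_proj hP)
    refine ⟨bal K hKb X, bal P hP.1 X, bmap (X := X) j (fun a b => hS.jhom (.inr a) b),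
      bmap (X := X) π (fun a b => hS.πhom (.inr a) b), ?_, bal_proj hP hX, ih K hKr hK hKb⟩
    refine ⟨hS.jhom.bal hKb hP.1 X, hS.πhom.bal hP.1 hB X, ?_⟩
    refine ⟨bmap (X := X) r (fun a b => hr2 a b), bmap (X := X) σ (fun a b => hσ a b),
      fun u => ?_, fun u => ?_, fun u => ?_, fun u => ?_⟩
    · have : bmap (X := X) r (fun a b => hr2 a b) ∘L
          bmap (X := X) j (fun a b => hS.jhom (.inr a) b) = .id ℂ (BalV K X) := by
        refine bal_ext fun b x => ?_
        rw [ContinuousLinearMap.comp_apply, bmap_bmk, bmap_bmk, hrj]; rfl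
      exact DFunLike.congr_fun this u
    · have : bmap (X := X) π (fun a b => hS.πhom (.inr a) b) ∘L
          bmap (X := X) σ (fun a b => hσ a b) = .id ℂ (BalV B X) := by
        refine bal_ext fun b x => ?_
        rw [ContinuousLinearMap.comp_apply, bmap_bmk, bmap_bmk, hπσ]; rfl
      exact DFunLike.congr_fun this u
    · have : bmap (X := X) j (fun a b => hS.jhom (.inr a) b) ∘L
          bmap (X := X) r (fun a b => hr2 a b) + bmap (X := X) σ (fun a b => hσ a b) ∘L
          bmap (X := X) π (fun a b => hS.πhom (.inr a) b) = .id ℂ (BalV P X) := by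
        refine bal_ext fun b x => ?_
        rw [add_apply, ContinuousLinearMap.comp_apply,
          ContinuousLinearMap.comp_apply, bmap_bmk, bmap_bmk, bmap_bmk, bmap_bmk, hjr', ← map_add,
          ← tmk_add_left, sub_add_cancel]; rfl
      exact DFunLike.congr_fun this u
    · have : bmap (X := X) π (fun a b => hS.πhom (.inr a) b) ∘L
          bmap (X := X) j (fun a b => hS.jhom (.inr a) b) = 0 := by
        refine bal_ext fun b x => ?_
        rw [ContinuousLinearMap.comp_apply, bmap_bmk, bmap_bmk, hπj, tmk_zero_left, map_zero]; rfl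
      exact DFunLike.congr_fun this u

/-- `A₊` as a bimodule, reducible version of `plusBi` -/
@[reducible] def pbi : OpMod (A ⊕ A) where
  V := ℂ × A
  act := Sum.elim (plusLeft A) (plusRight A)


variable {A}

/-- the bounded bilinear map `((z, a), x) ↦ z x + a x` -/
def plusX {X : OpMod A} (hX : IsLeft A X) : (ℂ × A) →L[ℂ] X.V →L[ℂ] X.V :=
  LinearMap.mkContinuous₂
    (LinearMap.mk₂ ℂ (fun (u : ℂ × A) (x : X.V) => u.1 • x + X.act u.2 x)
      (fun u u' x => by simp only [Prod.fst_add, Prod.snd_add, add_smul, hX.add]; abel)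
      (fun c u x => by
        simp only [Prod.smul_fst, Prod.smul_snd, hX.smul, smul_add, smul_assoc])
      (fun u x x' => by simp only [smul_add, map_add]; abel)
      (fun c u x => by simp only [map_smul, smul_add, smul_comm c]))
    (1 + hX.bdd'.choose) (fun u x => by
      have hC0 := hX.bdd'.choose_spec.1
      have hC := hX.bdd'.choose_spec.2
      change ‖u.1 • x + X.act u.2 x‖ ≤ _
      have h1 : ‖u.1 • x‖ ≤ ‖u‖ * ‖x‖ := by
        rw [norm_smul]
        exact mul_le_mul_of_nonneg_right (norm_fst_le u) (norm_nonneg _)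
      have h2 : ‖X.act u.2 x‖ ≤ hX.bdd'.choose * ‖u‖ * ‖x‖ := by
        refine ((X.act u.2).le_opNorm x).trans ?_
        refine mul_le_mul_of_nonneg_right ((hC _).trans ?_) (norm_nonneg _)
        exact mul_le_mul_of_nonneg_left (norm_snd_le u) hC0
      refine (norm_add_le _ _).trans ((add_le_add h1 h2).trans (le_of_eq ?_))
      ring)

lemma plusX_apply {X : OpMod A} (hX : IsLeft A X) (u : ℂ × A) (x : X.V) :
    plusX hX u x = u.1 • x + X.act u.2 x := rfl

lemma pbi_inr (a : A) (u : ℂ × A) :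
    ((pbi A).act (.inr a) u : ℂ × A) = (0, u.1 • a + u.2 * a) := rfl

lemma pbi_inl (a : A) (u : ℂ × A) :
    ((pbi A).act (.inl a) u : ℂ × A) = (0, u.1 • a + a * u.2) := rfl

lemma plusX_bal {X : OpMod A} (hX : IsLeft A X) (a : A) (b : ℂ × A) (x : X.V) :
    plusX hX ((pbi A).act (.inr a) b : ℂ × A) x = plusX hX b (X.act a x) := by
  rw [plusX_apply, plusX_apply, pbi_inr]
  simp only [zero_smul, zero_add, hX.add, hX.smul, hX.mul]

/-- the isomorphism `A₊ ⊗_A X → X` -/
def balX {X : OpMod A} (hX : IsLeft A X) : BalV (pbi A) X →L[ℂ] X.V :=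
  blift (B := pbi A) (X := X) (tlift (E := ℂ × A) (F := X.V) (G := X.V) (plusX hX))
    (fun a b x => by
      rw [tlift_tmk, tlift_tmk]
      exact plusX_bal hX a b x)

lemma balX_bmk {X : OpMod A} (hX : IsLeft A X) (u : ℂ × A) (x : X.V) :
    balX hX (bmk (pbi A) X (tmk u x)) = u.1 • x + X.act u.2 x := by
  rw [balX, blift_bmk, tlift_tmk]
  rfl

/-- the inverse isomorphism `X → A₊ ⊗_A X` -/
def balY (X : OpMod A) : X.V →L[ℂ] BalV (pbi A) X :=
  bmk (pbi A) X ∘L tmkL (((1 : ℂ), (0 : A)) : ℂ × A)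

lemma balY_apply (X : OpMod A) (x : X.V) :
    balY X x = bmk (pbi A) X (tmk (((1 : ℂ), (0 : A)) : ℂ × A) x) := by
  rw [balY, ContinuousLinearMap.comp_apply, tmkL_apply]

lemma balX_balY {X : OpMod A} (hX : IsLeft A X) (x : X.V) : balX hX (balY X x) = x := by
  have h0 : X.act 0 x = 0 := by
    have := hX.smul 0 0 x
    rwa [zero_smul, zero_smul] at this
  rw [balY_apply, balX_bmk]
  change (1 : ℂ) • x + X.act 0 x = x
  rw [h0, one_smul, add_zero]

lemma balY_aux {X : OpMod A} (u : ℂ × A) (x : X.V) :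
    u.1 • balY X x + balY X (X.act u.2 x) = bmk (pbi A) X (tmk u x) := by
  have h : (u.1 • (((1 : ℂ), (0 : A)) : ℂ × A) +
      ((pbi A).act (.inr u.2) (((1 : ℂ), (0 : A)) : ℂ × A) : ℂ × A) : ℂ × A) = u := by
    rw [pbi_inr]
    ext
    · change u.1 * 1 + 0 = u.1
      rw [mul_one, add_zero]
    · change u.1 • (0 : A) + ((1 : ℂ) • u.2 + 0 * u.2) = u.2
      rw [smul_zero, one_smul, zero_mul, zero_add, add_zero]
  have h1 := bmk_bal (pbi A) X u.2 (((1 : ℂ), (0 : A)) : ℂ × A) x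
  rw [balY_apply, balY_apply]
  refine (congrArg (fun w => u.1 • bmk (pbi A) X (tmk (((1 : ℂ), (0 : A)) : ℂ × A) x) + w)
    h1.symm).trans ?_
  refine Eq.trans ?_ (congrArg (fun w : ℂ × A => bmk (pbi A) X (tmk w x)) h)
  exact ((congrArg (bmk (pbi A) X) (tmk_add_left (E := ℂ × A) _ _ x)).trans
    ((map_add (bmk (pbi A) X) _ _).trans (congrArg (fun w => w + _)
    ((congrArg (bmk (pbi A) X) (tmk_smul_left (E := ℂ × A) _ _ x)).trans
    (map_smul (bmk (pbi A) X) _ _))))).symm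

variable (A)

theorem left_of_bi {n : ℕ} (h' : dhLE (IsBi A) n (plusBi A)) (X : OpMod A) (hX : IsLeft A X) :
    dhLE (IsLeft A) n X := by
  have h : dhLE (IsBi A) n (pbi A) := h'
  have hB : IsBi A (pbi A) := h.cls
  have hr : rgtB (pbi A) = plusL A := by
    change rgtB (plusBi A) = plusL A
    rw [plusBi_eq]; rfl
  have h1 := bal_dhLE hX n (pbi A) (hr ▸ plusL_proj A) h hB
  have : IsClosed (balSub (pbi A) X : Set (Ten (pbi A).V X.V)) := balSub_closed _ _
  have hgf' : balY X ∘L balX hX = .id ℂ (BalV (pbi A) X) := by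
    refine bal_ext (B := pbi A) (X := X) (G := BalV (pbi A) X) fun u x => ?_
    rw [ContinuousLinearMap.comp_apply, balX_bmk, map_add, map_smul]
    exact balY_aux u x
  have hgf : ∀ u, balY X (balX hX u) = u := fun u => DFunLike.congr_fun hgf' u
  have hfh : IsHom (bal (pbi A) hB X) X (balX hX) := by
    intro a u
    have : balX hX ∘L (bal (pbi A) hB X).act a = X.act a ∘L balX hX := by
      refine bal_ext fun v x => ?_
      rw [ContinuousLinearMap.comp_apply, ContinuousLinearMap.comp_apply, bal_act,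
        balX_bmk hX v x]
      refine (balX_bmk hX ((pbi A).act (.inl a) v : ℂ × A) x).trans ?_
      rw [pbi_inl]
      simp only [zero_smul, zero_add, hX.add, hX.smul, hX.mul, map_add, map_smul]
    exact DFunLike.congr_fun this u
  have hgh : IsHom X (bal (pbi A) hB X) (balY X) := by
    intro a x
    have : balX hX (balY X (X.act a x)) = balX hX ((bal (pbi A) hB X).act a (balY X x)) := by
      rw [balX_balY, hfh, balX_balY]
    rw [← hgf (balY X (X.act a x)), this, hgf]
  exact dhLE.iso (good_left A) hfh hgh hgf (balX_balY hX) h1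

end

end Pool.Agent.Lib.MP_1618a1_an
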