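import Pool.Agent.Lib.MP_1618a1_an.Defs

/-!
# The definitions of the statement and the working definitions agree
-/

set_option autoImplicit false

namespace Pool.Agent.Lib.MP_1618a1_an

section General

variable {Op : Type} {C : OpMod Op → Prop}

lemma isProj_iff {P : OpMod Op} : IsProj C P ↔ Proj C P := Iff.rfl

/-- the two notions of resolutions agree -/
def Resol.toRes {X : OpMod Op} {n : ℕ} (R : Resol C X n) : Res C X n where
  P := R.P
  ε := R.ε
  d := R.d
  proj := R.proj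
  zero := R.zero
  ε_hom := R.ε_mor
  d_hom := R.d_mor
  ε_d := R.ε_d
  d_d := R.d_d
  s₀ := R.s₀
  s := R.s
  ε_s := R.ε_s
  s_ε := R.s_ε
  s_d := R.s_d

/-- the two notions of resolutions agree -/
def Res.toResol {X : OpMod Op} {n : ℕ} (R : Res C X n) : Resol C X n where
  P := R.P
  ε := R.ε
  d := R.d
  proj := R.proj
  zero := R.zero
  ε_mor := R.ε_hom
  d_mor := R.d_hom
  ε_d := R.ε_d
  d_d := R.d_d
  s₀ := R.s₀
  s := R.s
  ε_s := R.ε_s
  s_ε := R.s_ε
  s_d := R.s_d

lemma hdim_eq (X : OpMod Op) : hdim C X = dh C X := by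
  have h : {n | Nonempty (Resol C X n)} = {n | Nonempty (Res C X n)} := by
    ext n
    exact ⟨fun ⟨r⟩ => ⟨r.toRes⟩, fun ⟨r⟩ => ⟨r.toResol⟩⟩
  rw [hdim, dh, h]

end General

section Algebra

variable (A : Type) [NonUnitalNormedCommRing A] [NormedSpace ℂ A]

lemma bil_of {V : Type} [NormedAddCommGroup V] [NormedSpace ℂ V] (f : A → V →L[ℂ] V)
    (h1 : ∀ a b x, f (a + b) x = f a x + f b x) (h2 : ∀ (c : ℂ) a x, f (c • a) x = c • f a x)
    (h3 : ∃ C : ℝ, ∀ a x, ‖f a x‖ ≤ C * ‖a‖ * ‖x‖) :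
    IsBoundedBilinearMap ℂ (fun p : A × V => f p.1 p.2) where
  add_left := h1
  smul_left := h2
  add_right a x y := map_add (f a) x y
  smul_right c a x := map_smul (f a) c x
  bound := by
    obtain ⟨C, hC⟩ := h3
    refine ⟨|C| + 1, by positivity, fun a x => (hC a x).trans ?_⟩
    have := le_abs_self C
    gcongr
    linarith

lemma isLeftMod_eq : IsLeftMod A = IsLeft A := by
  funext X
  apply propext
  constructor
  · rintro ⟨h1, h2⟩
    exact ⟨h1.add_left, h1.smul_left, h2, by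
      obtain ⟨C, _, hC⟩ := h1.bound
      exact ⟨C, hC⟩⟩
  · intro h
    exact ⟨bil_of A X.act h.add h.smul h.bdd, h.mul⟩

lemma isBiMod_eq : IsBiMod A = IsBi A := by
  funext X
  apply propext
  constructor
  · rintro ⟨h1, h2, h3, h4, h5⟩
    obtain ⟨C, _, hC⟩ := h1.bound
    obtain ⟨C', _, hC'⟩ := h2.bound
    exact ⟨h1.add_left, h1.smul_left, h3, ⟨C, hC⟩, h2.add_left, h2.smul_left, h4, ⟨C', hC'⟩, h5⟩
  · intro h
    exact ⟨bil_of A (fun a => X.act (.inl a)) h.ladd h.lsmul h.lbdd,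
      bil_of A (fun a => X.act (.inr a)) h.radd h.rsmul h.rbdd, h.lmul, h.rmul, h.comm⟩

variable [IsScalarTower ℂ A A] [SMulCommClass ℂ A A] [CompleteSpace A]

lemma gdim_eq : gdim A = dg A := by
  rw [gdim, dg, isLeftMod_eq]
  simp only [hdim_eq]

lemma bidim_eq : bidim A = db A := by
  rw [bidim, db, isBiMod_eq, hdim_eq]

end Algebra

end Pool.Agent.Lib.MP_1618a1_an
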