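import Pool.Agent.Lib.MP_1618a1_an.At

/-!
# Coordinates and truncations on atomic spaces
-/

set_option autoImplicit false

namespace Pool.Agent.Lib.MP_1618a1_an

noncomputable section

variable {B : Type} [DecidableEq B] {A : Atoms B}

/-- the family of atoms is hereditary and consists of functions bounded by `1` -/
structure Atoms.Her (A : Atoms B) : Prop where
  filter : ∀ s ∈ A.S, ∀ (K : Finset B), ‖lc A.g (s.filter (· ∈ K))‖ ≤ 1
  bdd : ∀ s ∈ A.S, ∀ b, ‖s b‖ ≤ 1

/-- the coefficient functional -/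
def coord (A : Atoms B) (b : B) : At A →L[ℂ] ℂ := atLift A fun b' => if b = b' then 1 else 0

lemma coord_bdd (hA : A.Her) (b : B) :
    ∀ s ∈ A.S, ‖lc (fun b' => if b = b' then (1 : ℂ) else 0) s‖ ≤ 1 := fun s hs => by
  have : lc (fun b' => if b = b' then (1 : ℂ) else 0) s = s b := by
    simp only [lc, Finsupp.linearCombination_apply, Finsupp.sum, smul_eq_mul, mul_ite, mul_one,
      mul_zero, Finset.sum_ite_eq]
    split_ifs with h
    · rfl
    · simp at h; exact h.symm
  rw [this]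
  exact hA.bdd s hs b

lemma coord_g (hA : A.Her) (b b' : B) : coord A b (A.g b') = if b = b' then 1 else 0 :=
  atLift_g ⟨1, coord_bdd hA b⟩ b'

lemma norm_coord_le (hA : A.Her) (b : B) : ‖coord A b‖ ≤ 1 :=
  norm_atLift_le zero_le_one (coord_bdd hA b)

/-- truncation to a finite set -/
def trunc (A : Atoms B) (K : Finset B) : At A →L[ℂ] At A :=
  atLift A fun b => if b ∈ K then A.g b else 0

lemma lc_trunc (s : B →₀ ℂ) (K : Finset B) :
    lc (fun b => if b ∈ K then A.g b else 0) s = lc A.g (s.filter (· ∈ K)) := by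
  simp only [lc, Finsupp.linearCombination_apply, Finsupp.sum, smul_ite, smul_zero,
    Finsupp.support_filter]
  rw [← Finset.sum_filter]
  refine Finset.sum_congr rfl fun b hb => ?_
  rw [Finsupp.filter_apply_pos _ _ (Finset.mem_filter.1 hb).2]

lemma trunc_bdd (hA : A.Her) (K : Finset B) :
    ∀ s ∈ A.S, ‖lc (fun b => if b ∈ K then A.g b else 0) s‖ ≤ 1 := fun s hs => by
  rw [lc_trunc]
  exact hA.filter s hs K

lemma trunc_g (hA : A.Her) (K : Finset B) (b : B) :
    trunc A K (A.g b) = if b ∈ K then A.g b else 0 := atLift_g ⟨1, trunc_bdd hA K⟩ b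

lemma norm_trunc_le (hA : A.Her) (K : Finset B) : ‖trunc A K‖ ≤ 1 :=
  norm_atLift_le zero_le_one (trunc_bdd hA K)

lemma trunc_eq_sum (hA : A.Her) (K : Finset B) (x : At A) :
    trunc A K x = ∑ b ∈ K, coord A b x • A.g b := by
  have h : trunc A K = ∑ b ∈ K, (coord A b).smulRight (A.g b) := by
    refine gen_ext fun b' => ?_
    change trunc A K (A.g b') = (∑ b ∈ K, (coord A b).smulRight (A.g b)) (A.g b')
    rw [trunc_g hA, sum_apply]
    simp only [ContinuousLinearMap.smulRight_apply, coord_g hA, ite_smul, one_smul, zero_smul,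
      Finset.sum_ite_eq']
  rw [h, sum_apply]
  rfl

lemma exists_lc_near (x : At A) {ε : ℝ} (hε : 0 < ε) : ∃ u : B →₀ ℂ, ‖x - lc A.g u‖ < ε := by
  have := (dense_genLC A.test) x
  rw [Metric.mem_closure_iff] at this
  obtain ⟨_, ⟨u, rfl⟩, hu⟩ := this ε hε
  exact ⟨u, by rw [← dist_eq_norm]; exact hu⟩

/-- the coordinates separate the points -/
lemma eq_zero_of_coord (hA : A.Her) {x : At A} (h : ∀ b, coord A b x = 0) : x = 0 := by
  by_contra hx
  have hx' : 0 < ‖x‖ := norm_pos_iff.2 hx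
  obtain ⟨u, hu⟩ := exists_lc_near x (half_pos hx')
  have h1 : trunc A u.support x = 0 := by
    rw [trunc_eq_sum hA]; simp [h]
  have h2 : trunc A u.support (lc A.g u) = lc A.g u := by
    rw [map_lc]
    simp only [lc, Finsupp.linearCombination_apply, Finsupp.sum]
    refine Finset.sum_congr rfl fun b hb => ?_
    rw [trunc_g hA, if_pos hb]
  have h3 : ‖lc A.g u‖ ≤ ‖x - lc A.g u‖ := by
    have : trunc A u.support (x - lc A.g u) = - lc A.g u := by rw [map_sub, h1, h2, zero_sub]
    calc ‖lc A.g u‖ = ‖trunc A u.support (x - lc A.g u)‖ := by rw [this, norm_neg]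
      _ ≤ ‖trunc A u.support‖ * ‖x - lc A.g u‖ := ContinuousLinearMap.le_opNorm _ _
      _ ≤ 1 * ‖x - lc A.g u‖ := by gcongr; exact norm_trunc_le hA _
      _ = _ := one_mul _
  have h4 : ‖x‖ ≤ ‖x - lc A.g u‖ + ‖lc A.g u‖ := by
    calc ‖x‖ = ‖(x - lc A.g u) + lc A.g u‖ := by rw [sub_add_cancel]
      _ ≤ _ := norm_add_le _ _
  linarith

/-- the coordinates tend to `0` -/
lemma finite_coord (hA : A.Her) (x : At A) {ε : ℝ} (hε : 0 < ε) :
    {b | ε ≤ ‖coord A b x‖}.Finite := by
  obtain ⟨u, hu⟩ := exists_lc_near x hε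
  refine (u.support.finite_toSet).subset fun b hb => ?_
  by_contra hb'
  have h1 : coord A b (lc A.g u) = 0 := by
    rw [map_lc]
    simp only [lc, Finsupp.linearCombination_apply, Finsupp.sum]
    refine Finset.sum_eq_zero fun b' hb'' => ?_
    rw [coord_g hA, if_neg (fun h => hb' (by rw [h]; exact hb'')), smul_zero]
  have h2 : ‖coord A b x‖ < ε := by
    calc ‖coord A b x‖ = ‖coord A b (x - lc A.g u)‖ := by rw [map_sub, h1, sub_zero]
      _ ≤ ‖coord A b‖ * ‖x - lc A.g u‖ := ContinuousLinearMap.le_opNorm _ _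
      _ ≤ 1 * ‖x - lc A.g u‖ := by gcongr; exact norm_coord_le hA _
      _ < ε := by rw [one_mul]; exact hu
  exact absurd hb (not_le.2 h2)

end

end Pool.Agent.Lib.MP_1618a1_an
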