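import Pool.Agent.Lib.MP_1618a1_an.Stmt

/-!
# Relative homological dimensions of Banach modules and Banach algebras: working definitions

The definitions of `Stmt` in the form in which they are used in the proofs.
-/

set_option autoImplicit false

namespace Pool.Agent.Lib.MP_1618a1_an

section General

variable {Op : Type}

/-- A bounded linear map `f : X → Y` is a morphism if it commutes with the operators. -/
def IsHom (X Y : OpMod Op) (f : X.V →L[ℂ] Y.V) : Prop :=
  ∀ o x, f (X.act o x) = Y.act o (f x)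

/-- `P` is a projective object of the class `C`: `P` is in `C`, and every morphism `φ : P → Z` lifts
along every morphism `σ : Y → Z` with a bounded linear right inverse (`Y`, `Z` in `C`). -/
def Proj (C : OpMod Op → Prop) (P : OpMod Op) : Prop :=
  C P ∧ ∀ Y Z : OpMod Op, C Y → C Z → ∀ σ : Y.V →L[ℂ] Z.V, IsHom Y Z σ →
    (∃ τ : Z.V →L[ℂ] Y.V, ∀ z, σ (τ z) = z) →
    ∀ φ : P.V →L[ℂ] Z.V, IsHom P Z φ →
      ∃ ψ : P.V →L[ℂ] Y.V, IsHom P Y ψ ∧ ∀ p, σ (ψ p) = φ p

/-- A projective resolution `0 ← X ← P 0 ← P 1 ← ... ← P n ← 0` (with `P i = 0` for `i > n`) that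
splits as a complex of Banach spaces: `s₀`, `s i` is a contracting homotopy by bounded linear
maps. -/
structure Res (C : OpMod Op → Prop) (X : OpMod Op) (n : ℕ) where
  /-- the modules -/
  P : ℕ → OpMod Op
  /-- the augmentation `P 0 → X` -/
  ε : (P 0).V →L[ℂ] X.V
  /-- the differentials `P (i+1) → P i` -/
  d : ∀ i, (P (i + 1)).V →L[ℂ] (P i).V
  proj : ∀ i, Proj C (P i)
  zero : ∀ i, n < i → ∀ x : (P i).V, x = 0
  ε_hom : IsHom (P 0) X ε
  d_hom : ∀ i, IsHom (P (i + 1)) (P i) (d i)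
  ε_d : ∀ x, ε (d 0 x) = 0
  d_d : ∀ i x, d i (d (i + 1) x) = 0
  /-- the contracting homotopy, `X → P 0` -/
  s₀ : X.V →L[ℂ] (P 0).V
  /-- the contracting homotopy, `P i → P (i+1)` -/
  s : ∀ i, (P i).V →L[ℂ] (P (i + 1)).V
  ε_s : ∀ x, ε (s₀ x) = x
  s_ε : ∀ x, s₀ (ε x) + d 0 (s 0 x) = x
  s_d : ∀ i x, s i (d i x) + d (i + 1) (s (i + 1) x) = x

/-- The homological dimension of `X` (in the class `C`): the least length of a resolution. -/
noncomputable def dh (C : OpMod Op → Prop) (X : OpMod Op) : ℕ∞ :=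
  sInf ((fun n : ℕ => (n : ℕ∞)) '' {n | Nonempty (Res C X n)})

end General

section Algebra

variable (A : Type) [NonUnitalNormedCommRing A] [NormedSpace ℂ A]

/-- `X` is a left Banach `A`-module: the operators `act a = (a · )` depend linearly and boundedly
on `a`, and `(a b) · x = a · (b · x)`.  No unit is assumed. -/
structure IsLeft (X : OpMod A) : Prop where
  add : ∀ a b x, X.act (a + b) x = X.act a x + X.act b x
  smul : ∀ (c : ℂ) a x, X.act (c • a) x = c • X.act a x
  mul : ∀ a b x, X.act (a * b) x = X.act a (X.act b x)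
  bdd : ∃ C : ℝ, ∀ a x, ‖X.act a x‖ ≤ C * ‖a‖ * ‖x‖

/-- `X` is a Banach `A`-bimodule: `act (inl a) x = a · x`, `act (inr a) x = x · a`. -/
structure IsBi (X : OpMod (A ⊕ A)) : Prop where
  ladd : ∀ a b x, X.act (.inl (a + b)) x = X.act (.inl a) x + X.act (.inl b) x
  lsmul : ∀ (c : ℂ) a x, X.act (.inl (c • a)) x = c • X.act (.inl a) x
  lmul : ∀ a b x, X.act (.inl (a * b)) x = X.act (.inl a) (X.act (.inl b) x)
  lbdd : ∃ C : ℝ, ∀ a x, ‖X.act (.inl a) x‖ ≤ C * ‖a‖ * ‖x‖
  radd : ∀ a b x, X.act (.inr (a + b)) x = X.act (.inr a) x + X.act (.inr b) x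
  rsmul : ∀ (c : ℂ) a x, X.act (.inr (c • a)) x = c • X.act (.inr a) x
  rmul : ∀ a b x, X.act (.inr (a * b)) x = X.act (.inr b) (X.act (.inr a) x)
  rbdd : ∃ C : ℝ, ∀ a x, ‖X.act (.inr a) x‖ ≤ C * ‖a‖ * ‖x‖
  comm : ∀ a b x, X.act (.inl a) (X.act (.inr b) x) = X.act (.inr b) (X.act (.inl a) x)

/-- `A` is a Banach function algebra (`A` is commutative by assumption): it is complete and
semisimple, i.e. the homomorphisms `A → ℂ` separate the points of `A`. -/
def IsBFA : Prop := CompleteSpace A ∧ ∀ a : A, (∀ χ : A →ₙₐ[ℂ] ℂ, χ a = 0) → a = 0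

variable [IsScalarTower ℂ A A] [SMulCommClass ℂ A A] [CompleteSpace A]

/-- The global dimension of `A`: the supremum of the homological dimensions of all left Banach
`A`-modules. -/
noncomputable def dg : ℕ∞ := ⨆ X : {X : OpMod A // IsLeft A X}, dh (IsLeft A) X.1

/-- The bidimension of `A`: the homological dimension of the bimodule `A₊`. -/
noncomputable def db : ℕ∞ := dh (IsBi A) (plusBi A)

end Algebra

end Pool.Agent.Lib.MP_1618a1_an
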