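import Pool.Agent.Lib.MP_1618a1_an.At

/-!
# The families of atoms and the basic actions
-/

set_option autoImplicit false

namespace Pool.Agent.Lib.MP_1618a1_an

noncomputable section

/-- functions with values in `{0, 1, -1}` -/
def Sgn {B : Type} (s : B →₀ ℂ) : Prop := ∀ b, s b = 0 ∨ s b = 1 ∨ s b = -1

/-- the two families of finite subsets of `ℕ × ℕ`: `Adm false` are the subsets of a column
`{l} × ℕ`; `Adm true` are the sets such that `(l, i), (l', i') ∈ G`, `l < l'` imply `i < l'`. -/
def Adm : Bool → Finset (ℕ × ℕ) → Prop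
  | true, G => ∀ p ∈ G, ∀ q ∈ G, p.1 < q.1 → p.2 < q.1
  | false, G => ∀ p ∈ G, ∀ q ∈ G, p.1 = q.1

lemma Adm.mono {k : Bool} {G G' : Finset (ℕ × ℕ)} (h : G ⊆ G') (hG : Adm k G') : Adm k G := by
  cases k with
  | true => exact fun p hp q hq => hG p (h hp) q (h hq)
  | false => exact fun p hp q hq => hG p (h hp) q (h hq)

lemma Adm.of_col {k : Bool} {G : Finset (ℕ × ℕ)} {l : ℕ} (h : ∀ p ∈ G, p.1 = l) : Adm k G := by
  cases k with
  | true =>
    intro p hp q hq hpq
    rw [h p hp, h q hq] at hpq
    exact absurd hpq (lt_irrefl _)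
  | false => exact fun p hp q hq => (h p hp).trans (h q hq).symm

lemma Adm.to_true {G : Finset (ℕ × ℕ)} (h : Adm false G) : Adm true G :=
  fun p hp q hq hpq => absurd (h p hp q hq) hpq.ne

lemma Sgn.single {B : Type} (b : B) : Sgn (Finsupp.single b (1 : ℂ)) := fun b' => by
  classical
  rw [Finsupp.single_apply]
  split_ifs <;> simp

lemma Sgn.mul {B : Type} {s t : B →₀ ℂ} (hs : Sgn s) (ht : Sgn t) : Sgn (s * t) := fun b => by
  rw [Finsupp.mul_apply]
  rcases hs b with h | h | h <;> rcases ht b with h' | h' | h' <;> simp [h, h']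

lemma Sgn.filter {B : Type} {s : B →₀ ℂ} (hs : Sgn s) (p : B → Prop) [DecidablePred p] :
    Sgn (s.filter p) := fun b => by
  rw [Finsupp.filter_apply]
  split_ifs
  · exact hs b
  · simp

lemma Sgn.norm_le {B : Type} {s : B →₀ ℂ} (hs : Sgn s) (b : B) : ‖s b‖ ≤ 1 := by
  rcases hs b with h | h | h <;> simp [h]

lemma Sgn.sq {B : Type} {s : B →₀ ℂ} (hs : Sgn s) {b : B} (hb : b ∈ s.support) :
    s b * s b = 1 := by
  rcases hs b with h | h | h
  · simp at hb; exact absurd h hb
  · simp [h]
  · simp [h]

/-- the atoms of `I` (`k = true`) and `I'` (`k = false`) -/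
def atomsI (k : Bool) : Atoms (ℕ × ℕ) where
  S := {s | Sgn s ∧ Adm k s.support}
  single_mem b := ⟨Sgn.single b, Adm.of_col (l := b.1) fun p hp => by
    have := Finsupp.support_single_subset hp
    simp at this; rw [this]⟩

/-- the atoms of `L = ℓ¹` -/
def atomsL : Atoms ℕ where
  S := Set.range fun l => Finsupp.single l 1
  single_mem l := ⟨l, rfl⟩

/-- the atoms of `X = c₀` -/
def atomsC : Atoms ℕ where
  S := {s | Sgn s}
  single_mem l := Sgn.single l

/-- the basis of the algebra: `inl p = δ_p` for `p ∈ ℕ × ℕ`, `inr l = e_l` -/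
abbrev BB : Type := (ℕ × ℕ) ⊕ ℕ

/-- the atoms of the algebra `M` (`k = true`) and of the module `M'` (`k = false`) -/
def atomsM (k : Bool) : Atoms BB := (atomsI k).sum atomsL

/-- the element `0` or a basis vector -/
def Atoms.og {B : Type} (A : Atoms B) : Option B → At A
  | none => 0
  | some b => A.g b

@[simp] lemma Atoms.og_none {B : Type} (A : Atoms B) : A.og none = 0 := rfl
@[simp] lemma Atoms.og_some {B : Type} (A : Atoms B) (b : B) : A.og (some b) = A.g b := rfl

/-- the bilinear map given by a partial operation of the bases -/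
def oact {B B' B'' : Type} (A : Atoms B) (A' : Atoms B') (A'' : Atoms B'')
    (r : B → B' → Option B'') : At A →L[ℂ] At A' →L[ℂ] At A'' :=
  atLift₂ A A' fun b b' => A''.og (r b b')

/-- the product of basis vectors of the algebra -/
def bmul : BB → BB → Option BB
  | .inl p, .inl q => if p = q then some (.inl q) else none
  | .inl p, .inr l => if p.1 = l then some (.inl p) else none
  | .inr l, .inl q => if l = q.1 then some (.inl q) else none
  | .inr l, .inr m => if l = m then some (.inr m) else none

/-- the action of the basis vectors of the algebra on `ℕ × ℕ` -/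
def bactI : BB → ℕ × ℕ → Option (ℕ × ℕ)
  | .inl p, q => if p = q then some q else none
  | .inr l, q => if l = q.1 then some q else none

/-- the action of the basis vectors of the algebra on `ℕ` -/
def bactL : BB → ℕ → Option ℕ
  | .inl _, _ => none
  | .inr l, m => if l = m then some m else none

lemma lc_ite_eq {B G : Type} [DecidableEq B] [AddCommGroup G] [Module ℂ G] (v : B → G) (b : B)
    (s : B →₀ ℂ) : lc (fun b' => if b = b' then v b' else 0) s = s b • v b := by
  simp only [lc, Finsupp.linearCombination_apply, Finsupp.sum, smul_ite, smul_zero,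
    Finset.sum_ite_eq]
  split_ifs with h
  · rfl
  · simp at h; simp [h]

lemma lc_mul {B G : Type} [AddCommGroup G] [Module ℂ G] (v : B → G) (t s : B →₀ ℂ) :
    lc (fun b => s b • v b) t = lc v (t * s) := by
  simp only [lc, Finsupp.linearCombination_apply, Finsupp.sum]
  rw [Finset.sum_subset (Finsupp.support_mul_subset_left (g₁ := t) (g₂ := s))]
  · refine Finset.sum_congr rfl fun b _ => ?_
    rw [Finsupp.mul_apply, smul_smul]
  · intro b _ hb
    simp only [Finsupp.mem_support_iff, not_not] at hb
    rw [hb, zero_smul]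

lemma lc_filter {B G : Type} [AddCommGroup G] [Module ℂ G] (v : B → G) (p : B → Prop)
    [DecidablePred p] (s : B →₀ ℂ) :
    lc (fun b => if p b then v b else 0) s = lc v (s.filter p) := by
  simp only [lc, Finsupp.linearCombination_apply, Finsupp.sum, smul_ite, smul_zero,
    Finsupp.support_filter]
  rw [← Finset.sum_filter]
  refine Finset.sum_congr rfl fun b hb => ?_
  rw [Finsupp.filter_apply_pos _ _ (Finset.mem_filter.1 hb).2]

lemma atomsI_mul {k k' : Bool} {t s : (ℕ × ℕ) →₀ ℂ} (ht : t ∈ (atomsI k').S)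
    (hs : s ∈ (atomsI k).S) : t * s ∈ (atomsI k).S :=
  ⟨ht.1.mul hs.1, hs.2.mono Finsupp.support_mul_subset_right⟩

lemma atomsI_filter {k : Bool} {s : (ℕ × ℕ) →₀ ℂ} (hs : s ∈ (atomsI k).S) (p : ℕ × ℕ → Prop)
    [DecidablePred p] : s.filter p ∈ (atomsI k).S :=
  ⟨hs.1.filter p, hs.2.mono (by rw [Finsupp.support_filter]; exact Finset.filter_subset _ _)⟩

lemma atomsI_filter_col {k k' : Bool} {s : (ℕ × ℕ) →₀ ℂ} (hs : s ∈ (atomsI k').S) (l : ℕ) :
    s.filter (fun p => p.1 = l) ∈ (atomsI k).S :=
  ⟨hs.1.filter _, Adm.of_col (l := l) fun p hp => by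
    rw [Finsupp.support_filter, Finset.mem_filter] at hp; exact hp.2⟩

/-- the action on `I k` is bounded -/
lemma bddI (k k' : Bool) :
    Bdd₂ (atomsM k') (atomsI k) (fun b p => (atomsI k).og (bactI b p)) 1 := by
  rintro _ (⟨t, ht, rfl⟩ | ⟨_, ⟨l, rfl⟩, rfl⟩) s hs
  · rw [lc_mapDomain]
    have h : ∀ p : ℕ × ℕ, lc (fun q => (atomsI k).og (bactI (.inl p) q)) s =
        s p • (atomsI k).g p := fun p => by
      rw [← lc_ite_eq]
      congr 1
      funext q
      simp only [bactI]
      split_ifs <;> rfl
    simp only [h]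
    rw [lc_mul]
    exact norm_atom_le (atomsI_mul ht hs)
  · rw [lc_mapDomain]
    have h : lc (fun q => (atomsI k).og (bactI (.inr l) q)) s =
        lc (atomsI k).g (s.filter (fun p => p.1 = l)) := by
      rw [← lc_filter]
      congr 1
      funext q
      simp only [bactI, eq_comm (a := l)]
      split_ifs <;> rfl
    have h2 : lc (fun b => lc (fun q => (atomsI k).og (bactI (.inr b) q)) s)
        (Finsupp.single l 1) = lc (fun q => (atomsI k).og (bactI (.inr l) q)) s := by
      simp [lc]
    rw [h2, h]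
    exact norm_atom_le (atomsI_filter hs _)

end

end Pool.Agent.Lib.MP_1618a1_an
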