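import Pool.Agent.Lib.MP_1618a1_an.Theory1

/-!
# Resolutions and the inductive form of the dimension
-/

set_option autoImplicit false

namespace Pool.Agent.Lib.MP_1618a1_an

noncomputable section

variable {Op : Type} {C : OpMod Op → Prop}

/-- the resolution of the kernel of the augmentation -/
def Res.tail {n : ℕ} {X : OpMod Op} (R : Res C X (n + 1)) :
    Res C (kerMod R.ε R.ε_hom) n where
  P i := R.P (i + 1)
  ε := (R.d 0).codRestrict R.ε.ker fun x => R.ε_d x
  d i := R.d (i + 1)
  proj i := R.proj (i + 1)
  zero i hi := R.zero (i + 1) (Nat.succ_lt_succ hi)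
  ε_hom o x := Subtype.ext (R.d_hom 0 o x)
  d_hom i := R.d_hom (i + 1)
  ε_d x := Subtype.ext (R.d_d 0 x)
  d_d i := R.d_d (i + 1)
  s₀ := (R.s 0).comp R.ε.ker.subtypeL
  s i := R.s (i + 1)
  ε_s x := by
    refine Subtype.ext ?_
    have h1 := R.s_ε x.1
    have h2 : R.ε x.1 = 0 := x.2
    rw [h2, map_zero, zero_add] at h1
    exact h1
  s_ε x := R.s_d 0 x
  s_d i x := R.s_d (i + 1) x

/-- from a resolution to the inductive form -/
lemma dhLE_of_res (hC : Good C) {n : ℕ} {X : OpMod Op} (hX : C X) (R : Res C X n) :
    dhLE C n X := by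
  induction n generalizing X with
  | zero =>
    have hs : ∀ x, R.s₀ (R.ε x) = x := fun x => by
      have h1 := R.s_ε x
      rw [R.zero 1 Nat.one_pos (R.s 0 x), map_zero, add_zero] at h1
      exact h1
    have hhom : IsHom X (R.P 0) R.s₀ := by
      intro o x
      conv_lhs => rw [← R.ε_s x]
      rw [← R.ε_hom, hs]
    exact Proj.retract hC hhom R.ε_hom R.ε_s (R.proj 0)
  | succ n ih =>
    have hses := SES.ker R.ε_hom ⟨R.s₀, R.ε_s⟩
    exact ⟨hX, kerMod R.ε R.ε_hom, R.P 0, kerIncl R.ε R.ε_hom, R.ε, hses, R.proj 0,
      ih (hses.cls hC (R.proj 0).1).1 R.tail⟩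

/-- the zero module -/
def zeroMod (Op : Type) : OpMod Op where
  V := PUnit
  act _ := 0

lemma zeroMod_eq (x : (zeroMod Op).V) : x = 0 := rfl

lemma zeroMod_proj (hC : Good C) {X : OpMod Op} (hX : C X) : Proj C (zeroMod Op) := by
  refine ⟨hC.emb (zeroMod Op) X 0 (fun o x => by simp) ⟨1, one_pos, fun x => ?_⟩ hX, ?_⟩
  · rw [zeroMod_eq x]
    simp
  · intro Y Z _ _ σ _ _ φ _
    refine ⟨0, fun o x => by simp, fun p => ?_⟩
    rw [zeroMod_eq p]
    simp

/-- the modules of the spliced resolution -/
def spliceP (P : OpMod Op) (Q : ℕ → OpMod Op) : ℕ → OpMod Op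
  | 0 => P
  | i + 1 => Q i

/-- the differentials of the spliced resolution -/
def spliceD (P : OpMod Op) (Q : ℕ → OpMod Op) (e : (Q 0).V →L[ℂ] P.V)
    (d : ∀ i, (Q (i + 1)).V →L[ℂ] (Q i).V) :
    ∀ i, (spliceP P Q (i + 1)).V →L[ℂ] (spliceP P Q i).V
  | 0 => e
  | i + 1 => d i

/-- the homotopy of the spliced resolution -/
def spliceS (P : OpMod Op) (Q : ℕ → OpMod Op) (e : P.V →L[ℂ] (Q 0).V)
    (s : ∀ i, (Q i).V →L[ℂ] (Q (i + 1)).V) :
    ∀ i, (spliceP P Q i).V →L[ℂ] (spliceP P Q (i + 1)).V
  | 0 => e
  | i + 1 => s i

/-- from the inductive form to a resolution -/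
lemma res_of_dhLE (hC : Good C) {n : ℕ} {X : OpMod Op} (h : dhLE C n X) :
    Nonempty (Res C X n) := by
  induction n generalizing X with
  | zero =>
    have h0 : ∀ x : (zeroMod Op).V, x = 0 := zeroMod_eq
    refine ⟨{ P := spliceP X fun _ => zeroMod Op
              ε := ContinuousLinearMap.id ℂ X.V
              d := spliceD X (fun _ => zeroMod Op) 0 fun _ => 0
              proj := fun i => ?_
              zero := fun i hi => ?_
              ε_hom := fun o x => rfl
              d_hom := fun i => ?_
              ε_d := fun x => rfl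
              d_d := fun i x => ?_
              s₀ := ContinuousLinearMap.id ℂ X.V
              s := spliceS X (fun _ => zeroMod Op) 0 fun _ => 0
              ε_s := fun x => rfl
              s_ε := fun x => ?_
              s_d := fun i x => ?_ }⟩
    · cases i with
      | zero => exact h
      | succ i => exact zeroMod_proj hC h.1
    · cases i with
      | zero => exact absurd hi (lt_irrefl 0)
      | succ i => exact fun x => h0 x
    · cases i with
      | zero =>
        intro o x
        change (0 : X.V) = X.act o 0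
        rw [map_zero]
      | succ i =>
        intro o x
        exact h0 _ 
    · cases i with
      | zero => rfl
      | succ i => exact h0 _
    · change x + 0 = x
      rw [add_zero]
    · exact (h0 _).trans (h0 _).symm
  | succ n ih =>
    obtain ⟨hX, K, P, j, π, ⟨hj, hπ, t, s, htj, hπs, hjt, hπj⟩, hP, hK⟩ := h
    obtain ⟨R⟩ := ih hK
    refine ⟨{ P := spliceP P R.P
              ε := π
              d := spliceD P R.P (j ∘L R.ε) R.d
              proj := fun i => ?_
              zero := fun i hi => ?_
              ε_hom := hπ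
              d_hom := fun i => ?_
              ε_d := fun x => hπj _
              d_d := fun i x => ?_
              s₀ := s
              s := spliceS P R.P (R.s₀ ∘L t) R.s
              ε_s := hπs
              s_ε := fun x => ?_
              s_d := fun i x => ?_ }⟩
    · cases i with
      | zero => exact hP
      | succ i => exact R.proj i
    · cases i with
      | zero => exact absurd hi (by omega)
      | succ i => exact R.zero i (by omega)
    · cases i with
      | zero => exact hj.comp R.ε_hom
      | succ i => exact R.d_hom i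
    · cases i with
      | zero =>
        change j (R.ε (R.d 0 x)) = 0
        rw [R.ε_d, map_zero]
      | succ i => exact R.d_d i x
    · change s (π x) + j (R.ε (R.s₀ (t x))) = x
      rw [R.ε_s, add_comm]
      exact hjt x
    · cases i with
      | zero =>
        change R.s₀ (t (j (R.ε x))) + R.d 0 (R.s 0 x) = x
        rw [htj]
        exact R.s_ε x
      | succ i => exact R.s_d i x

lemma dh_le_iff (hC : Good C) {n : ℕ} {X : OpMod Op} (hX : C X) :
    dh C X ≤ (n : ℕ∞) ↔ dhLE C n X := by
  constructor
  · intro h
    have hne : ((fun n : ℕ => (n : ℕ∞)) '' {n | Nonempty (Res C X n)}).Nonempty := by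
      by_contra hcon
      rw [Set.not_nonempty_iff_eq_empty] at hcon
      unfold dh at h
      rw [hcon, sInf_empty, top_le_iff] at h
      exact ENat.natCast_ne_top n h
    obtain ⟨k, ⟨R⟩, hk⟩ := csInf_mem hne
    have hk' : (k : ℕ∞) = dh C X := hk
    rw [← hk'] at h
    exact dhLE.mono hC (by exact_mod_cast h) (dhLE_of_res hC hX R)
  · intro h
    exact sInf_le ⟨n, res_of_dhLE hC h, rfl⟩

end

end Pool.Agent.Lib.MP_1618a1_an
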