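import Pool.Agent.Lib.MP_1618a1_an.Lower
import Pool.Agent.Lib.MP_1618a1_an.Bal
import Pool.Agent.Lib.MP_1618a1_an.ResEq

/-!
# The algebra `M` has `dg M = db M = 3`
-/

set_option autoImplicit false

namespace Pool.Agent.Lib.MP_1618a1_an

noncomputable section

lemma not_le_two_iff {x : ℕ∞} : ¬ x ≤ 2 ↔ 3 ≤ x := by
  rw [not_le]
  have h : (3 : ℕ∞) = 2 + 1 := by norm_num
  rw [h]
  exact (ENat.add_one_le_iff (by simp)).symm

theorem db_le : db MAlg ≤ 3 :=
  (dh_le_iff (good_bi MAlg) (n := 3) upper_bound.cls).2 upper_bound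

theorem dg_le : dg MAlg ≤ 3 := by
  refine iSup_le fun X => ?_
  exact (dh_le_iff (good_left MAlg) (n := 3) X.2).2 (left_of_bi MAlg upper_bound X.1 X.2)

theorem three_le_dg : 3 ≤ dg MAlg := by
  have h1 : (3 : ℕ∞) ≤ dh (IsLeft MAlg) modC := by
    rw [← not_le_two_iff]
    intro h
    exact lower_bound ((dh_le_iff (good_left MAlg) (n := 2) modC_left).1 h)
  exact h1.trans (le_iSup (fun X : {X : OpMod MAlg // IsLeft MAlg X} => dh (IsLeft MAlg) X.1)
    ⟨modC, modC_left⟩)

theorem three_le_db : 3 ≤ db MAlg := by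
  rw [← not_le_two_iff]
  intro h
  have h2 : dhLE (IsBi MAlg) 2 (plusBi MAlg) :=
    (dh_le_iff (good_bi MAlg) (n := 2) upper_bound.cls).1 h
  exact lower_bound (left_of_bi MAlg h2 modC modC_left)

theorem dg_MAlg : dg MAlg = 3 := le_antisymm dg_le three_le_dg

theorem db_MAlg : db MAlg = 3 := le_antisymm db_le three_le_db

end

end Pool.Agent.Lib.MP_1618a1_an
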