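import Mathlib

/-!
# Banach spaces generated by a set of vectors with a prescribed family of test functions

For a type `B` and a pointwise bounded set `W` of functions `B → ℂ`, `GenSp T` is the completion of
the free vector space on `B` for the norm `‖∑ u_b b‖ = sup_{F ∈ W} |∑ u_b F b|`, realised as a closed
subspace of `ℓ^∞(W)`.
-/

set_option autoImplicit false

open scoped ENNReal

namespace Pool.Agent.Lib.MP_1618a1_an

noncomputable section

/-- the linear combination `∑ u_b v_b` -/
abbrev lc {B G : Type} [AddCommGroup G] [Module ℂ G] (v : B → G) (u : B →₀ ℂ) : G :=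
  Finsupp.linearCombination ℂ v u

/-- a pointwise bounded family of test functions on `B` -/
structure Test (B : Type) where
  /-- the test functions -/
  W : Set (B → ℂ)
  bdd : ∀ b, ∃ C : ℝ, ∀ F ∈ W, ‖F b‖ ≤ C

variable {B : Type} (T : Test B)

/-- the generator `b` as a bounded function on the set of test functions -/
def gen0 (b : B) : lp (fun _ : T.W => ℂ) ∞ :=
  ⟨fun F => F.1 b, memℓp_infty ⟨(T.bdd b).choose, by
    rintro _ ⟨F, rfl⟩; exact (T.bdd b).choose_spec F.1 F.2⟩⟩

/-- the closed span of the generators -/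
def genSub : Submodule ℂ (lp (fun _ : T.W => ℂ) ∞) :=
  (Submodule.span ℂ (Set.range (gen0 T))).topologicalClosure

/-- the Banach space generated by `B` with test functions `T` -/
def GenSp : Type := genSub T

instance : NormedAddCommGroup (GenSp T) := inferInstanceAs (NormedAddCommGroup (genSub T))
instance : NormedSpace ℂ (GenSp T) := inferInstanceAs (NormedSpace ℂ (genSub T))
instance : CompleteSpace (GenSp T) :=
  (Submodule.isClosed_topologicalClosure _).completeSpace_coe

/-- the generators -/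
def gen (b : B) : GenSp T :=
  (⟨gen0 T b, Submodule.le_topologicalClosure _ (Submodule.subset_span ⟨b, rfl⟩)⟩ : genSub T)

/-- the inclusion in `ℓ^∞(W)` -/
def genIncl : GenSp T →ₗᵢ[ℂ] lp (fun _ : T.W => ℂ) ∞ := (genSub T).subtypeₗᵢ

lemma genIncl_gen (b : B) : genIncl T (gen T b) = gen0 T b := rfl

lemma genIncl_lc (u : B →₀ ℂ) (F : T.W) :
    (genIncl T (lc (gen T) u) : lp (fun _ : T.W => ℂ) ∞) F = lc F.1 u := by
  simp only [lc, Finsupp.linearCombination_apply, Finsupp.sum, map_sum, map_smul, genIncl_gen]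
  rw [lp.coeFn_sum, Finset.sum_apply]
  rfl

variable {T}

lemma norm_lc_gen_le {u : B →₀ ℂ} {r : ℝ} (hr : 0 ≤ r) (h : ∀ F ∈ T.W, ‖lc F u‖ ≤ r) :
    ‖lc (gen T) u‖ ≤ r := by
  rw [← (genIncl T).norm_map]
  refine lp.norm_le_of_forall_le hr fun F => ?_
  rw [genIncl_lc]
  exact h F.1 F.2

lemma le_norm_lc_gen {F : B → ℂ} (hF : F ∈ T.W) (u : B →₀ ℂ) :
    ‖lc F u‖ ≤ ‖lc (gen T) u‖ := by
  rw [← (genIncl T).norm_map]
  have := lp.norm_apply_le_norm (p := ∞) (by simp) (genIncl T (lc (gen T) u)) ⟨F, hF⟩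
  rwa [genIncl_lc] at this

variable (T) in
/-- finite combinations as a linear map to the completion -/
def genLC : (B →₀ ℂ) →ₗ[ℂ] GenSp T := Finsupp.linearCombination ℂ (gen T)

variable (T) in
lemma dense_genLC : DenseRange (genLC T) := by
  intro x
  have hx : (genIncl T x) ∈ closure (Submodule.span ℂ (Set.range (gen0 T)) :
      Set (lp (fun _ : T.W => ℂ) ∞)) := x.2
  rw [Metric.mem_closure_iff] at hx
  rw [Metric.mem_closure_iff]
  intro ε hε
  obtain ⟨y, hy, hxy⟩ := hx ε hε
  obtain ⟨u, rfl⟩ := (Finsupp.mem_span_range_iff_exists_finsupp).1 hy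
  refine ⟨genLC T u, ⟨u, rfl⟩, ?_⟩
  rw [← (genIncl T).dist_map]
  convert hxy using 2
  change genIncl T (Finsupp.linearCombination ℂ (gen T) u) = _
  simp only [Finsupp.linearCombination_apply, Finsupp.sum, map_sum, map_smul, genIncl_gen]

variable {G : Type} [NormedAddCommGroup G] [NormedSpace ℂ G]

/-- two bounded linear maps that agree on the generators are equal -/
lemma gen_ext {f g : GenSp T →L[ℂ] G} (h : ∀ b, f (gen T b) = g (gen T b)) : f = g := by
  ext x
  have hd := dense_genLC T
  refine hd.induction (P := fun x => f x = g x) ?_ (isClosed_eq f.continuous g.continuous) x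
  rintro _ ⟨u, rfl⟩
  simp only [genLC, Finsupp.linearCombination_apply, Finsupp.sum, map_sum, map_smul, h]

/-- induction principle: a closed property that is stable under sums and multiples -/
lemma gen_ind {p : GenSp T → Prop} (hc : IsClosed {x | p x}) (h0 : p 0)
    (hadd : ∀ x y, p x → p y → p (x + y)) (hsmul : ∀ (c : ℂ) x, p x → p (c • x))
    (hgen : ∀ b, p (gen T b)) (x : GenSp T) : p x := by
  refine (dense_genLC T).induction (P := p) ?_ hc x
  rintro _ ⟨u, rfl⟩
  simp only [genLC, Finsupp.linearCombination_apply, Finsupp.sum]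
  classical
  induction u.support using Finset.induction_on with
  | empty => simpa using h0
  | insert a s ha ih =>
    rw [Finset.sum_insert ha]
    exact hadd _ _ (hsmul _ _ (hgen a)) ih

/-- the criterion for boundedness: pull back functionals of norm `≤ 1` -/
lemma bound_of_dual {v : B → G} {C : ℝ}
    (h : ∀ φ : G →L[ℂ] ℂ, ‖φ‖ ≤ 1 → ∃ F ∈ T.W, ∀ b, φ (v b) = C * F b) (hC : 0 ≤ C)
    (u : B →₀ ℂ) : ‖lc v u‖ ≤ C * ‖lc (gen T) u‖ := by
  obtain ⟨φ, hφ, hφ2⟩ := exists_dual_vector'' ℂ (lc v u)
  obtain ⟨F, hF, hv⟩ := h φ hφ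
  have h1 : φ (lc v u) = C * lc F u := by
    simp only [lc, Finsupp.linearCombination_apply, Finsupp.sum, map_sum, map_smul, hv,
      Finset.mul_sum, smul_eq_mul]
    exact Finset.sum_congr rfl fun b _ => by ring
  have h2 : ‖lc v u‖ = ‖φ (lc v u)‖ := by rw [hφ2]; simp
  rw [h2, h1, norm_mul]
  have : ‖(C : ℂ)‖ = C := by simp [abs_of_nonneg hC]
  rw [this]
  exact mul_le_mul_of_nonneg_left (le_norm_lc_gen hF u) hC

/-- `v` is bounded for the norm of `GenSp T` -/
def LBdd (T : Test B) (v : B → G) : Prop := ∃ C : ℝ, ∀ u : B →₀ ℂ, ‖lc v u‖ ≤ C * ‖lc (gen T) u‖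

variable [CompleteSpace G]

/-- the bounded linear map with given values at the generators (only meaningful when `LBdd T v`) -/
def genLift (T : Test B) (v : B → G) : GenSp T →L[ℂ] G :=
  (Finsupp.linearCombination ℂ v).extendOfNorm (genLC T)

lemma genLift_gen {v : B → G} (h : LBdd T v) (b : B) : genLift T v (gen T b) = v b := by
  have := LinearMap.extendOfNorm_eq (f := Finsupp.linearCombination ℂ v) (e := genLC T)
    (dense_genLC T) h (Finsupp.single b 1)
  have h1 : genLC T (Finsupp.single b 1) = gen T b := by simp [genLC]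
  rw [h1] at this
  rw [genLift, this]
  simp

lemma norm_genLift_le {v : B → G} {C : ℝ} (hC : 0 ≤ C)
    (h : ∀ u : B →₀ ℂ, ‖lc v u‖ ≤ C * ‖lc (gen T) u‖) : ‖genLift T v‖ ≤ C :=
  LinearMap.opNorm_extendOfNorm_le (dense_genLC T) hC h

end

end Pool.Agent.Lib.MP_1618a1_an
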