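import Pool.Agent.Lib.MP_1618a1_an.Rho

/-!
# The left modules `I`, `I'`, `M'` are projective
-/

set_option autoImplicit false

namespace Pool.Agent.Lib.MP_1618a1_an

noncomputable section

/-- a left module `X` with a morphism `X → A₊ ⊗ X` that splits the multiplication is projective -/
lemma proj_of_split {X : OpMod MAlg}
    (i : X.V →L[ℂ] (tenS (plusL MAlg) X.V).V) (hi : IsHom X (tenS (plusL MAlg) X.V) i)
    (π : (tenS (plusL MAlg) X.V).V →L[ℂ] X.V) (hπ : IsHom (tenS (plusL MAlg) X.V) X π)
    (h : ∀ x, π (i x) = x) : Proj (IsLeft MAlg) X :=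
  Proj.retract (good_left MAlg) hi hπ h (tenS_proj (plusL_proj MAlg))

lemma plusLeft_inr (a m : MAlg) : plusLeft MAlg a (0, m) = (0, a * m) := by
  simp [plusLeft]

/-- `I k → M → M₊` -/
def toPlus (k : Bool) : At (atomsI k) →L[ℂ] ℂ × MAlg :=
  ContinuousLinearMap.inr ℂ ℂ MAlg ∘L inM true ∘L incI k

lemma toPlus_g (k : Bool) (p : ℕ × ℕ) :
    toPlus k ((atomsI k).g p) = (0, (atomsM true).g (.inl p)) := by
  simp [toPlus]

lemma mul_gp (a : MAlg) (p : ℕ × ℕ) :
    a * (atomsM true).g (.inl p) = chI p a • (atomsM true).g (.inl p) := by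
  rw [MAlg.mul_def]
  have h := inM_act true a ((atomsI true).g p)
  rw [actI_gp, map_smul, inM_g] at h
  exact h.symm

theorem modI_proj (k : Bool) : Proj (IsLeft MAlg) (modI k) := by
  obtain ⟨π, hπ, hπ2⟩ : ∃ π : Ten (ℂ × MAlg) (At (atomsI k)) →L[ℂ] At (atomsI k),
      IsHom (tenS (plusL MAlg) (At (atomsI k))) (modI k) π ∧
      ∀ (z : ℂ) (a : MAlg) (x : At (atomsI k)), π (tmk (z, a) x) = z • x + actI true k a x :=
    free_left (modI_left k)
  refine proj_of_split (tmap (toPlus k) (.id ℂ _) ∘L rho k) (fun a x => ?_) π hπ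
    fun x => ?_
  · exact at_eq (A := atomsI k) (tmap (toPlus k) (.id ℂ _) ∘L rho k ∘L (actI true k a))
      (tmap (plusLeft MAlg a) (.id ℂ _) ∘L tmap (toPlus k) (.id ℂ _) ∘L rho k) (fun p => by
        simp only [ContinuousLinearMap.comp_apply, actI_gp, map_smul, rho_g, tmap_tmk,
          ContinuousLinearMap.id_apply, toPlus_g, plusLeft_inr, mul_gp]
        rw [← tmk_smul_left, Prod.smul_mk, smul_zero]) x
  · exact at_eq (A := atomsI k) (π ∘L tmap (toPlus k) (.id ℂ _) ∘L rho k) (.id ℂ _) (fun p => by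
        simp only [ContinuousLinearMap.comp_apply, rho_g, tmap_tmk,
          ContinuousLinearMap.id_apply, toPlus_g]
        rw [hπ2, zero_smul, zero_add, actI_g]
        simp [bactI]) x

/-- the column of a basis vector -/
def colB : BB → ℕ
  | .inl p => p.1
  | .inr l => l

/-- `M' → M₊ ⊗ M'`, `b ↦ b ⊗ e_l`, `l` the column of `b` -/
def rhoM : At (atomsM false) →L[ℂ] Ten (ℂ × MAlg) (At (atomsM false)) :=
  atLift _ fun b => tmk (0, (atomsM true).g b) ((atomsM false).g (.inr (colB b)))

lemma norm_inr_le (m : MAlg) : ‖((0 : ℂ), m)‖ ≤ ‖m‖ := by simp [Prod.norm_def]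

lemma rhoM_bdd : ∀ s ∈ (atomsM false).S,
    ‖lc (fun b => tmk ((0 : ℂ), (atomsM true).g b) ((atomsM false).g (.inr (colB b)))) s‖ ≤ 1 := by
  refine sum_bdd (fun s hs => ?_) ?_
  · rcases s.support.eq_empty_or_nonempty with h0 | ⟨q, hq⟩
    · have : s = 0 := by simpa using h0
      subst this
      simp [lc]
    · have h1 : lc (fun p : ℕ × ℕ => tmk ((0 : ℂ), (atomsM true).g (.inl p))
          ((atomsM false).g (.inr (colB (.inl p))))) s =
          tmk ((0 : ℂ), lc (atomsM true).g (Finsupp.mapDomain Sum.inl s))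
            ((atomsM false).g (.inr q.1)) := by
        rw [lc_mapDomain]
        have h2 : ((0 : ℂ), lc (fun p => (atomsM true).g (Sum.inl p)) s) =
            lc (fun p => ((0 : ℂ), (atomsM true).g (Sum.inl p))) s := by
          have h3 := map_lc (A := atomsI true) (ContinuousLinearMap.inr ℂ ℂ MAlg ∘L inM true) s
          simp only [ContinuousLinearMap.comp_apply, inM_g, ContinuousLinearMap.inr_apply] at h3
          rw [← h3, map_lc]
          simp only [inM_g]
        rw [h2]
        rw [← tmkL_apply, ← ContinuousLinearMap.flip_apply]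
        simp only [lc, Finsupp.linearCombination_apply, Finsupp.sum, map_sum, map_smul]
        refine Finset.sum_congr rfl fun p hp => ?_
        have : p.1 = q.1 := hs.2 p hp q hq
        rw [ContinuousLinearMap.flip_apply, tmkL_apply, colB, this]
      rw [h1]
      calc _ ≤ ‖((0 : ℂ), lc (atomsM true).g (Finsupp.mapDomain Sum.inl s))‖ *
            ‖(atomsM false).g (.inr q.1)‖ := norm_tmk_le _ _
        _ ≤ 1 * 1 := by
            refine mul_le_mul ((norm_inr_le _).trans ?_) (norm_g_le _) (norm_nonneg _) zero_le_one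
            exact norm_atom_le (Or.inl ⟨s, atomsI_le false hs, rfl⟩)
        _ = 1 := one_mul 1
  · rintro _ ⟨l, rfl⟩
    simp only [lc, Finsupp.linearCombination_single, one_smul]
    calc _ ≤ ‖((0 : ℂ), (atomsM true).g (.inr l))‖ * ‖(atomsM false).g (.inr l)‖ :=
          norm_tmk_le _ _
      _ ≤ 1 * 1 := mul_le_mul ((norm_inr_le _).trans (norm_g_le _)) (norm_g_le _) (norm_nonneg _)
          zero_le_one
      _ = 1 := one_mul 1

@[simp] lemma rhoM_g (b : BB) : rhoM ((atomsM false).g b) =
    tmk (0, (atomsM true).g b) ((atomsM false).g (.inr (colB b))) := atLift_g ⟨1, rhoM_bdd⟩ b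

lemma colB_bmul {b b' c : BB} (h : bmul b b' = some c) : colB c = colB b' := by
  rcases b with q | l <;> rcases b' with p | m <;> simp only [bmul] at h <;> split_ifs at h <;>
    simp_all <;> (subst h; simp_all [colB])

theorem modM'_proj : Proj (IsLeft MAlg) (modM false) := by
  obtain ⟨π, hπ, hπ2⟩ : ∃ π : Ten (ℂ × MAlg) (At (atomsM false)) →L[ℂ] At (atomsM false),
      IsHom (tenS (plusL MAlg) (At (atomsM false))) (modM false) π ∧
      ∀ (z : ℂ) (a : MAlg) (x : At (atomsM false)), π (tmk (z, a) x) = z • x + actM true false a x :=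
    free_left (modM_left false)
  refine proj_of_split rhoM (fun a x => ?_) π hπ fun x => ?_
  · refine at_eq (A := atomsM false) (rhoM ∘L (actM true false a))
      (tmap (plusLeft MAlg a) (.id ℂ _) ∘L rhoM) (fun b' => ?_) x
    simp only [ContinuousLinearMap.comp_apply, rhoM_g, tmap_tmk, ContinuousLinearMap.id_apply,
      plusLeft_inr, MAlg.mul_def]
    refine at_eq (A := atomsM true) (rhoM ∘L (actM true false).flip ((atomsM false).g b'))
      ((tmkL.flip ((atomsM false).g (.inr (colB b')))) ∘L ContinuousLinearMap.inr ℂ ℂ MAlg ∘L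
        (actM true true).flip ((atomsM true).g b')) (fun b => ?_) a
    simp only [ContinuousLinearMap.comp_apply, ContinuousLinearMap.flip_apply, actM_g,
      ContinuousLinearMap.inr_apply, tmkL_apply]
    cases h : bmul b b' with
    | none =>
      simp only [Atoms.og_none, map_zero]
      rw [show ((0 : ℂ), (0 : MAlg)) = 0 from rfl, tmk_zero_left]
    | some c =>
      simp only [Atoms.og_some, rhoM_g]
      rw [colB_bmul h]
  · exact at_eq (A := atomsM false) (π ∘L rhoM) (.id ℂ _) (fun b => by
        simp only [ContinuousLinearMap.comp_apply, rhoM_g, ContinuousLinearMap.id_apply]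
        rw [hπ2, zero_smul, zero_add, actM_g]
        rcases b with p | l <;> simp [bmul, colB]) x

theorem modP_proj : Proj (IsLeft MAlg) modP :=
  Proj.prod (good_left MAlg) modM'_proj (modI_proj true)

end

end Pool.Agent.Lib.MP_1618a1_an
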