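import Pool.Agent.Lib.MP_1618a1_an.LowRes

/-!
# The maps of the resolution of `X = c₀` are morphisms
-/

set_option autoImplicit false

namespace Pool.Agent.Lib.MP_1618a1_an

noncomputable section

lemma id14 (a : MAlg) (F : SM) (x : SC) : xM (actM true false a F) x =
    actM true false a (xM F x) :=
  at_assoc (actM true false) xM xM (actM true false) (fun b₁ b₂ l => by
    rw [actM_g, xM_g]
    cases h : bmul b₁ b₂ with
    | none =>
      rw [Atoms.og_none, map_zero]
      split_ifs
      · rw [actM_g, h]; rfl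
      · rw [map_zero]; rfl
    | some c =>
      rw [Atoms.og_some, xM_g, colB_bmul h]
      split_ifs
      · rw [actM_g, h]; rfl
      · rw [map_zero]) a F x

lemma id15 (a : MAlg) (f : SI) (x : SC) : xI (actI true false a f) x =
    actI true false a (xI f x) :=
  bil_eq (A := atomsI false) (A' := atomsC) (xI ∘L actI true false a)
    (ContinuousLinearMap.compL ℂ SC SI SI (actI true false a) ∘L xI) (fun p l => by
      change xI (actI true false a ((atomsI false).g p)) (atomsC.g l) =
        actI true false a (xI ((atomsI false).g p) (atomsC.g l))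
      rw [actI_gp, map_smul, xI_g]
      change chI p a • xI ((atomsI false).g p) (atomsC.g l) = _
      rw [xI_g]
      split_ifs
      · rw [actI_gp]
      · rw [smul_zero, map_zero]) f x

lemma id16 (a : MAlg) (g : At (atomsI true)) (y : SL) : gI (actI true true a g) y =
    actI true false a (gI g y) :=
  bil_eq (A := atomsI true) (A' := atomsL) (gI ∘L actI true true a)
    (ContinuousLinearMap.compL ℂ SL SI SI (actI true false a) ∘L gI) (fun p l => by
      change gI (actI true true a ((atomsI true).g p)) (atomsL.g l) =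
        actI true false a (gI ((atomsI true).g p) (atomsL.g l))
      rw [actI_gp, map_smul, gI_g]
      change chI p a • gI ((atomsI true).g p) (atomsL.g l) = _
      rw [gI_g]
      split_ifs
      · rw [actI_gp]
      · rw [smul_zero, map_zero]) g y

/-- the action on `M₊` -/
abbrev pL (a : MAlg) : SP →L[ℂ] SP := plusLeft MAlg a

lemma pL_apply (a : MAlg) (z : ℂ) (b : MAlg) : pL a (z, b) = (0, z • a + actM true true a b) := by
  simp [plusLeft, MAlg.mul_def]

lemma ip_act (a : MAlg) : ip ∘L actP a = pL a ∘L ip := ContinuousLinearMap.ext fun x => by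
  obtain ⟨F, g⟩ := x
  change ip (actM true false a F, actI true true a g) = pL a (ip (F, g))
  rw [ip_apply, ip_apply, pL_apply, zero_smul, zero_add, incM_act, inM_act, map_add]

lemma εC_act (a : MAlg) (u : Ten SP SC) : εC (tmap (pL a) (.id ℂ SC) u) = actC true a (εC u) :=
  ten_eq (εC ∘L tmap (pL a) (.id ℂ SC)) (actC true a ∘L εC) (fun p x => by
    obtain ⟨z, b⟩ := p
    simp only [ContinuousLinearMap.comp_apply, tmap_tmk, ContinuousLinearMap.id_apply, pL_apply,
      εC_tmk, zero_smul, zero_add, map_add, map_smul]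
    change z • actC true a x + actC true (actM true true a b) x = _
    rw [actC_assoc]) u

lemma kap_act (a : MAlg) (v : Ten SP SL) :
    kap (tmap (pL a) (.id ℂ SL) v) = actM true false a (kap v) :=
  ten_eq (kap ∘L tmap (pL a) (.id ℂ SL)) (actM true false a ∘L kap) (fun p y => by
    obtain ⟨z, b⟩ := p
    simp only [ContinuousLinearMap.comp_apply, tmap_tmk, ContinuousLinearMap.id_apply, pL_apply,
      kap_tmk, zero_smul, zero_add, map_add, map_smul]
    change z • actM true false a (secL false y) +
      actM true false (actM true true a b) (secL false y) = _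
    rw [actM_assoc]) v

lemma lam_act (a : MAlg) (u : Ten PS SC) :
    lam (tmap (actP a) (.id ℂ SC) u) = actM true false a (lam u) :=
  ten_eq (lam ∘L tmap (actP a) (.id ℂ SC)) (actM true false a ∘L lam) (fun p x => by
    obtain ⟨F, g⟩ := p
    simp only [ContinuousLinearMap.comp_apply, tmap_tmk, ContinuousLinearMap.id_apply, lam_tmk]
    change lam (tmk (actM true false a F, actI true true a g) x) = _
    rw [lam_tmk, id14]) u

lemma lam'_act (a : MAlg) (w : Ten SI SC) :
    lam' (tmap (actI true false a) (.id ℂ SC) w) = actI true false a (lam' w) :=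
  ten_eq (lam' ∘L tmap (actI true false a) (.id ℂ SC)) (actI true false a ∘L lam') (fun p x => by
    simp only [ContinuousLinearMap.comp_apply, tmap_tmk, ContinuousLinearMap.id_apply, lam'_tmk,
      id15]) w

lemma gam_act (a : MAlg) (v : Ten PS SL) :
    gam (tmap (actP a) (.id ℂ SL) v) = actI true false a (gam v) :=
  ten_eq (gam ∘L tmap (actP a) (.id ℂ SL)) (actI true false a ∘L gam) (fun p y => by
    obtain ⟨F, g⟩ := p
    simp only [ContinuousLinearMap.comp_apply, tmap_tmk, ContinuousLinearMap.id_apply, gam_tmk]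
    change gam (tmk (actM true false a F, actI true true a g) y) = _
    rw [gam_tmk, id16]) v

lemma dε_hom : IsHom Q0 modC dε := fun a x => by
  obtain ⟨u, F⟩ := x
  change dε (tmap (pL a) (.id ℂ SC) u, actM true false a F) = actC true a (dε (u, F))
  rw [dε_apply, dε_apply, εC_act, prL_act, io_act, map_add]

lemma d1_hom : IsHom Q1 Q0 d1 := fun a x => by
  obtain ⟨⟨u, v⟩, f⟩ := x
  change d1 ((tmap (actP a) (.id ℂ SC) u, tmap (pL a) (.id ℂ SL) v), actI true false a f) =
    (((tmap (pL a) (.id ℂ SC)).prodMap (actM true false a)) (d1 ((u, v), f)))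
  rw [d1_apply, d1_apply]
  change _ = (tmap (pL a) (.id ℂ SC) (tmap ip (.id ℂ SC) u + -(tmap (.id ℂ SP) io v)),
    actM true false a (-(lam u) + kap v + inM false f))
  refine Prod.ext ?_ ?_
  · simp only [map_add, map_neg, tmap_comp_apply]
    rw [ip_act]
    rfl
  · simp only [map_add, map_neg, lam_act, kap_act, inM_act]

lemma d2_hom : IsHom Q2 Q1 d2 := fun a x => by
  obtain ⟨w, v⟩ := x
  change d2 (tmap (actI true false a) (.id ℂ SC) w, tmap (actP a) (.id ℂ SL) v) =
    ((((tmap (actP a) (.id ℂ SC)).prodMap (tmap (pL a) (.id ℂ SL))).prodMap (actI true false a))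
      (d2 (w, v)))
  rw [d2_apply, d2_apply]
  change _ = ((tmap (actP a) (.id ℂ SC) (tmap jj (.id ℂ SC) w + tmap (.id ℂ PS) io v),
    tmap (pL a) (.id ℂ SL) (tmap ip (.id ℂ SL) v)), actI true false a (lam' w + -(gam v)))
  have hj : jj ∘L actI true false a = actP a ∘L jj :=
    ContinuousLinearMap.ext fun x => jj_hom a x
  refine Prod.ext (Prod.ext ?_ ?_) ?_
  · simp only [map_add, tmap_comp_apply]
    rw [hj]
    rfl
  · simp only [tmap_comp_apply]
    rw [ip_act]
  · simp only [map_add, map_neg, lam'_act, gam_act]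

lemma d3_hom : IsHom Q3 Q2 d3 := fun a x => by
  change d3 (tmap (actI true false a) (.id ℂ SL) x) =
    (((tmap (actI true false a) (.id ℂ SC)).prodMap (tmap (actP a) (.id ℂ SL))) (d3 x))
  rw [d3_apply, d3_apply]
  change _ = (tmap (actI true false a) (.id ℂ SC) (-(tmap (.id ℂ SI) io x)),
    tmap (actP a) (.id ℂ SL) (tmap jj (.id ℂ SL) x))
  have hj : jj ∘L actI true false a = actP a ∘L jj :=
    ContinuousLinearMap.ext fun x => jj_hom a x
  refine Prod.ext ?_ ?_
  · simp only [map_neg, tmap_comp_apply]
    rfl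
  · simp only [tmap_comp_apply]
    rw [hj]

/-- if `dh X ≤ 2`, the last map of the resolution has a left inverse that is a morphism -/
theorem exists_rho (h : dhLE (IsLeft MAlg) 2 modC) :
    ∃ ρ : V2 →L[ℂ] V3, IsHom Q2 Q3 ρ ∧ ∀ x, ρ (d3 x) = x :=
  split_of_dhLE_two (good_left MAlg) (X := modC) (Q0 := Q0) (Q1 := Q1) (Q2 := Q2) (Q3 := Q3)
    dε_hom d1_hom d2_hom d3_hom ts ts0 ts1 ts2 e1 e2 e3 a0' a0 a1 a2 a3
    (Proj.prod (good_left MAlg) (tenS_proj (plusL_proj MAlg)) modM'_proj)
    (Proj.prod (good_left MAlg) (Proj.prod (good_left MAlg) (tenS_proj modP_proj)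
      (tenS_proj (plusL_proj MAlg))) (modI_proj false))
    ((good_left MAlg).prod _ _ (tenS_left (modI_left false)) (tenS_left modP_proj.1)) h

end

end Pool.Agent.Lib.MP_1618a1_an
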