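import Pool.Agent.Lib.MP_1618a1_an.Upper

/-!
# The resolution of `X = c₀`: the maps and their identities
-/

set_option autoImplicit false

namespace Pool.Agent.Lib.MP_1618a1_an

noncomputable section

/-- `X = c₀` -/
abbrev SC : Type := At atomsC
/-- `L = ℓ¹` -/
abbrev SL : Type := At atomsL
/-- `I'` -/
abbrev SI : Type := At (atomsI false)
/-- `M'` -/
abbrev SM : Type := At (atomsM false)
/-- `M₊` -/
abbrev SP : Type := ℂ × MAlg

/-- the inclusion `L → X` -/
def io : SL →L[ℂ] SC := atLift _ atomsC.g

@[simp] lemma io_g (l : ℕ) : io (atomsL.g l) = atomsC.g l := atLift_g ⟨1, by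
  rintro _ ⟨m, rfl⟩
  exact norm_atom_le (atomsC.single_mem m)⟩ l

/-- `M' × X → M'`, `(b, δ_l) ↦ b` if `b` is in the column `l` -/
def xM : SM →L[ℂ] SC →L[ℂ] SM :=
  oact _ _ _ fun b l => if colB b = l then some b else none

lemma xM_bdd : Bdd₂ (atomsM false) atomsC
    (fun b l => (atomsM false).og (if colB b = l then some b else none)) 1 := by
  have h0 : ∀ (b : BB) (s' : ℕ →₀ ℂ), lc (fun l => (atomsM false).og
      (if colB b = l then some b else none)) s' = s' (colB b) • (atomsM false).g b := by
    intro b s'
    rw [← lc_ite_eq (fun _ => (atomsM false).g b)]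
    congr 1
    funext q
    split_ifs <;> rfl
  rintro _ (⟨t, ht, rfl⟩ | ⟨_, ⟨l, rfl⟩, rfl⟩) s' hs'
  · simp only [h0]
    rw [lc_mapDomain]
    rcases t.support.eq_empty_or_nonempty with he | ⟨q, hq⟩
    · have : t = 0 := by simpa using he
      subst this
      simp [lc]
    · have h1 : lc (fun p : ℕ × ℕ => s' (colB (.inl p)) • (atomsM false).g (.inl p)) t =
          s' q.1 • lc (atomsM false).g (Finsupp.mapDomain Sum.inl t) := by
        rw [lc_mapDomain]
        simp only [lc, Finsupp.linearCombination_apply, Finsupp.sum, Finset.smul_sum]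
        refine Finset.sum_congr rfl fun p hp => ?_
        have : p.1 = q.1 := ht.2 p hp q hq
        rw [colB, this, smul_comm]
      rw [h1, norm_smul]
      calc _ ≤ 1 * 1 := mul_le_mul (Sgn.norm_le hs' _)
            (norm_atom_le (Or.inl ⟨t, ht, rfl⟩)) (norm_nonneg _) zero_le_one
        _ = 1 := one_mul 1
  · simp only [h0]
    rw [lc_mapDomain]
    simp only [lc, Finsupp.linearCombination_single, one_smul, norm_smul]
    calc _ ≤ 1 * 1 := mul_le_mul (Sgn.norm_le hs' _) (norm_g_le _) (norm_nonneg _) zero_le_one
      _ = 1 := one_mul 1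

@[simp] lemma xM_g (b : BB) (l : ℕ) : xM ((atomsM false).g b) (atomsC.g l) =
    if colB b = l then (atomsM false).g b else 0 := by
  rw [xM, oact, atLift₂_g zero_le_one xM_bdd]
  split_ifs <;> rfl

/-- `I' × X → I'` -/
def xI : SI →L[ℂ] SC →L[ℂ] SI :=
  oact _ _ _ fun p l => if p.1 = l then some p else none

lemma xI_bdd : Bdd₂ (atomsI false) atomsC
    (fun p l => (atomsI false).og (if p.1 = l then some p else none)) 1 := by
  have h0 : ∀ (p : ℕ × ℕ) (s' : ℕ →₀ ℂ), lc (fun l => (atomsI false).og
      (if p.1 = l then some p else none)) s' = s' p.1 • (atomsI false).g p := by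
    intro b s'
    rw [← lc_ite_eq (fun _ => (atomsI false).g b)]
    congr 1
    funext q
    split_ifs <;> rfl
  rintro t ht s' hs'
  simp only [h0]
  rcases t.support.eq_empty_or_nonempty with he | ⟨q, hq⟩
  · have : t = 0 := by simpa using he
    subst this
    simp [lc]
  · have h1 : lc (fun p : ℕ × ℕ => s' p.1 • (atomsI false).g p) t =
        s' q.1 • lc (atomsI false).g t := by
      simp only [lc, Finsupp.linearCombination_apply, Finsupp.sum, Finset.smul_sum]
      refine Finset.sum_congr rfl fun p hp => ?_
      have : p.1 = q.1 := ht.2 p hp q hq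
      rw [this, smul_comm]
    rw [h1, norm_smul]
    calc _ ≤ 1 * 1 := mul_le_mul (Sgn.norm_le hs' _)
          (norm_atom_le ht) (norm_nonneg _) zero_le_one
      _ = 1 := one_mul 1

@[simp] lemma xI_g (p : ℕ × ℕ) (l : ℕ) : xI ((atomsI false).g p) (atomsC.g l) =
    if p.1 = l then (atomsI false).g p else 0 := by
  rw [xI, oact, atLift₂_g zero_le_one xI_bdd]
  split_ifs <;> rfl

/-- `I × L → I'`, `(g, δ_l) ↦ g e_l` -/
def gI : At (atomsI true) →L[ℂ] SL →L[ℂ] SI :=
  oact _ _ _ fun p l => if p.1 = l then some p else none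

lemma gI_bdd : Bdd₂ (atomsI true) atomsL
    (fun p l => (atomsI false).og (if p.1 = l then some p else none)) 1 := by
  rintro t ht _ ⟨l, rfl⟩
  simp only [lc, Finsupp.linearCombination_single, one_smul]
  change ‖lc (fun p => (atomsI false).og (if p.1 = l then some p else none)) t‖ ≤ 1
  have h : lc (fun p => (atomsI false).og (if p.1 = l then some p else none)) t =
      lc (atomsI false).g (t.filter (fun p => p.1 = l)) := by
    rw [← lc_filter]
    congr 1
    funext q
    split_ifs <;> rfl
  rw [h]
  exact norm_atom_le (atomsI_filter_col ht l)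

@[simp] lemma gI_g (p : ℕ × ℕ) (l : ℕ) : gI ((atomsI true).g p) (atomsL.g l) =
    if p.1 = l then (atomsI false).g p else 0 := by
  rw [gI, oact, atLift₂_g zero_le_one gI_bdd]
  split_ifs <;> rfl

/-- `M × X → L` -/
def mM : MAlg →L[ℂ] SC →L[ℂ] SL := oact _ _ _ bactL

lemma mM_bdd : Bdd₂ (atomsM true) atomsC (fun b b' => atomsL.og (bactL b b')) 1 := by
  rintro _ (⟨t, ht, rfl⟩ | ⟨_, ⟨l, rfl⟩, rfl⟩) s hs
  · rw [lc_mapDomain]
    simp [lc, Finsupp.linearCombination_apply, bactL]
  · rw [lc_mapDomain]
    simp only [lc, Finsupp.linearCombination_single, one_smul]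
    change ‖lc (fun b' => atomsL.og (bactL (.inr l) b')) s‖ ≤ 1
    have h : lc (fun b' => atomsL.og (bactL (.inr l) b')) s = s l • atomsL.g l := by
      rw [← lc_ite_eq]
      congr 1
      funext q
      simp only [bactL]
      split_ifs <;> rfl
    rw [h, norm_smul]
    calc _ ≤ 1 * 1 := mul_le_mul (Sgn.norm_le hs _) (norm_g_le _) (norm_nonneg _) zero_le_one
      _ = 1 := one_mul 1

@[simp] lemma mM_g (b : BB) (l : ℕ) : mM ((atomsM true).g b) (atomsC.g l) =
    atomsL.og (bactL b l) := atLift₂_g zero_le_one mM_bdd b l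

/-- the action of `M₊` given by an action of `M` -/
def plusAct {V : Type} [NormedAddCommGroup V] [NormedSpace ℂ V] (β : MAlg →L[ℂ] V →L[ℂ] V) :
    SP →L[ℂ] V →L[ℂ] V :=
  (ContinuousLinearMap.toSpanSingleton ℂ (.id ℂ V)).coprod β

lemma plusAct_apply {V : Type} [NormedAddCommGroup V] [NormedSpace ℂ V]
    (β : MAlg →L[ℂ] V →L[ℂ] V) (z : ℂ) (a : MAlg) (x : V) :
    plusAct β (z, a) x = z • x + β a x := by
  rw [plusAct, ContinuousLinearMap.coprod_apply]
  rfl

/-- `M₊ ⊗ X → X` -/
def εC : Ten SP SC →L[ℂ] SC := tlift (plusAct (actC true))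

lemma εC_tmk (z : ℂ) (a : MAlg) (x : SC) : εC (tmk (z, a) x) = z • x + actC true a x := by
  rw [εC, tlift_tmk, plusAct_apply]

/-- `P₁ ⊗ X → M'` -/
def lam : Ten PS SC →L[ℂ] SM := tlift (xM ∘L ContinuousLinearMap.fst ℂ _ _)

lemma lam_tmk (F : SM) (g : At (atomsI true)) (x : SC) : lam (tmk (F, g) x) = xM F x := by
  rw [lam, tlift_tmk]; rfl

/-- `I' ⊗ X → I'` -/
def lam' : Ten SI SC →L[ℂ] SI := tlift xI

lemma lam'_tmk (f : SI) (x : SC) : lam' (tmk f x) = xI f x := by rw [lam', tlift_tmk]

/-- `M₊ ⊗ L → M'` -/
def kap : Ten SP SL →L[ℂ] SM :=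
  tlift ((ContinuousLinearMap.compL ℂ SL SM SM).flip (secL false) ∘L plusAct (actM true false))

lemma kap_tmk (z : ℂ) (a : MAlg) (y : SL) :
    kap (tmk (z, a) y) = z • secL false y + actM true false a (secL false y) := by
  rw [kap, tlift_tmk]
  exact plusAct_apply _ z a _

/-- `P₁ ⊗ L → I'` -/
def gam : Ten PS SL →L[ℂ] SI := tlift (gI ∘L ContinuousLinearMap.snd ℂ _ _)

lemma gam_tmk (F : SM) (g : At (atomsI true)) (y : SL) : gam (tmk (F, g) y) = gI g y := by
  rw [gam, tlift_tmk]; rfl

/-- `M₊ ⊗ X → L` -/
def mu : Ten SP SC →L[ℂ] SL := tlift (mM ∘L ContinuousLinearMap.snd ℂ _ _)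

lemma mu_tmk (z : ℂ) (a : MAlg) (x : SC) : mu (tmk (z, a) x) = mM a x := by
  rw [mu, tlift_tmk]; rfl

/-- bilinear identities can be checked on the bases -/
lemma bil_eq {B B' G : Type} {A : Atoms B} {A' : Atoms B'} [NormedAddCommGroup G]
    [NormedSpace ℂ G] (f g : At A →L[ℂ] At A' →L[ℂ] G)
    (h : ∀ b b', f (A.g b) (A'.g b') = g (A.g b) (A'.g b')) (x : At A) (y : At A') :
    f x y = g x y := by
  have : f = g := gen_ext fun b => gen_ext fun b' => h b b'
  rw [this]

/-! ### elementary identities -/

lemma io_act (a : MAlg) (y : SL) : io (actL true a y) = actC true a (io y) :=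
  hom_of_basis (actL true) (actC true) io (fun b l => by
    rw [actL_g, io_g, actC_g]; cases bactL b l <;> simp) a y

lemma retI_inM (k : Bool) (x : At (atomsI k)) : retI k (inM k x) = x :=
  at_eq (retI k ∘L inM k) (.id ℂ _) (fun b => by simp) x

lemma prL_inM (k : Bool) (x : At (atomsI k)) : prL k (inM k x) = 0 :=
  at_eq (prL k ∘L inM k) 0 (fun b => by simp) x

lemma prL_secL (k : Bool) (x : SL) : prL k (secL k x) = x :=
  at_eq (prL k ∘L secL k) (.id ℂ _) (fun b => by simp) x

lemma inM_retI_add (k : Bool) (x : At (atomsM k)) : inM k (retI k x) + secL k (prL k x) = x :=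
  at_eq (inM k ∘L retI k + secL k ∘L prL k) (.id ℂ _) (fun b => by rcases b with p | l <;> simp) x

/-- identity 1 -/
lemma id1 (F : SM) (x : SC) : actC true (incM false F) x = io (prL false (xM F x)) :=
  bil_eq (A := atomsM false) (A' := atomsC) (actC true ∘L incM false)
    (ContinuousLinearMap.compL ℂ SC SM SC (io ∘L prL false) ∘L xM) (fun b l => by
      change actC true (incM false ((atomsM false).g b)) (atomsC.g l) =
        io (prL false (xM ((atomsM false).g b) (atomsC.g l)))
      rw [incM_g, actC_g, xM_g]
      rcases b with p | m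
      · simp only [bactL, colB]; split_ifs <;> simp
      · simp only [bactL, colB]; split_ifs with h
        · subst h; simp
        · simp) F x

lemma id2 (g : At (atomsI true)) (x : SC) : actC true (inM true g) x = 0 :=
  bil_eq (A := atomsI true) (A' := atomsC) (actC true ∘L inM true) 0 (fun b l => by
      change actC true (inM true ((atomsI true).g b)) (atomsC.g l) = 0
      rw [inM_g, actC_g]; rfl) g x

lemma id3 (f : SI) (x : SC) : xM (inM false f) x = inM false (xI f x) :=
  bil_eq (A := atomsI false) (A' := atomsC) (xM ∘L inM false) (ContinuousLinearMap.compL ℂ SC SI SM (inM false) ∘L xI)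
    (fun b l => by
      change xM (inM false ((atomsI false).g b)) (atomsC.g l) =
        inM false (xI ((atomsI false).g b) (atomsC.g l))
      rw [inM_g, xM_g, xI_g]
      simp only [colB]; split_ifs <;> simp) f x

lemma id4 (F : SM) (y : SL) : actM true false (incM false F) (secL false y) = xM F (io y) :=
  bil_eq (A := atomsM false) (A' := atomsL) ((ContinuousLinearMap.compL ℂ SL SM SM).flip (secL false) ∘L actM true false ∘L
      incM false) ((ContinuousLinearMap.compL ℂ SL SC SM).flip io ∘L xM) (fun b l => by
      change actM true false (incM false ((atomsM false).g b)) (secL false (atomsL.g l)) =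
        xM ((atomsM false).g b) (io (atomsL.g l))
      rw [incM_g, secL_g, actM_g, io_g, xM_g]
      rcases b with p | m
      · simp only [bmul, colB]; split_ifs <;> rfl
      · simp only [bmul, colB]
        split_ifs with h
        · subst h; rfl
        · rfl) F y

lemma id5 (g : At (atomsI true)) (y : SL) :
    actM true false (inM true g) (secL false y) = inM false (gI g y) :=
  bil_eq (A := atomsI true) (A' := atomsL) ((ContinuousLinearMap.compL ℂ SL SM SM).flip (secL false) ∘L actM true false ∘L
      inM true) (ContinuousLinearMap.compL ℂ SL SI SM (inM false) ∘L gI) (fun b l => by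
      change actM true false (inM true ((atomsI true).g b)) (secL false (atomsL.g l)) =
        inM false (gI ((atomsI true).g b) (atomsL.g l))
      rw [inM_g, secL_g, actM_g, gI_g]
      simp only [bmul]; split_ifs <;> simp) g y

lemma id6 (f : SI) (y : SL) : gI (incI false f) y = xI f (io y) :=
  bil_eq (A := atomsI false) (A' := atomsL) (gI ∘L incI false) ((ContinuousLinearMap.compL ℂ SL SC SI).flip io ∘L xI) (fun b l => by
      change gI (incI false ((atomsI false).g b)) (atomsL.g l) =
        xI ((atomsI false).g b) (io (atomsL.g l))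
      rw [incI_g, gI_g, io_g, xI_g]) f y

lemma id7 (a : MAlg) (x : SC) : io (mM a x) = actC true a x :=
  bil_eq (A := atomsM true) (A' := atomsC) (ContinuousLinearMap.compL ℂ SC SL SC io ∘L mM) (actC true) (fun b l => by
      change io (mM ((atomsM true).g b) (atomsC.g l)) = _
      rw [mM_g, actC_g]; cases bactL b l <;> simp) a x

lemma id8 (a : MAlg) (x : SC) : xM (secL false (prL true a)) x = secL false (mM a x) :=
  bil_eq (A := atomsM true) (A' := atomsC) (xM ∘L secL false ∘L prL true) (ContinuousLinearMap.compL ℂ SC SL SM (secL false) ∘L mM)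
    (fun b l => by
      change xM (secL false (prL true ((atomsM true).g b))) (atomsC.g l) =
        secL false (mM ((atomsM true).g b) (atomsC.g l))
      rw [mM_g]
      rcases b with p | m
      · simp [bactL]
      · rw [prL_inr, secL_g, xM_g]
        simp only [bactL, colB]
        split_ifs with h
        · subst h; simp
        · simp) a x

lemma id9 (F : SM) (x : SC) : mM (incM false F) x = prL false (xM F x) :=
  bil_eq (A := atomsM false) (A' := atomsC) (mM ∘L incM false)
    (ContinuousLinearMap.compL ℂ SC SM SL (prL false) ∘L xM) (fun b l => by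
      change mM (incM false ((atomsM false).g b)) (atomsC.g l) =
        prL false (xM ((atomsM false).g b) (atomsC.g l))
      rw [incM_g, mM_g, xM_g]
      rcases b with p | m
      · simp only [bactL, colB]; split_ifs <;> simp
      · simp only [bactL, colB]; split_ifs with h
        · subst h; simp
        · simp) F x

lemma id10 (g : At (atomsI true)) (x : SC) : mM (inM true g) x = 0 :=
  bil_eq (A := atomsI true) (A' := atomsC) (mM ∘L inM true) 0 (fun b l => by
      change mM (inM true ((atomsI true).g b)) (atomsC.g l) = 0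
      rw [inM_g, mM_g]; rfl) g x

lemma id11 (F : SM) (x : SC) : retI false (xM F x) = xI (retI false F) x :=
  bil_eq (A := atomsM false) (A' := atomsC) (ContinuousLinearMap.compL ℂ SC SM SI (retI false) ∘L xM) (xI ∘L retI false)
    (fun b l => by
      change retI false (xM ((atomsM false).g b) (atomsC.g l)) =
        xI (retI false ((atomsM false).g b)) (atomsC.g l)
      rw [xM_g]
      rcases b with p | m
      · rw [retI_inl, xI_g]; simp only [colB]; split_ifs <;> simp
      · rw [retI_inr, map_zero]; split_ifs <;> simp) F x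

lemma id12 (a : MAlg) (y : SL) : mM a (io y) = actL true a y :=
  bil_eq (A := atomsM true) (A' := atomsL) ((ContinuousLinearMap.compL ℂ SL SC SL).flip io ∘L mM) (actL true) (fun b l => by
      change mM ((atomsM true).g b) (io (atomsL.g l)) = _
      rw [io_g, mM_g, actL_g]) a y

lemma id13 (a : MAlg) (y : SL) :
    retI false (actM true false a (secL false y)) = gI (retI true a) y :=
  bil_eq (A := atomsM true) (A' := atomsL) (ContinuousLinearMap.compL ℂ SL SM SI (retI false) ∘L
      (ContinuousLinearMap.compL ℂ SL SM SM).flip (secL false) ∘L actM true false)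
    (gI ∘L retI true) (fun b l => by
      change retI false (actM true false ((atomsM true).g b) (secL false (atomsL.g l))) =
        gI (retI true ((atomsM true).g b)) (atomsL.g l)
      rw [secL_g, actM_g]
      rcases b with p | m
      · rw [retI_inl, gI_g]; simp only [bmul]; split_ifs <;> simp
      · rw [retI_inr, map_zero]; simp only [bmul]; split_ifs <;> simp) a y

end

end Pool.Agent.Lib.MP_1618a1_an
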