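import Pool.Agent.Lib.MP_1618a1_an.Fam

/-!
# The final counting argument of the lower bound
-/

set_option autoImplicit false

namespace Pool.Agent.Lib.MP_1618a1_an

/-- the contradiction -/
theorem low_num (T1 T2 T3 : ℕ × ℕ → ℕ → ℝ) (C : ℝ)
    (h0 : ∀ p k, 1 = -T3 p k + T1 p k - T2 p k)
    (h1 : ∀ l k, ∀ ε : ℝ, 0 < ε → {i : ℕ | ε ≤ |T1 (l, i) k|}.Finite)
    (h2 : ∀ (G : Finset (ℕ × ℕ)) (k : ℕ), Adm true G → (∀ p ∈ G, ∀ q ∈ G, p.1 = q.1 → p = q) →
      ∑ p ∈ G, |T2 p k| ≤ C)
    (h3 : ∀ p N, ∑ k ∈ Finset.range N, |T3 p k| ≤ C) : False := by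
  obtain ⟨N, hN⟩ := exists_nat_gt (C + 2)
  have hC : 0 ≤ C := by
    have := h3 (0, 0) 0
    simpa using this
  have hNpos : (0 : ℝ) < N := by linarith
  -- in every column there is a point with large `∑ |T2|`
  have step : ∀ l : ℕ, ∃ i : ℕ, l ≤ i ∧ 1 ≤ ∑ k ∈ Finset.range N, |T2 (l, i) k| := by
    intro l
    have hfin : (⋃ k ∈ Finset.range N, {i : ℕ | (1 / N : ℝ) ≤ |T1 (l, i) k|}).Finite := by
      refine Set.Finite.biUnion (Finset.finite_toSet _) fun k _ => h1 l k _ (by positivity)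
    obtain ⟨M, hM⟩ := hfin.bddAbove
    refine ⟨max l (M + 1), le_max_left _ _, ?_⟩
    set i := max l (M + 1) with hi
    have hsmall : ∀ k ∈ Finset.range N, |T1 (l, i) k| ≤ 1 / N := by
      intro k hk
      by_contra hcon
      have : i ≤ M := hM (Set.mem_biUnion hk (le_of_lt (not_le.1 hcon)))
      have h2 : M + 1 ≤ i := le_max_right _ _
      omega
    have hs : ∑ k ∈ Finset.range N, |T1 (l, i) k| ≤ 1 := by
      calc _ ≤ ∑ _k ∈ Finset.range N, (1 / N : ℝ) := Finset.sum_le_sum hsmall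
        _ = 1 := by
          rw [Finset.sum_const, Finset.card_range, nsmul_eq_mul]
          field_simp
    have hpt : ∀ k ∈ Finset.range N, (1 : ℝ) ≤ |T3 (l, i) k| + |T1 (l, i) k| + |T2 (l, i) k| := by
      intro k _
      have := h0 (l, i) k
      have a1 := neg_abs_le (T3 (l, i) k)
      have a2 := le_abs_self (T1 (l, i) k)
      have a3 := neg_abs_le (T2 (l, i) k)
      linarith
    have hsum := Finset.sum_le_sum hpt
    rw [Finset.sum_add_distrib, Finset.sum_add_distrib] at hsum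
    simp only [Finset.sum_const, Finset.card_range, nsmul_eq_mul, mul_one] at hsum
    have := h3 (l, i) N
    linarith
  choose f hf1 hf2 using step
  -- the columns
  let col : ℕ → ℕ := fun j => Nat.rec 0 (fun _ l => f l + 1) j
  have hcol : ∀ j, col (j + 1) = f (col j) + 1 := fun j => rfl
  have hmono : StrictMono col := strictMono_nat_of_lt_succ fun j => by
    rw [hcol]
    have := hf1 (col j)
    omega
  have hinj : Function.Injective fun j => ((col j, f (col j)) : ℕ × ℕ) := fun a b hab => by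
    have := congrArg Prod.fst hab
    exact hmono.injective this
  obtain ⟨m, hm⟩ := exists_nat_gt (N * C)
  let G : Finset (ℕ × ℕ) := (Finset.range m).map ⟨_, hinj⟩
  have hG : ∀ p ∈ G, ∃ j, p = (col j, f (col j)) := by
    intro p hp
    obtain ⟨j, _, rfl⟩ := Finset.mem_map.1 hp
    exact ⟨j, rfl⟩
  have hadm : Adm true G := by
    intro p hp q hq hpq
    obtain ⟨a, rfl⟩ := hG p hp
    obtain ⟨b, rfl⟩ := hG q hq
    have hab : a < b := hmono.lt_iff_lt.1 hpq
    have h4 : col (a + 1) ≤ col b := hmono.monotone hab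
    rw [hcol] at h4
    change f (col a) < col b
    omega
  have hdist : ∀ p ∈ G, ∀ q ∈ G, p.1 = q.1 → p = q := by
    intro p hp q hq hpq
    obtain ⟨a, rfl⟩ := hG p hp
    obtain ⟨b, rfl⟩ := hG q hq
    have hab : a = b := hmono.injective hpq
    rw [hab]
  have hub : ∑ k ∈ Finset.range N, ∑ p ∈ G, |T2 p k| ≤ N * C := by
    calc _ ≤ ∑ _k ∈ Finset.range N, C := Finset.sum_le_sum fun k _ => h2 G k hadm hdist
      _ = N * C := by rw [Finset.sum_const, Finset.card_range, nsmul_eq_mul]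
  rw [Finset.sum_comm] at hub
  have hlb : (m : ℝ) ≤ ∑ p ∈ G, ∑ k ∈ Finset.range N, |T2 p k| := by
    calc (m : ℝ) = ∑ _p ∈ G, (1 : ℝ) := by
          rw [Finset.sum_const, Finset.card_map, Finset.card_range]; simp
      _ ≤ _ := Finset.sum_le_sum fun p hp => by
          obtain ⟨a, rfl⟩ := hG p hp
          exact hf2 (col a)
  linarith

end Pool.Agent.Lib.MP_1618a1_an
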