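import Pool.Agent.Lib.MP_1618a1_an.LowMaps

/-!
# The resolution of `X = c₀` of length `3`
-/

set_option autoImplicit false

namespace Pool.Agent.Lib.MP_1618a1_an

noncomputable section

/-- `P₁ → M₊` -/
def ip : PS →L[ℂ] SP := ContinuousLinearMap.inr ℂ ℂ MAlg ∘L pp
/-- `M₊ → P₁` -/
def sp : SP →L[ℂ] PS := ss ∘L ContinuousLinearMap.snd ℂ ℂ MAlg

lemma ip_apply (F : SM) (g : At (atomsI true)) : ip (F, g) = (0, incM false F + inM true g) := rfl
lemma sp_apply (z : ℂ) (a : MAlg) : sp (z, a) = (secL false (prL true a), retI true a) := rfl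

lemma tt_jj (x : SI) : tt (jj x) = x := at_eq (tt ∘L jj) (.id ℂ _) (fun b => by
  simp [jj_apply, tt_apply]) x

lemma pp_jj (x : SI) : pp (jj x) = 0 := at_eq (pp ∘L jj) 0 (fun b => by
  simp [jj_apply, pp_apply]) x

lemma pp_ss (x : MAlg) : pp (ss x) = x := at_eq (pp ∘L ss) (.id ℂ _) (fun b => by
  rcases b with p | l <;> simp [ss_apply, pp_apply]) x

lemma jj_tt (x : PS) : jj (tt x) + ss (pp x) = x := by
  obtain ⟨x, y⟩ := x
  have h1 := at_eq (inM false ∘L retI false + secL false ∘L prL true ∘L incM false)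
    (.id ℂ _) (fun b => by rcases b with p | l <;> simp) x
  have h2 := at_eq (secL false ∘L prL true ∘L inM true) 0 (fun b => by simp) y
  have h3 := at_eq (-(incI false ∘L retI false) + retI true ∘L incM false)
    0 (fun b => by rcases b with p | l <;> simp) x
  have h4 := at_eq (retI true ∘L inM true) (.id ℂ _) (fun b => by simp) y
  simp only [add_apply, ContinuousLinearMap.comp_apply, ContinuousLinearMap.id_apply,
    zero_apply, neg_apply] at h1 h2 h3 h4
  rw [tt_apply, jj_apply, pp_apply, ss_apply]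
  simp only [map_add, Prod.mk_add_mk, h2, h4, add_zero]
  rw [h1, ← add_assoc, h3, zero_add]

lemma ip_jj : ip ∘L jj = 0 := ContinuousLinearMap.ext fun x => by
  change ((0 : ℂ), pp (jj x)) = 0
  rw [pp_jj]; rfl

lemma sp_ip : sp ∘L ip = ss ∘L pp := rfl

lemma ip_sp : ip ∘L sp = ContinuousLinearMap.inr ℂ ℂ MAlg ∘L ContinuousLinearMap.snd ℂ ℂ MAlg :=
  ContinuousLinearMap.ext fun x => by
    change ((0 : ℂ), pp (ss x.2)) = (0, x.2)
    rw [pp_ss]

/-! ### the terms -/

/-- `Q₀ = M₊ ⊗ X × M'` -/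
abbrev Q0 : OpMod MAlg := prodMod (tenS (plusL MAlg) SC) (modM false)
/-- `Q₁ = P₁ ⊗ X × M₊ ⊗ L × I'` -/
abbrev Q1 : OpMod MAlg := prodMod (prodMod (tenS modP SC) (tenS (plusL MAlg) SL)) (modI false)
/-- `Q₂ = I' ⊗ X × P₁ ⊗ L` -/
abbrev Q2 : OpMod MAlg := prodMod (tenS (modI false) SC) (tenS modP SL)
/-- `Q₃ = I' ⊗ L` -/
abbrev Q3 : OpMod MAlg := tenS (modI false) SL

abbrev V0 : Type := Ten SP SC × SM
abbrev V1 : Type := (Ten PS SC × Ten SP SL) × SI
abbrev V2 : Type := Ten SI SC × Ten PS SL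
abbrev V3 : Type := Ten SI SL

/-! ### the maps -/

def dε : V0 →L[ℂ] SC := εC.coprod (io ∘L prL false)

def d1 : V1 →L[ℂ] V0 :=
  (((tmap ip (.id ℂ SC)).coprod (-(tmap (.id ℂ SP) io))) ∘L ContinuousLinearMap.fst ℂ _ _).prod
    (((-lam).coprod kap).coprod (inM false))

def d2 : V2 →L[ℂ] V1 :=
  (((tmap jj (.id ℂ SC)).coprod (tmap (.id ℂ PS) io)).prod
    (tmap ip (.id ℂ SL) ∘L ContinuousLinearMap.snd ℂ _ _)).prod (lam'.coprod (-gam))

def d3 : V3 →L[ℂ] V2 := (-(tmap (.id ℂ SI) io)).prod (tmap jj (.id ℂ SL))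

/-- `x ↦ 1 ⊗ x` -/
def unitT (E : Type) [NormedAddCommGroup E] [NormedSpace ℂ E] : E →L[ℂ] Ten SP E :=
  tmkL ((1 : ℂ), (0 : MAlg))

lemma unitT_apply {E : Type} [NormedAddCommGroup E] [NormedSpace ℂ E] (x : E) :
    unitT E x = tmk ((1 : ℂ), (0 : MAlg)) x := rfl

def ts : SC →L[ℂ] V0 := (unitT SC).prod 0

def ts0 : V0 →L[ℂ] V1 :=
  ((tmap sp (.id ℂ SC) ∘L ContinuousLinearMap.fst ℂ _ _).prod
    (unitT SL ∘L (mu.coprod (prL false)))).prod (retI false ∘L ContinuousLinearMap.snd ℂ _ _)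

def ts1 : V1 →L[ℂ] V2 :=
  ((tmap tt (.id ℂ SC)).prodMap (tmap sp (.id ℂ SL))) ∘L ContinuousLinearMap.fst ℂ _ _

def ts2 : V2 →L[ℂ] V3 := tmap tt (.id ℂ SL) ∘L ContinuousLinearMap.snd ℂ _ _

lemma dε_apply (u : Ten SP SC) (F : SM) : dε (u, F) = εC u + io (prL false F) := rfl

lemma d1_apply (u : Ten PS SC) (v : Ten SP SL) (f : SI) : d1 ((u, v), f) =
    (tmap ip (.id ℂ SC) u + -(tmap (.id ℂ SP) io v), -(lam u) + kap v + inM false f) := rfl

lemma d2_apply (w : Ten SI SC) (v : Ten PS SL) : d2 (w, v) =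
    ((tmap jj (.id ℂ SC) w + tmap (.id ℂ PS) io v, tmap ip (.id ℂ SL) v), lam' w + -(gam v)) := rfl

lemma d3_apply (z : Ten SI SL) : d3 z = (-(tmap (.id ℂ SI) io z), tmap jj (.id ℂ SL) z) := rfl

lemma ts_apply (x : SC) : ts x = (unitT SC x, 0) := rfl

lemma ts0_apply (u : Ten SP SC) (F : SM) : ts0 (u, F) =
    ((tmap sp (.id ℂ SC) u, unitT SL (mu u + prL false F)), retI false F) := rfl

lemma ts1_apply (u : Ten PS SC) (v : Ten SP SL) (f : SI) : ts1 ((u, v), f) =
    (tmap tt (.id ℂ SC) u, tmap sp (.id ℂ SL) v) := rfl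

lemma ts2_apply (w : Ten SI SC) (v : Ten PS SL) : ts2 (w, v) = tmap tt (.id ℂ SL) v := rfl

/-- equality of two linear maps at a tensor -/
lemma ten_eq {E F G : Type} [NormedAddCommGroup E] [NormedSpace ℂ E] [NormedAddCommGroup F]
    [NormedSpace ℂ F] [NormedAddCommGroup G] [NormedSpace ℂ G] (f g : Ten E F →L[ℂ] G)
    (h : ∀ x y, f (tmk x y) = g (tmk x y)) (u : Ten E F) : f u = g u := by
  rw [ten_ext h]

/-! ### the complex -/

lemma e1 (x : V1) : dε (d1 x) = 0 := by
  obtain ⟨⟨u, v⟩, f⟩ := x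
  rw [d1_apply, dε_apply]
  have h1 : εC (tmap ip (.id ℂ SC) u) = io (prL false (lam u)) :=
    ten_eq (εC ∘L tmap ip (.id ℂ SC)) (io ∘L prL false ∘L lam) (fun p x => by
      obtain ⟨F, g⟩ := p
      simp only [ContinuousLinearMap.comp_apply, tmap_tmk, ContinuousLinearMap.id_apply, ip_apply,
        εC_tmk, zero_smul, zero_add, map_add, lam_tmk]
      change actC true (incM false F) x + actC true (inM true g) x = _
      rw [id1, id2, add_zero]) u
  have h2 : εC (tmap (.id ℂ SP) io v) = io (prL false (kap v)) :=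
    ten_eq (εC ∘L tmap (.id ℂ SP) io) (io ∘L prL false ∘L kap) (fun p y => by
      obtain ⟨z, a⟩ := p
      simp only [ContinuousLinearMap.comp_apply, tmap_tmk, ContinuousLinearMap.id_apply,
        εC_tmk, map_add, map_smul, kap_tmk, prL_secL]
      rw [prL_act, prL_secL, io_act]) v
  simp only [map_add, map_neg, h1, h2, prL_inM, map_zero]
  abel

lemma e2 (x : V2) : d1 (d2 x) = 0 := by
  obtain ⟨w, v⟩ := x
  rw [d2_apply, d1_apply]
  have h1 : tmap ip (.id ℂ SC) (tmap jj (.id ℂ SC) w) = 0 := by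
    rw [tmap_comp_apply, ip_jj, tmap_zero_left]; rfl
  have h2 : tmap ip (.id ℂ SC) (tmap (.id ℂ PS) io v) =
      tmap (.id ℂ SP) io (tmap ip (.id ℂ SL) v) := by
    rw [tmap_comp_apply, tmap_comp_apply]; rfl
  have h3 : lam (tmap jj (.id ℂ SC) w) = inM false (lam' w) :=
    ten_eq (lam ∘L tmap jj (.id ℂ SC)) (inM false ∘L lam') (fun f x => by
      simp only [ContinuousLinearMap.comp_apply, tmap_tmk, ContinuousLinearMap.id_apply, jj_apply,
        lam_tmk, lam'_tmk, id3]) w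
  have h4 : kap (tmap ip (.id ℂ SL) v) = lam (tmap (.id ℂ PS) io v) + inM false (gam v) :=
    ten_eq (kap ∘L tmap ip (.id ℂ SL)) (lam ∘L tmap (.id ℂ PS) io + inM false ∘L gam)
      (fun p y => by
      obtain ⟨F, g⟩ := p
      simp only [ContinuousLinearMap.comp_apply, tmap_tmk, ContinuousLinearMap.id_apply, ip_apply,
        lam_tmk, kap_tmk, gam_tmk, add_apply, zero_smul, zero_add, map_add, id4, id5]) v
  refine Prod.ext ?_ ?_
  · simp only [map_add, h1, h2]
    change (0 : Ten SP SC) + tmap (.id ℂ SP) io (tmap ip (.id ℂ SL) v) +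
      -(tmap (.id ℂ SP) io (tmap ip (.id ℂ SL) v)) = 0
    abel
  · simp only [map_add, map_neg, h3, h4]
    change -(inM false (lam' w) + lam (tmap (.id ℂ PS) io v)) +
      (lam (tmap (.id ℂ PS) io v) + inM false (gam v)) +
      (inM false (lam' w) + -(inM false (gam v))) = 0
    abel

lemma e3 (x : V3) : d2 (d3 x) = 0 := by
  rw [d3_apply, d2_apply]
  have h1 : tmap (.id ℂ PS) io (tmap jj (.id ℂ SL) x) =
      tmap jj (.id ℂ SC) (tmap (.id ℂ SI) io x) := by
    rw [tmap_comp_apply, tmap_comp_apply]; rfl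
  have h2 : tmap ip (.id ℂ SL) (tmap jj (.id ℂ SL) x) = 0 := by
    rw [tmap_comp_apply, ip_jj, tmap_zero_left]; rfl
  have h3 : gam (tmap jj (.id ℂ SL) x) = - lam' (tmap (.id ℂ SI) io x) :=
    ten_eq (gam ∘L tmap jj (.id ℂ SL)) (-(lam' ∘L tmap (.id ℂ SI) io)) (fun f y => by
      simp only [ContinuousLinearMap.comp_apply, tmap_tmk, ContinuousLinearMap.id_apply, jj_apply,
        lam'_tmk, gam_tmk, neg_apply, map_neg, id6]) x
  refine Prod.ext (Prod.ext ?_ ?_) ?_
  · simp only [map_neg, h1]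
    change -(tmap jj (.id ℂ SC) (tmap (.id ℂ SI) io x)) +
      tmap jj (.id ℂ SC) (tmap (.id ℂ SI) io x) = 0
    abel
  · exact h2
  · simp only [map_neg, h3]
    change -(lam' (tmap (.id ℂ SI) io x)) + - -(lam' (tmap (.id ℂ SI) io x)) = 0
    abel

lemma a0' (x : SC) : dε (ts x) = x := by
  rw [ts_apply, dε_apply, unitT_apply, εC_tmk]
  simp

lemma a0 (x : V0) : ts (dε x) + d1 (ts0 x) = x := by
  obtain ⟨u, F⟩ := x
  rw [dε_apply, ts_apply, ts0_apply, d1_apply]
  have h1 : unitT SC (εC u) + (tmap ip (.id ℂ SC) (tmap sp (.id ℂ SC) u)) =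
      u + tmap (.id ℂ SP) io (unitT SL (mu u)) :=
    ten_eq (unitT SC ∘L εC + tmap ip (.id ℂ SC) ∘L tmap sp (.id ℂ SC))
      (ContinuousLinearMap.id ℂ (Ten SP SC) + tmap (.id ℂ SP) io ∘L unitT SL ∘L mu) (fun p x => by
      obtain ⟨z, a⟩ := p
      simp only [ContinuousLinearMap.comp_apply, tmap_tmk, ContinuousLinearMap.id_apply,
        add_apply, unitT_apply, εC_tmk, mu_tmk, id7]
      have h : ip (sp (z, a)) = (0, a) := by
        have := congrArg (fun f => f (z, a)) ip_sp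
        exact this
      rw [h, tmk_add_right, tmk_smul_right, ← tmk_smul_left]
      have h' : ((z, a) : SP) = z • ((1 : ℂ), (0 : MAlg)) + (0, a) := by simp
      conv_rhs => rw [h', tmk_add_left]
      abel) u
  have h2 : tmap (.id ℂ SP) io (unitT SL (prL false F)) = unitT SC (io (prL false F)) := by
    rw [unitT_apply, unitT_apply, tmap_tmk]; rfl
  have h3 : lam (tmap sp (.id ℂ SC) u) = kap (unitT SL (mu u)) :=
    ten_eq (lam ∘L tmap sp (.id ℂ SC)) (kap ∘L unitT SL ∘L mu) (fun p x => by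
      obtain ⟨z, a⟩ := p
      simp only [ContinuousLinearMap.comp_apply, tmap_tmk, ContinuousLinearMap.id_apply,
        unitT_apply, sp_apply, lam_tmk, mu_tmk, kap_tmk, one_smul, map_zero, zero_apply,
        add_zero, id8]) u
  have h4 : kap (unitT SL (prL false F)) = secL false (prL false F) := by
    rw [unitT_apply, kap_tmk]; simp
  refine Prod.ext ?_ ?_
  · simp only [map_add, h2]
    change unitT SC (εC u) + unitT SC (io (prL false F)) +
      (tmap ip (.id ℂ SC) (tmap sp (.id ℂ SC) u) +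
        -(tmap (.id ℂ SP) io (unitT SL (mu u)) + unitT SC (io (prL false F)))) = u
    have h5 : tmap ip (.id ℂ SC) (tmap sp (.id ℂ SC) u) =
        u + tmap (.id ℂ SP) io (unitT SL (mu u)) - unitT SC (εC u) := by
      rw [← h1]; abel
    rw [h5]
    abel
  · simp only [map_add, h3, h4]
    change (0 : SM) + (-(kap (unitT SL (mu u))) + (kap (unitT SL (mu u)) +
      secL false (prL false F)) + inM false (retI false F)) = F
    conv_rhs => rw [← inM_retI_add false F]
    abel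

lemma a1 (x : V1) : ts0 (d1 x) + d2 (ts1 x) = x := by
  obtain ⟨⟨u, v⟩, f⟩ := x
  rw [d1_apply, ts0_apply, ts1_apply, d2_apply]
  have h1 : tmap sp (.id ℂ SC) (tmap ip (.id ℂ SC) u) +
      tmap jj (.id ℂ SC) (tmap tt (.id ℂ SC) u) = u :=
    ten_eq (tmap sp (.id ℂ SC) ∘L tmap ip (.id ℂ SC) + tmap jj (.id ℂ SC) ∘L tmap tt (.id ℂ SC))
      (.id ℂ _) (fun p x => by
      simp only [ContinuousLinearMap.comp_apply, tmap_tmk, ContinuousLinearMap.id_apply,
        add_apply]
      rw [← tmk_add_left]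
      congr 1
      rw [add_comm]
      exact jj_tt p) u
  have h2 : tmap sp (.id ℂ SC) (tmap (.id ℂ SP) io v) =
      tmap (.id ℂ PS) io (tmap sp (.id ℂ SL) v) := by
    rw [tmap_comp_apply, tmap_comp_apply]; rfl
  have h3 : mu (tmap ip (.id ℂ SC) u) = prL false (lam u) :=
    ten_eq (mu ∘L tmap ip (.id ℂ SC)) (prL false ∘L lam) (fun p x => by
      obtain ⟨F, g⟩ := p
      simp only [ContinuousLinearMap.comp_apply, tmap_tmk, ContinuousLinearMap.id_apply, ip_apply,
        mu_tmk, lam_tmk, map_add]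
      change mM (incM false F) x + mM (inM true g) x = _
      rw [id9, id10, add_zero]) u
  have h4 : -unitT SL (mu (tmap (.id ℂ SP) io v)) + unitT SL (prL false (kap v)) +
      tmap ip (.id ℂ SL) (tmap sp (.id ℂ SL) v) = v :=
    ten_eq (-(unitT SL ∘L mu ∘L tmap (.id ℂ SP) io) + unitT SL ∘L prL false ∘L kap +
      tmap ip (.id ℂ SL) ∘L tmap sp (.id ℂ SL)) (.id ℂ _) (fun p y => by
      obtain ⟨z, a⟩ := p
      simp only [ContinuousLinearMap.comp_apply, tmap_tmk, ContinuousLinearMap.id_apply,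
        add_apply, neg_apply, unitT_apply, mu_tmk, kap_tmk, map_add, map_smul, prL_secL, id12]
      rw [prL_act, prL_secL]
      have h : ip (sp (z, a)) = (0, a) := by
        have := congrArg (fun f => f (z, a)) ip_sp
        exact this
      rw [h, ← tmk_smul_left]
      have h' : ((z, a) : SP) = z • ((1 : ℂ), (0 : MAlg)) + (0, a) := by simp
      conv_rhs => rw [h', tmk_add_left]
      abel) v
  have h5 : retI false (lam u) = lam' (tmap tt (.id ℂ SC) u) :=
    ten_eq (retI false ∘L lam) (lam' ∘L tmap tt (.id ℂ SC)) (fun p x => by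
      obtain ⟨F, g⟩ := p
      simp only [ContinuousLinearMap.comp_apply, tmap_tmk, ContinuousLinearMap.id_apply,
        lam_tmk, lam'_tmk, tt_apply, id11]) u
  have h6 : retI false (kap v) = gam (tmap sp (.id ℂ SL) v) :=
    ten_eq (retI false ∘L kap) (gam ∘L tmap sp (.id ℂ SL)) (fun p y => by
      obtain ⟨z, a⟩ := p
      simp only [ContinuousLinearMap.comp_apply, tmap_tmk, ContinuousLinearMap.id_apply,
        kap_tmk, gam_tmk, sp_apply, map_add, map_smul, id13]
      have : retI false (secL false y) = 0 :=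
        at_eq (A := atomsL) (retI false ∘L secL false) 0 (fun b => by simp) y
      rw [this, smul_zero, zero_add]) v
  refine Prod.ext (Prod.ext ?_ ?_) ?_
  · simp only [map_add, map_neg, h2]
    change tmap sp (.id ℂ SC) (tmap ip (.id ℂ SC) u) +
      -(tmap (.id ℂ PS) io (tmap sp (.id ℂ SL) v)) + (tmap jj (.id ℂ SC) (tmap tt (.id ℂ SC) u) +
      tmap (.id ℂ PS) io (tmap sp (.id ℂ SL) v)) = u
    conv_rhs => rw [← h1]
    abel
  · simp only [map_add, map_neg, h3, prL_inM, add_zero]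
    change unitT SL (prL false (lam u)) + -(unitT SL (mu (tmap (.id ℂ SP) io v))) +
      (-(unitT SL (prL false (lam u))) + unitT SL (prL false (kap v))) +
      tmap ip (.id ℂ SL) (tmap sp (.id ℂ SL) v) = v
    conv_rhs => rw [← h4]
    abel
  · simp only [map_add, map_neg, h5, h6, retI_inM]
    change -(lam' (tmap tt (.id ℂ SC) u)) + gam (tmap sp (.id ℂ SL) v) + f +
      (lam' (tmap tt (.id ℂ SC) u) + -(gam (tmap sp (.id ℂ SL) v))) = f
    abel

lemma a2 (x : V2) : ts1 (d2 x) + d3 (ts2 x) = x := by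
  obtain ⟨w, v⟩ := x
  rw [d2_apply, ts1_apply, ts2_apply, d3_apply]
  have h1 : tmap tt (.id ℂ SC) (tmap jj (.id ℂ SC) w) = w :=
    ten_eq (tmap tt (.id ℂ SC) ∘L tmap jj (.id ℂ SC)) (.id ℂ _) (fun p x => by
      simp only [ContinuousLinearMap.comp_apply, tmap_tmk, ContinuousLinearMap.id_apply, tt_jj]) w
  have h2 : tmap tt (.id ℂ SC) (tmap (.id ℂ PS) io v) =
      tmap (.id ℂ SI) io (tmap tt (.id ℂ SL) v) := by
    rw [tmap_comp_apply, tmap_comp_apply]; rfl
  have h3 : tmap sp (.id ℂ SL) (tmap ip (.id ℂ SL) v) +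
      tmap jj (.id ℂ SL) (tmap tt (.id ℂ SL) v) = v :=
    ten_eq (tmap sp (.id ℂ SL) ∘L tmap ip (.id ℂ SL) + tmap jj (.id ℂ SL) ∘L tmap tt (.id ℂ SL))
      (.id ℂ _) (fun p x => by
      simp only [ContinuousLinearMap.comp_apply, tmap_tmk, ContinuousLinearMap.id_apply,
        add_apply]
      rw [← tmk_add_left]
      congr 1
      rw [add_comm]
      exact jj_tt p) v
  refine Prod.ext ?_ ?_
  · simp only [map_add, h1, h2]
    change w + tmap (.id ℂ SI) io (tmap tt (.id ℂ SL) v) +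
      -(tmap (.id ℂ SI) io (tmap tt (.id ℂ SL) v)) = w
    abel
  · exact h3

lemma a3 (x : V3) : ts2 (d3 x) = x := by
  rw [d3_apply, ts2_apply]
  exact ten_eq (tmap tt (.id ℂ SL) ∘L tmap jj (.id ℂ SL)) (.id ℂ _) (fun p x => by
      simp only [ContinuousLinearMap.comp_apply, tmap_tmk, ContinuousLinearMap.id_apply, tt_jj]) x

end

end Pool.Agent.Lib.MP_1618a1_an
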