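import Pool.Agent.Lib.MP_1618a1_an.LowHom
import Pool.Agent.Lib.MP_1618a1_an.LowNum

/-!
# The lower bound: `X = c₀` has dimension `> 2`
-/

set_option autoImplicit false

namespace Pool.Agent.Lib.MP_1618a1_an

noncomputable section

/-- the sum functional on `L` -/
def sumL : SL →L[ℂ] ℂ := atLift atomsL fun _ => 1

@[simp] lemma sumL_g (k : ℕ) : sumL (atomsL.g k) = 1 := atLift_g ⟨1, by
  rintro _ ⟨m, rfl⟩
  simp [lc]⟩ k

/-- `I' ⊗ L → I'`, `f ⊗ δ_k ↦ f` -/
def psi : V3 →L[ℂ] SI := tlift (ContinuousLinearMap.smulRightL ℂ SL SI sumL)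

lemma psi_tmk (f : SI) (y : SL) : psi (tmk f y) = sumL y • f := by
  rw [psi, tlift_tmk]; rfl

lemma psi_act (a : MAlg) (z : V3) :
    psi (tmap (actI true false a) (.id ℂ SL) z) = actI true false a (psi z) :=
  ten_eq (psi ∘L tmap (actI true false a) (.id ℂ SL)) (actI true false a ∘L psi) (fun f y => by
    simp only [ContinuousLinearMap.comp_apply, tmap_tmk, ContinuousLinearMap.id_apply, psi_tmk,
      map_smul]) z

/-- the coordinate `p` -/
abbrev co (p : ℕ × ℕ) : SI →L[ℂ] ℂ := coord (atomsI false) p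

lemma co_act (p : ℕ × ℕ) (f : SI) :
    co p (actI true false ((atomsM true).g (.inl p)) f) = co p f :=
  at_eq (A := atomsI false) (co p ∘L actI true false ((atomsM true).g (.inl p))) (co p)
    (fun q => by
      rw [ContinuousLinearMap.comp_apply, actI_g, coord_g (atomsI_her false)]
      simp only [bactI]
      split_ifs with h
      · rw [Atoms.og_some, coord_g (atomsI_her false), if_pos h]
      · rw [Atoms.og_none, map_zero]) f

lemma norm_co_le (p : ℕ × ℕ) (f : SI) : ‖co p f‖ ≤ ‖f‖ := by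
  calc ‖co p f‖ ≤ ‖co p‖ * ‖f‖ := ContinuousLinearMap.le_opNorm _ _
    _ ≤ 1 * ‖f‖ := by
      have := norm_coord_le (atomsI_her false) p
      gcongr
    _ = ‖f‖ := one_mul _

/-- signs -/
lemma exists_sign (r : ℕ × ℕ → ℂ) : ∃ σ : ℕ × ℕ → ℂ, (∀ p, σ p = 1 ∨ σ p = -1) ∧
    ∀ p, |(r p).re| = (σ p * r p).re := by
  refine ⟨fun p => if 0 ≤ (r p).re then 1 else -1, fun p => ?_, fun p => ?_⟩
  · dsimp only; split_ifs <;> simp
  · dsimp only
    split_ifs with h
    · rw [one_mul, abs_of_nonneg h]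
    · rw [abs_of_neg (not_le.1 h)]; simp

lemma lc_single_sum {B : Type} (v : B → ℂ) (s : B →₀ ℂ) : lc v s = ∑ b ∈ s.support, s b * v b := by
  simp [lc, Finsupp.linearCombination_apply, Finsupp.sum]

lemma co_lc (p : ℕ × ℕ) (s : (ℕ × ℕ) →₀ ℂ) : co p (lc (atomsI false).g s) = s p := by
  rw [map_lc]
  have h : (fun b => co p ((atomsI false).g b)) = fun b => if p = b then (1 : ℂ) else 0 :=
    funext fun b => coord_g (atomsI_her false) p b
  rw [h, lc_ite_eq (fun _ => (1 : ℂ))]
  simp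

/-- `I'` is the `ℓ¹`-sum of its columns -/
lemma col_norm (G : Finset (ℕ × ℕ)) (hG : ∀ p ∈ G, ∀ q ∈ G, p.1 = q.1 → p = q) (F : SI) :
    ∑ p ∈ G, |(co p F).re| ≤ ‖F‖ := by
  obtain ⟨σ, hσ, hs⟩ := exists_sign fun p => co p F
  have hσ1 : ∀ p, ‖σ p‖ = 1 := fun p => by rcases hσ p with h | h <;> simp [h]
  let φ : SI →L[ℂ] ℂ := ∑ p ∈ G, σ p • co p
  have hφ : ∀ x, φ x = ∑ p ∈ G, σ p * co p x := fun x => by
    simp only [φ, sum_apply, smul_apply, smul_eq_mul]
  have hn : ‖φ‖ ≤ 1 := by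
    refine opNorm_le_of_atoms zero_le_one fun s hsS => ?_
    rw [hφ]
    simp only [co_lc]
    by_cases h : ∃ p ∈ G, s p ≠ 0
    · obtain ⟨q, hq, hq0⟩ := h
      have : ∑ p ∈ G, σ p * s p = σ q * s q := by
        refine Finset.sum_eq_single q (fun p hp hpq => ?_) fun h => absurd hq h
        by_contra hne
        have hp0 : s p ≠ 0 := fun h => hne (by rw [h, mul_zero])
        have := hsS.2 p (Finsupp.mem_support_iff.2 hp0) q (Finsupp.mem_support_iff.2 hq0)
        exact hpq (hG p hp q hq this)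
      rw [this, norm_mul, hσ1, one_mul]
      exact hsS.1.norm_le q
    · push Not at h
      have : ∑ p ∈ G, σ p * s p = 0 := Finset.sum_eq_zero fun p hp => by rw [h p hp, mul_zero]
      rw [this]; simp
  calc ∑ p ∈ G, |(co p F).re| = ∑ p ∈ G, (σ p * co p F).re :=
        Finset.sum_congr rfl fun p _ => hs p
    _ = (φ F).re := by rw [hφ, Complex.re_sum]
    _ ≤ ‖φ F‖ := (le_abs_self _).trans (Complex.abs_re_le_norm _)
    _ ≤ ‖φ‖ * ‖F‖ := ContinuousLinearMap.le_opNorm _ _
    _ ≤ 1 * ‖F‖ := by gcongr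
    _ = ‖F‖ := one_mul _

/-- signed sums in `X = c₀` -/
lemma norm_sumC_le (N : ℕ) (σ : ℕ → ℂ) (hσ : ∀ k, σ k = 1 ∨ σ k = -1) :
    ‖∑ k ∈ Finset.range N, σ k • atomsC.g k‖ ≤ 1 := by
  have h : ∑ k ∈ Finset.range N, σ k • atomsC.g k =
      lc atomsC.g (∑ k ∈ Finset.range N, Finsupp.single k (σ k)) := by
    simp [lc, map_sum]
  rw [h]
  refine norm_atom_le fun b => ?_
  have : (∑ k ∈ Finset.range N, Finsupp.single k (σ k)) b =
      if b ∈ Finset.range N then σ b else 0 := by
    rw [Finsupp.finsetSum_apply]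
    simp only [Finsupp.single_apply]
    rw [Finset.sum_ite_eq']
  rw [this]
  split_ifs
  · exact Or.inr (hσ b)
  · exact Or.inl rfl

theorem lower_bound : ¬ dhLE (IsLeft MAlg) 2 modC := by
  intro hdh
  obtain ⟨ρ, hρ, hρd⟩ := exists_rho hdh
  let Θ : V2 →L[ℂ] SI := psi ∘L ρ
  have hΘ : ∀ (a : MAlg) (w : Ten SI SC) (v : Ten PS SL),
      Θ (tmap (actI true false a) (.id ℂ SC) w, tmap (actP a) (.id ℂ SL) v) =
        actI true false a (Θ (w, v)) := fun a w v => by
    have h := hρ a (w, v)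
    change psi (ρ (tmap (actI true false a) (.id ℂ SC) w, tmap (actP a) (.id ℂ SL) v)) = _
    have h' : ρ (tmap (actI true false a) (.id ℂ SC) w, tmap (actP a) (.id ℂ SL) v) =
      tmap (actI true false a) (.id ℂ SL) (ρ (w, v)) := h
    rw [h', psi_act]
    rfl
  have key : ∀ (p : ℕ × ℕ) (y : PS) (x : SL),
      co p (Θ (0, tmk (actP ((atomsM true).g (.inl p)) y) x)) = co p (Θ (0, tmk y x)) := by
    intro p y x
    have h := hΘ ((atomsM true).g (.inl p)) 0 (tmk y x)
    rw [map_zero, tmap_tmk, ContinuousLinearMap.id_apply] at h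
    rw [h, co_act]
  have hbound : ∀ w v, ‖Θ (w, v)‖ ≤ ‖Θ‖ * max ‖w‖ ‖v‖ := fun w v => Θ.le_opNorm (w, v)
  refine low_num (fun p k => (co p (Θ (0, tmk ((atomsM false).g (.inl p), 0) (atomsL.g k)))).re)
    (fun p k => (co p (Θ (0, tmk (0, (atomsI true).g p) (atomsL.g k)))).re)
    (fun p k => (co p (Θ (tmk ((atomsI false).g p) (atomsC.g k), 0))).re) ‖Θ‖ ?_ ?_ ?_ ?_
  · intro p k
    have h1 : d3 (tmk ((atomsI false).g p) (atomsL.g k)) =
        -(tmk ((atomsI false).g p) (atomsC.g k), 0) +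
        (0, tmk ((atomsM false).g (.inl p), 0) (atomsL.g k)) -
        (0, tmk (0, (atomsI true).g p) (atomsL.g k)) := by
      rw [d3_apply, tmap_tmk, tmap_tmk, io_g, jj_apply, inM_g, incI_g]
      have h2 : (((atomsM false).g (.inl p), -(atomsI true).g p) : PS) =
          ((atomsM false).g (.inl p), 0) + (-1 : ℂ) • (0, (atomsI true).g p) := by
        simp
      rw [ContinuousLinearMap.id_apply, ContinuousLinearMap.id_apply, h2, tmk_add_left,
        tmk_smul_left]
      ext
      all_goals simp [sub_eq_add_neg]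
    have h2 : co p (Θ (d3 (tmk ((atomsI false).g p) (atomsL.g k)))) = 1 := by
      change co p (psi (ρ (d3 _))) = 1
      rw [hρd, psi_tmk, sumL_g, one_smul, coord_g (atomsI_her false), if_pos rfl]
    rw [h1, map_sub, map_add, map_neg, map_sub, map_add, map_neg] at h2
    have h3 := congrArg Complex.re h2
    simp only [Complex.sub_re, Complex.add_re, Complex.neg_re, Complex.one_re] at h3
    exact h3.symm
  · intro l k ε hε
    have hfin := finite_coord (atomsI_her false)
      (Θ (0, tmk ((atomsM false).g (.inr l), 0) (atomsL.g k))) hε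
    refine (hfin.preimage (f := fun i : ℕ => (l, i))
      (fun a _ b _ hab => by simpa using hab)).subset fun i hi => ?_
    change ε ≤ ‖co (l, i) _‖
    refine le_trans hi ((Complex.abs_re_le_norm _).trans (le_of_eq ?_))
    rw [← key (l, i) ((atomsM false).g (.inr l), 0) (atomsL.g k)]
    congr 5
    change _ = (actM true false ((atomsM true).g (.inl (l, i))) ((atomsM false).g (.inr l)),
      actI true true ((atomsM true).g (.inl (l, i))) 0)
    rw [actM_g, map_zero]
    simp [bmul]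
  · intro G k hadm hdist
    let x : At (atomsI true) := ∑ p ∈ G, (1 : ℂ) • (atomsI true).g p
    have hx : ‖x‖ ≤ 1 := norm_signed_sum_le hadm (fun _ => 1) fun _ => Or.inr (Or.inl rfl)
    have hval : ∀ p ∈ G, co p (Θ (0, tmk (0, (atomsI true).g p) (atomsL.g k))) =
        co p (Θ (0, tmk (0, x) (atomsL.g k))) := by
      intro p hp
      have hh : actP ((atomsM true).g (.inl p)) ((0 : SM), x) = (0, (atomsI true).g p) := by
        change (actM true false ((atomsM true).g (.inl p)) 0,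
          actI true true ((atomsM true).g (.inl p)) x) = _
        rw [map_zero]
        congr 1
        simp only [x, one_smul, map_sum, actI_g, bactI]
        rw [Finset.sum_eq_single p]
        · simp
        · intro q _ hq
          rw [if_neg (fun h => hq h.symm)]; rfl
        · exact fun h => absurd hp h
      rw [← key p (0, x), hh]
    calc ∑ p ∈ G, |(co p (Θ (0, tmk (0, (atomsI true).g p) (atomsL.g k)))).re| =
          ∑ p ∈ G, |(co p (Θ (0, tmk (0, x) (atomsL.g k)))).re| :=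
          Finset.sum_congr rfl fun p hp => by rw [hval p hp]
      _ ≤ ‖Θ (0, tmk (0, x) (atomsL.g k))‖ := col_norm G hdist _
      _ ≤ ‖Θ‖ * max ‖(0 : Ten SI SC)‖ ‖tmk ((0 : SM), x) (atomsL.g k)‖ := hbound _ _
      _ ≤ ‖Θ‖ * 1 := by
          refine mul_le_mul_of_nonneg_left ?_ (norm_nonneg Θ)
          refine max_le (by simp) ((norm_tmk_le _ _).trans ?_)
          have h1 : ‖((0 : SM), x)‖ ≤ 1 := by simpa [Prod.norm_def] using hx
          calc _ ≤ 1 * 1 := mul_le_mul h1 (norm_g_le k) (norm_nonneg _) zero_le_one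
            _ = 1 := one_mul 1
      _ = ‖Θ‖ := mul_one _
  · intro p N
    obtain ⟨σ, hσ, hs⟩ := exists_sign fun q : ℕ × ℕ =>
      co p (Θ (tmk ((atomsI false).g p) (atomsC.g q.1), 0))
    let x : SC := ∑ k ∈ Finset.range N, σ (k, 0) • atomsC.g k
    have hx : ‖x‖ ≤ 1 := norm_sumC_le N (fun k => σ (k, 0)) fun k => hσ (k, 0)
    let φ : SC →L[ℂ] ℂ := co p ∘L Θ ∘L ContinuousLinearMap.inl ℂ _ _ ∘L
      tmkL ((atomsI false).g p)
    have hφ : ∀ y, φ y = co p (Θ (tmk ((atomsI false).g p) y, 0)) := fun y => rfl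
    calc ∑ k ∈ Finset.range N, |(co p (Θ (tmk ((atomsI false).g p) (atomsC.g k), 0))).re| =
          ∑ k ∈ Finset.range N, (σ (k, 0) * φ (atomsC.g k)).re :=
          Finset.sum_congr rfl fun k _ => hs (k, 0)
      _ = (φ x).re := by
          simp only [x, map_sum, map_smul, smul_eq_mul, Complex.re_sum]
      _ ≤ ‖φ x‖ := (le_abs_self _).trans (Complex.abs_re_le_norm _)
      _ ≤ ‖Θ (tmk ((atomsI false).g p) x, 0)‖ := by rw [hφ]; exact norm_co_le p _
      _ ≤ ‖Θ‖ * max ‖tmk ((atomsI false).g p) x‖ ‖(0 : Ten PS SL)‖ := hbound _ _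
      _ ≤ ‖Θ‖ * 1 := by
          refine mul_le_mul_of_nonneg_left ?_ (norm_nonneg Θ)
          refine max_le ((norm_tmk_le _ _).trans ?_) (by simp)
          calc _ ≤ 1 * 1 := mul_le_mul (norm_g_le p) hx (norm_nonneg _) zero_le_one
            _ = 1 := one_mul 1
      _ = ‖Θ‖ := mul_one _

end

end Pool.Agent.Lib.MP_1618a1_an
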