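import Pool.Agent.Lib.MP_1618a1_an.Basic

/-!
# First part of the dimension theory: horseshoe lemma
-/

set_option autoImplicit false

namespace Pool.Agent.Lib.MP_1618a1_an

noncomputable section

variable {Op : Type} {C : OpMod Op → Prop}

lemma IsHom.comp {X Y Z : OpMod Op} {f : X.V →L[ℂ] Y.V} {g : Y.V →L[ℂ] Z.V}
    (hg : IsHom Y Z g) (hf : IsHom X Y f) : IsHom X Z (g ∘L f) := fun o x => by
  simp [hf o x, hg o (f x)]

private lemma kerMod_act_coe {X Y : OpMod Op} (f : X.V →L[ℂ] Y.V) (hf : IsHom X Y f) (o : Op)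
    (x : (kerMod f hf).V) :
    kerIncl f hf ((kerMod f hf).act o x) = X.act o (kerIncl f hf x) := rfl

private lemma kerIncl_mem {X Y : OpMod Op} (f : X.V →L[ℂ] Y.V) (hf : IsHom X Y f)
    (x : (kerMod f hf).V) : f (kerIncl f hf x) = 0 := x.2

private lemma kerIncl_inj {X Y : OpMod Op} (f : X.V →L[ℂ] Y.V) (hf : IsHom X Y f)
    {x y : (kerMod f hf).V} (h : kerIncl f hf x = kerIncl f hf y) : x = y := Subtype.ext h

/-- corestriction to the kernel -/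
private def toKer {X Y : OpMod Op} (f : X.V →L[ℂ] Y.V) (hf : IsHom X Y f) {E : Type}
    [NormedAddCommGroup E] [NormedSpace ℂ E] (g : E →L[ℂ] X.V) (hg : ∀ e, f (g e) = 0) :
    E →L[ℂ] (kerMod f hf).V :=
  g.codRestrict f.ker fun e => hg e

private lemma kerIncl_toKer {X Y : OpMod Op} (f : X.V →L[ℂ] Y.V) (hf : IsHom X Y f) {E : Type}
    [NormedAddCommGroup E] [NormedSpace ℂ E] (g : E →L[ℂ] X.V) (hg : ∀ e, f (g e) = 0) (e : E) :
    kerIncl f hf (toKer f hf g hg e) = g e := rfl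

/-- an admissible epimorphism gives a short exact sequence with its kernel -/
lemma SES.ker {P X : OpMod Op} {π : P.V →L[ℂ] X.V} (hπ : IsHom P X π)
    (hs : ∃ s : X.V →L[ℂ] P.V, ∀ x, π (s x) = x) :
    SES (kerMod π hπ) P X (kerIncl π hπ) π := by
  obtain ⟨s, hs⟩ := hs
  refine ⟨fun o x => kerMod_act_coe π hπ o x, hπ,
    toKer π hπ (ContinuousLinearMap.id ℂ P.V - s ∘L π) (fun x => ?_), s, fun x => ?_, hs,
    fun x => ?_, fun x => kerIncl_mem π hπ x⟩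
  · simp [hs]
  · apply kerIncl_inj π hπ
    rw [kerIncl_toKer]
    simp [kerIncl_mem π hπ x]
  · rw [kerIncl_toKer]
    simp

/-- in a short exact sequence all terms are in the class if the middle one is -/
lemma SES.cls {K P X : OpMod Op} {j : K.V →L[ℂ] P.V} {π : P.V →L[ℂ] X.V} (hC : Good C)
    (h : SES K P X j π) (hP : C P) : C K ∧ C X := by
  obtain ⟨t, s, htj, hπs, hjt, hπj⟩ := h.split
  refine ⟨hC.emb K P j h.jhom ⟨1 / (‖t‖ + 1), by positivity, fun x => ?_⟩ hP,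
    hC.quot X P π h.πhom ⟨s, hπs⟩ hP⟩
  have h1 : ‖x‖ ≤ ‖t‖ * ‖j x‖ := by
    calc ‖x‖ = ‖t (j x)‖ := by rw [htj]
      _ ≤ ‖t‖ * ‖j x‖ := t.le_opNorm _
  have h2 : 0 ≤ ‖j x‖ := norm_nonneg (j x)
  have h3 : 0 < ‖t‖ + 1 := by positivity
  rw [one_div, inv_mul_le_iff₀ h3]
  nlinarith

private lemma SES.inj {K P X : OpMod Op} {j : K.V →L[ℂ] P.V} {π : P.V →L[ℂ] X.V}
    (h : SES K P X j π) {x y : K.V} (hxy : j x = j y) : x = y := by
  obtain ⟨t, s, htj, hπs, hjt, hπj⟩ := h.split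
  rw [← htj x, ← htj y, hxy]

/-- universal property of `j`: a morphism killed by `π` factors through `j` -/
lemma SES.lift {K P X Y : OpMod Op} {j : K.V →L[ℂ] P.V} {π : P.V →L[ℂ] X.V}
    (h : SES K P X j π) {f : Y.V →L[ℂ] P.V} (hf : IsHom Y P f) (h0 : ∀ y, π (f y) = 0) :
    ∃ g : Y.V →L[ℂ] K.V, IsHom Y K g ∧ ∀ y, j (g y) = f y := by
  obtain ⟨t, s, htj, hπs, hjt, hπj⟩ := h.split
  have hj : ∀ y, j ((t ∘L f) y) = f y := by
    intro y
    have h1 := hjt (f y)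
    rw [h0, map_zero, add_zero] at h1
    exact h1
  refine ⟨t ∘L f, fun o y => ?_, hj⟩
  apply h.inj
  rw [hj, h.jhom, hj, hf]

lemma Proj.retract (hC : Good C) {P Q : OpMod Op} {i : Q.V →L[ℂ] P.V} {r : P.V →L[ℂ] Q.V}
    (hi : IsHom Q P i) (hr : IsHom P Q r) (hri : ∀ x, r (i x) = x) (hP : Proj C P) :
    Proj C Q := by
  refine ⟨hC.quot Q P r hr ⟨i, hri⟩ hP.1, fun Y Z hY hZ σ hσ hτ φ hφ => ?_⟩
  obtain ⟨ψ, hψ, hψ2⟩ := hP.2 Y Z hY hZ σ hσ hτ (φ ∘L r) (hφ.comp hr)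
  refine ⟨ψ ∘L i, hψ.comp hi, fun p => ?_⟩
  rw [ContinuousLinearMap.comp_apply, hψ2, ContinuousLinearMap.comp_apply, hri]

lemma Proj.prod (hC : Good C) {P Q : OpMod Op} (hP : Proj C P) (hQ : Proj C Q) :
    Proj C (prodMod P Q) := by
  refine ⟨hC.prod P Q hP.1 hQ.1, fun Y Z hY hZ σ hσ hτ φ hφ => ?_⟩
  let φ' : (P.V × Q.V) →L[ℂ] Z.V := φ
  have h1 : IsHom P Z (φ' ∘L ContinuousLinearMap.inl ℂ P.V Q.V) := by
    intro o p
    have h2 := hφ o ((p, 0) : P.V × Q.V)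
    have h3 : (prodMod P Q).act o ((p, 0) : P.V × Q.V) = ((P.act o p, 0) : P.V × Q.V) := by
      rw [prodMod_act, map_zero]
    rw [h3] at h2
    exact h2
  have h1' : IsHom Q Z (φ' ∘L ContinuousLinearMap.inr ℂ P.V Q.V) := by
    intro o q
    have h2 := hφ o ((0, q) : P.V × Q.V)
    have h3 : (prodMod P Q).act o ((0, q) : P.V × Q.V) = ((0, Q.act o q) : P.V × Q.V) := by
      rw [prodMod_act, map_zero]
    rw [h3] at h2
    exact h2
  obtain ⟨ψ1, hψ1, hψ1'⟩ := hP.2 Y Z hY hZ σ hσ hτ _ h1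
  obtain ⟨ψ2, hψ2, hψ2'⟩ := hQ.2 Y Z hY hZ σ hσ hτ _ h1'
  refine ⟨(ψ1.coprod ψ2 : (P.V × Q.V) →L[ℂ] Y.V), ?_, ?_⟩
  · rintro o ⟨p, q⟩
    show ψ1 (P.act o p) + ψ2 (Q.act o q) = Y.act o (ψ1 p + ψ2 q)
    rw [hψ1, hψ2, map_add]
  · rintro ⟨p, q⟩
    show σ (ψ1 p + ψ2 q) = φ' (p, q)
    rw [map_add, hψ1', hψ2', ContinuousLinearMap.comp_apply, ContinuousLinearMap.comp_apply,
      ← map_add]
    congr 1
    simp

/-- an admissible epimorphism onto a projective module splits by a morphism -/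
lemma Proj.section_of_epi {P X : OpMod Op} (hX : Proj C X) (hP : C P) {π : P.V →L[ℂ] X.V}
    (hπ : IsHom P X π) (hs : ∃ s : X.V →L[ℂ] P.V, ∀ x, π (s x) = x) :
    ∃ s : X.V →L[ℂ] P.V, IsHom X P s ∧ ∀ x, π (s x) = x :=
  hX.2 P X hP hX.1 π hπ hs (ContinuousLinearMap.id ℂ X.V) fun _ _ => rfl

lemma dhLE.cls {n : ℕ} {X : OpMod Op} (h : dhLE C n X) : C X := by
  cases n with
  | zero => exact h.1
  | succ n => exact h.1

/-- invariance under isomorphism -/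
lemma dhLE.iso (hC : Good C) {n : ℕ} {X Y : OpMod Op} {f : X.V →L[ℂ] Y.V} {g : Y.V →L[ℂ] X.V}
    (hf : IsHom X Y f) (hg : IsHom Y X g) (hgf : ∀ x, g (f x) = x) (hfg : ∀ y, f (g y) = y)
    (h : dhLE C n X) : dhLE C n Y := by
  cases n with
  | zero => exact Proj.retract hC hg hf hfg h
  | succ n =>
    obtain ⟨hCX, K, P, j, π, hs, hP, hK⟩ := h
    refine ⟨hC.quot Y X f hf ⟨g, hfg⟩ hCX, K, P, j, f ∘L π, ?_, hP, hK⟩
    obtain ⟨t, s, htj, hπs, hjt, hπj⟩ := hs.split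
    refine ⟨hs.jhom, hf.comp hs.πhom, t, s ∘L g, htj, fun y => ?_, fun x => ?_, fun x => ?_⟩
    · simp [hπs, hfg]
    · simp [hgf, hjt]
    · simp [hπj]

/-- the horseshoe lemma -/
lemma dhLE.mid (hC : Good C) {n : ℕ} {K P X : OpMod Op} {j : K.V →L[ℂ] P.V} {π : P.V →L[ℂ] X.V}
    (h : SES K P X j π) (hP : C P) (hK : dhLE C n K) (hX : dhLE C n X) : dhLE C n P := by
  induction n generalizing K P X with
  | zero =>
    obtain ⟨t, s, htj, hπs, hjt, hπj⟩ := h.split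
    obtain ⟨σ, hσ, hσ2⟩ := Proj.section_of_epi hX hP h.πhom ⟨s, hπs⟩
    have hid : IsHom P P (ContinuousLinearMap.id ℂ P.V - σ ∘L π) := by
      intro o x
      simp only [sub_apply, ContinuousLinearMap.id_apply,
        ContinuousLinearMap.comp_apply, map_sub]
      rw [h.πhom, hσ]
    obtain ⟨t', ht', ht2⟩ := h.lift hid (fun x => by simp [hσ2])
    refine Proj.retract hC (P := prodMod K X) (i := (t'.prod π : P.V →L[ℂ] K.V × X.V))
      (r := (j.coprod σ : (K.V × X.V) →L[ℂ] P.V)) ?_ ?_ ?_ (Proj.prod hC hK hX)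
    · intro o x
      show (t' (P.act o x), π (P.act o x)) = (K.act o (t' x), X.act o (π x))
      rw [ht', h.πhom]
    · rintro o ⟨k, x⟩
      show j (K.act o k) + σ (X.act o x) = P.act o (j k + σ x)
      rw [h.jhom, hσ, map_add]
    · intro x
      show j (t' x) + σ (π x) = x
      rw [ht2]
      simp
  | succ n ih =>
    obtain ⟨hCK, K1, R, j1, ρ, hsK, hR, hK1⟩ := hK
    obtain ⟨hCX, X1, S, jX, πX, hsX, hS, hX1⟩ := hX
    obtain ⟨t, s, htj, hπs, hjt, hπj⟩ := h.split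
    obtain ⟨tK, sK, htjK, hπsK, hjtK, hπjK⟩ := hsK.split
    obtain ⟨tX, sX, htjX, hπsX, hjtX, hπjX⟩ := hsX.split
    obtain ⟨φ, hφ, hφ2⟩ := hS.2 P X hP hCX π h.πhom ⟨s, hπs⟩ πX hsX.πhom
    let Ψ : (prodMod R S).V →L[ℂ] P.V := ((j ∘L ρ).coprod φ : (R.V × S.V) →L[ℂ] P.V)
    have hΨa : ∀ (r : R.V) (x : S.V), Ψ ((r, x) : R.V × S.V) = j (ρ r) + φ x := fun _ _ => rfl
    have hΨ : IsHom (prodMod R S) P Ψ := by
      rintro o ⟨r, x⟩
      rw [prodMod_act, hΨa, hΨa, hsK.πhom, h.jhom, hφ, map_add]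
    -- `j (t u) = u` if `π u = 0`
    have hjt' : ∀ u, π u = 0 → j (t u) = u := by
      intro u hu
      have h1 := hjt u
      rw [hu, map_zero, add_zero] at h1
      exact h1
    have hΨs : ∃ s' : P.V →L[ℂ] (prodMod R S).V, ∀ x, Ψ (s' x) = x := by
      refine ⟨((sK ∘L t ∘L (ContinuousLinearMap.id ℂ P.V - φ ∘L sX ∘L π)).prod (sX ∘L π) :
        P.V →L[ℂ] R.V × S.V), fun q => ?_⟩
      show j (ρ (sK (t (q - φ (sX (π q)))))) + φ (sX (π q)) = q
      rw [hπsK, hjt' _ (by rw [map_sub, hφ2, hπsX, sub_self])]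
      abel
    have hN := SES.ker hΨ hΨs
    have hPr := Proj.prod hC hR hS
    have hCN := (hN.cls hC hPr.1).1
    refine ⟨hP, kerMod Ψ hΨ, prodMod R S, kerIncl Ψ hΨ, Ψ, hN, hPr, ?_⟩
    -- the sequence `K1 → N → X1`
    have hf1 : IsHom K1 (prodMod R S) (j1.prod 0 : K1.V →L[ℂ] R.V × S.V) := by
      intro o k
      show (j1 (K1.act o k), (0 : S.V)) = (R.act o (j1 k), S.act o 0)
      rw [hsK.jhom, map_zero]
    obtain ⟨jN, hjN, hjN2⟩ := hN.lift hf1 (fun k => by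
      show j (ρ (j1 k)) + φ 0 = 0
      rw [hπjK, map_zero, map_zero, add_zero])
    have hjN3 : ∀ k, kerIncl Ψ hΨ (jN k) = ((j1 k, 0) : R.V × S.V) := hjN2
    let sndS : (prodMod R S).V →L[ℂ] S.V := ContinuousLinearMap.snd ℂ R.V S.V
    let fstR : (prodMod R S).V →L[ℂ] R.V := ContinuousLinearMap.fst ℂ R.V S.V
    have hsnd : IsHom (kerMod Ψ hΨ) S (sndS ∘L kerIncl Ψ hΨ) := fun o x => rfl
    have hmem : ∀ x : (kerMod Ψ hΨ).V,
        j (ρ (fstR (kerIncl Ψ hΨ x))) + φ (sndS (kerIncl Ψ hΨ x)) = 0 := fun x =>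
      kerIncl_mem Ψ hΨ x
    have hπφ : ∀ x : (kerMod Ψ hΨ).V, πX (sndS (kerIncl Ψ hΨ x)) = 0 := by
      intro x
      have h1 := congrArg π (hmem x)
      rw [map_add, hπj, zero_add, map_zero, hφ2] at h1
      exact h1
    obtain ⟨πN, hπN, hπN2⟩ := hsX.lift hsnd hπφ
    have hπN3 : ∀ x, jX (πN x) = sndS (kerIncl Ψ hΨ x) := hπN2
    let sN0 : X1.V →L[ℂ] (prodMod R S).V :=
      ((-(sK ∘L t ∘L φ ∘L jX)).prod jX : X1.V →L[ℂ] R.V × S.V)
    have hsN0 : ∀ x, sN0 x = ((-(sK (t (φ (jX x)))), jX x) : R.V × S.V) := fun _ => rfl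
    have hsN1 : ∀ x, Ψ (sN0 x) = 0 := by
      intro x
      rw [hsN0, hΨa, map_neg, hπsK, map_neg, hjt' _ (by rw [hφ2, hπjX])]
      abel
    have hses : SES K1 (kerMod Ψ hΨ) X1 jN πN := by
      refine ⟨hjN, hπN, tK ∘L (fstR + sK ∘L t ∘L φ ∘L sndS) ∘L kerIncl Ψ hΨ,
        toKer Ψ hΨ sN0 hsN1, fun k => ?_, fun x => ?_, fun x => ?_, fun k => ?_⟩
      · show tK (fstR (kerIncl Ψ hΨ (jN k)) + sK (t (φ (sndS (kerIncl Ψ hΨ (jN k)))))) = k
        rw [hjN3]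
        show tK (j1 k + sK (t (φ 0))) = k
        rw [map_zero, map_zero, map_zero, add_zero, htjK]
      · apply hsX.inj
        rw [hπN3, kerIncl_toKer]
        rfl
      · apply kerIncl_inj Ψ hΨ
        rw [map_add, hjN3, kerIncl_toKer, hsN0, hπN3]
        show ((j1 (tK (fstR (kerIncl Ψ hΨ x) + sK (t (φ (sndS (kerIncl Ψ hΨ x)))))), 0) :
          R.V × S.V) + (-(sK (t (φ (sndS (kerIncl Ψ hΨ x))))), sndS (kerIncl Ψ hΨ x)) =
          (kerIncl Ψ hΨ x : R.V × S.V)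
        have h1 : ρ (fstR (kerIncl Ψ hΨ x) + sK (t (φ (sndS (kerIncl Ψ hΨ x))))) = 0 := by
          have h2 := congrArg t (hmem x)
          rw [map_add, htj, map_zero] at h2
          rw [map_add, hπsK]
          exact h2
        have h3 := hjtK (fstR (kerIncl Ψ hΨ x) + sK (t (φ (sndS (kerIncl Ψ hΨ x)))))
        rw [h1, map_zero, add_zero] at h3
        rw [h3]
        ext1
        · show fstR (kerIncl Ψ hΨ x) + sK (t (φ (sndS (kerIncl Ψ hΨ x)))) +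
            -(sK (t (φ (sndS (kerIncl Ψ hΨ x))))) = fstR (kerIncl Ψ hΨ x)
          abel
        · show (0 : S.V) + sndS (kerIncl Ψ hΨ x) = sndS (kerIncl Ψ hΨ x)
          rw [zero_add]
      · apply hsX.inj
        rw [hπN3, hjN3, map_zero]
        rfl
    exact ih hses hCN hK1 hX1

lemma dhLE.prod (hC : Good C) {n : ℕ} {X Y : OpMod Op} (hX : dhLE C n X) (hY : dhLE C n Y) :
    dhLE C n (prodMod X Y) := by
  refine dhLE.mid hC (K := X) (P := prodMod X Y) (X := Y)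
    (j := (ContinuousLinearMap.inl ℂ X.V Y.V : X.V →L[ℂ] X.V × Y.V))
    (π := (ContinuousLinearMap.snd ℂ X.V Y.V : (X.V × Y.V) →L[ℂ] Y.V)) ?_
    (hC.prod X Y hX.cls hY.cls) hX hY
  refine ⟨fun o x => ?_, fun o x => rfl,
    (ContinuousLinearMap.fst ℂ X.V Y.V : (X.V × Y.V) →L[ℂ] X.V),
    (ContinuousLinearMap.inr ℂ X.V Y.V : Y.V →L[ℂ] X.V × Y.V), fun x => rfl, fun x => rfl,
    fun x => ?_, fun x => rfl⟩
  · show (X.act o x, (0 : Y.V)) = (X.act o x, Y.act o 0)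
    rw [map_zero]
  · obtain ⟨x, y⟩ := x
    exact Prod.ext (add_zero x) (zero_add y)

/-- dimension of the right term of a short exact sequence -/
lemma dhLE.right (hC : Good C) {n : ℕ} {K P X : OpMod Op} {j : K.V →L[ℂ] P.V}
    {π : P.V →L[ℂ] X.V} (h : SES K P X j π) (hK : dhLE C n K) (hP : dhLE C (n + 1) P) :
    dhLE C (n + 1) X := by
  obtain ⟨hCP, L, Q, jQ, πQ, hsQ, hQ, hL⟩ := hP
  have hCX := (h.cls hC hCP).2
  obtain ⟨t, s, htj, hπs, hjt, hπj⟩ := h.split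
  obtain ⟨tQ, sQ, htjQ, hπsQ, hjtQ, hπjQ⟩ := hsQ.split
  have hcomp : IsHom Q X (π ∘L πQ) := h.πhom.comp hsQ.πhom
  have hN := SES.ker hcomp ⟨sQ ∘L s, fun x => by simp [hπsQ, hπs]⟩
  have hCN := (hN.cls hC hQ.1).1
  refine ⟨hCX, kerMod (π ∘L πQ) hcomp, Q, kerIncl _ hcomp, π ∘L πQ, hN, hQ, ?_⟩
  obtain ⟨jN, hjN, hjN2⟩ := hN.lift hsQ.jhom (fun l => by simp [hπjQ])
  have hf : IsHom (kerMod (π ∘L πQ) hcomp) P (πQ ∘L kerIncl _ hcomp) :=
    hsQ.πhom.comp hN.jhom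
  obtain ⟨πN, hπN, hπN2⟩ := h.lift hf (fun x => kerIncl_mem _ hcomp x)
  have hπN3 : ∀ x, j (πN x) = πQ (kerIncl _ hcomp x) := hπN2
  have hsN : ∀ k, (π ∘L πQ) ((sQ ∘L j) k) = 0 := by
    intro k
    simp [hπsQ, hπj]
  have hses : SES L (kerMod (π ∘L πQ) hcomp) K jN πN := by
    refine ⟨hjN, hπN, tQ ∘L kerIncl _ hcomp, toKer _ hcomp (sQ ∘L j) hsN, fun l => ?_,
      fun k => ?_, fun x => ?_, fun l => ?_⟩
    · rw [ContinuousLinearMap.comp_apply, hjN2, htjQ]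
    · apply h.inj
      rw [hπN3, kerIncl_toKer, ContinuousLinearMap.comp_apply, hπsQ]
    · apply kerIncl_inj _ hcomp
      rw [map_add, hjN2, kerIncl_toKer, ContinuousLinearMap.comp_apply,
        ContinuousLinearMap.comp_apply, hπN3, hjtQ]
    · apply h.inj
      rw [hπN3, hjN2, hπjQ, map_zero]
  exact dhLE.mid hC hses hCN hL hK

lemma dhLE.succ (hC : Good C) {n : ℕ} {X : OpMod Op} (h : dhLE C n X) : dhLE C (n + 1) X := by
  induction n generalizing X with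
  | zero =>
    have hid : IsHom X X (ContinuousLinearMap.id ℂ X.V) := fun _ _ => rfl
    have hN := SES.ker hid ⟨ContinuousLinearMap.id ℂ X.V, fun _ => rfl⟩
    refine ⟨h.1, kerMod _ hid, X, kerIncl _ hid, ContinuousLinearMap.id ℂ X.V, hN, h, ?_⟩
    refine ⟨(hN.cls hC h.1).1, fun Y Z hY hZ σ hσ hτ φ hφ => ⟨0, fun o x => ?_, fun p => ?_⟩⟩
    · simp
    · have hp : p = 0 := kerIncl_inj _ hid (by
        rw [map_zero]
        exact kerIncl_mem _ hid p)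
      rw [hp, map_zero, map_zero, map_zero]
  | succ n ih =>
    obtain ⟨hCX, K, P, j, π, hs, hP, hK⟩ := h
    exact ⟨hCX, K, P, j, π, hs, hP, ih hK⟩

lemma dhLE.mono (hC : Good C) {m n : ℕ} (hmn : m ≤ n) {X : OpMod Op} (h : dhLE C m X) :
    dhLE C n X := by
  induction hmn with
  | refl => exact h
  | step _ ih => exact ih.succ hC

/-- if `j` has a left inverse that is a morphism and `P` is projective, then `X` is projective -/
lemma SES.proj_right (hC : Good C) {K P X : OpMod Op} {j : K.V →L[ℂ] P.V} {π : P.V →L[ℂ] X.V}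
    (h : SES K P X j π) (hP : Proj C P) {r : P.V →L[ℂ] K.V} (hr : IsHom P K r)
    (hrj : ∀ x, r (j x) = x) : Proj C X := by
  obtain ⟨t, s, htj, hπs, hjt, hπj⟩ := h.split
  let σ : X.V →L[ℂ] P.V := s - j ∘L r ∘L s
  have hσa : ∀ x, σ x = s x - j (r (s x)) := fun _ => rfl
  have hπσ : ∀ x, π (σ x) = x := by
    intro x
    rw [hσa, map_sub, hπs, hπj, sub_zero]
  have hrσ : ∀ x, r (σ x) = 0 := by
    intro x
    rw [hσa, map_sub, hrj, sub_self]
  have huniq : ∀ u, π u = 0 → r u = 0 → u = 0 := by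
    intro u h1 h2
    have h3 := hjt u
    rw [h1, map_zero, add_zero] at h3
    rw [← h3, hrj] at h2
    rw [← h3, h2, map_zero]
  have hσ : IsHom X P σ := by
    intro o x
    have h1 := huniq (σ (X.act o x) - P.act o (σ x))
      (by rw [map_sub, hπσ, h.πhom, hπσ, sub_self])
      (by rw [map_sub, hrσ, hr, hrσ, map_zero, sub_self])
    exact sub_eq_zero.1 h1
  exact Proj.retract hC hσ h.πhom hπσ hP

end

end Pool.Agent.Lib.MP_1618a1_an
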