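import Pool.Agent.Lib.MP_1618a1_an.Semi
import Pool.Agent.Lib.MP_1618a1_an.Theory1

/-!
# The basic morphisms
-/

set_option autoImplicit false

namespace Pool.Agent.Lib.MP_1618a1_an

noncomputable section

/-- the inclusion of atomic spaces with nested families of atoms -/
def atIncl {B : Type} (A A' : Atoms B) : At A →L[ℂ] At A' := atLift A A'.g

lemma atIncl_g {B : Type} {A A' : Atoms B} (h : A.S ⊆ A'.S) (b : B) :
    atIncl A A' (A.g b) = A'.g b := atLift_g ⟨1, fun _ hs => norm_atom_le (h hs)⟩ b

lemma atomsI_le (k : Bool) : (atomsI k).S ⊆ (atomsI true).S := fun s hs =>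
  ⟨hs.1, by cases k with
    | true => exact hs.2
    | false => exact hs.2.to_true⟩

lemma atomsM_le (k : Bool) : (atomsM k).S ⊆ (atomsM true).S := by
  rintro _ (⟨t, ht, rfl⟩ | ⟨t, ht, rfl⟩)
  · exact Or.inl ⟨t, atomsI_le k ht, rfl⟩
  · exact Or.inr ⟨t, ht, rfl⟩

/-- `I k → I true` -/
def incI (k : Bool) : At (atomsI k) →L[ℂ] At (atomsI true) := atIncl _ _
/-- `M k → M true` -/
def incM (k : Bool) : At (atomsM k) →L[ℂ] At (atomsM true) := atIncl _ _
/-- `I k → M k` -/
def inM (k : Bool) : At (atomsI k) →L[ℂ] At (atomsM k) :=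
  atLift _ fun p => (atomsM k).g (.inl p)
/-- `L → M k`, the linear section -/
def secL (k : Bool) : At atomsL →L[ℂ] At (atomsM k) := atLift _ fun l => (atomsM k).g (.inr l)
/-- `M k → L` -/
def prL (k : Bool) : At (atomsM k) →L[ℂ] At atomsL :=
  atLift _ (Sum.elim (fun _ => 0) fun l => atomsL.g l)
/-- `M k → I k`, the linear retraction -/
def retI (k : Bool) : At (atomsM k) →L[ℂ] At (atomsI k) :=
  atLift _ (Sum.elim (fun p => (atomsI k).g p) fun _ => 0)

@[simp] lemma incI_g (k : Bool) (p : ℕ × ℕ) : incI k ((atomsI k).g p) = (atomsI true).g p :=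
  atIncl_g (atomsI_le k) p
@[simp] lemma incM_g (k : Bool) (b : BB) : incM k ((atomsM k).g b) = (atomsM true).g b :=
  atIncl_g (atomsM_le k) b
@[simp] lemma inM_g (k : Bool) (p : ℕ × ℕ) :
    inM k ((atomsI k).g p) = (atomsM k).g (.inl p) :=
  atLift_g ⟨1, fun s hs => by
    rw [← lc_mapDomain Sum.inl (atomsM k).g]
    exact norm_atom_le (Or.inl ⟨_, hs, rfl⟩)⟩ p
@[simp] lemma secL_g (k : Bool) (l : ℕ) : secL k (atomsL.g l) = (atomsM k).g (.inr l) :=
  atLift_g ⟨1, fun s hs => by
    rw [← lc_mapDomain Sum.inr (atomsM k).g]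
    exact norm_atom_le (Or.inr ⟨_, hs, rfl⟩)⟩ l

lemma prL_bdd (k : Bool) : ∀ s ∈ (atomsM k).S,
    ‖lc (Sum.elim (fun _ => (0 : At atomsL)) fun l => atomsL.g l) s‖ ≤ 1 :=
  sum_bdd (fun s _ => by simp [lc, Finsupp.linearCombination_apply]) fun s hs => norm_atom_le hs

lemma retI_bdd (k : Bool) : ∀ s ∈ (atomsM k).S,
    ‖lc (Sum.elim (fun p => (atomsI k).g p) fun _ => (0 : At (atomsI k))) s‖ ≤ 1 :=
  sum_bdd (fun s hs => norm_atom_le hs) fun s _ => by simp [lc, Finsupp.linearCombination_apply]

@[simp] lemma prL_inl (k : Bool) (p : ℕ × ℕ) : prL k ((atomsM k).g (.inl p)) = 0 :=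
  atLift_g ⟨1, prL_bdd k⟩ _
@[simp] lemma prL_inr (k : Bool) (l : ℕ) : prL k ((atomsM k).g (.inr l)) = atomsL.g l :=
  atLift_g ⟨1, prL_bdd k⟩ _
@[simp] lemma retI_inl (k : Bool) (p : ℕ × ℕ) :
    retI k ((atomsM k).g (.inl p)) = (atomsI k).g p := atLift_g ⟨1, retI_bdd k⟩ _
@[simp] lemma retI_inr (k : Bool) (l : ℕ) : retI k ((atomsM k).g (.inr l)) = 0 :=
  atLift_g ⟨1, retI_bdd k⟩ _

/-- a morphism between modules with bilinear actions can be checked on the bases -/
lemma hom_of_basis {B' : Type} {A' : Atoms B'} {V : Type} [NormedAddCommGroup V]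
    [NormedSpace ℂ V] (α : MAlg →L[ℂ] At A' →L[ℂ] At A') (β : MAlg →L[ℂ] V →L[ℂ] V)
    (f : At A' →L[ℂ] V) (h : ∀ b b', f (α ((atomsM true).g b) (A'.g b')) =
      β ((atomsM true).g b) (f (A'.g b'))) (a : MAlg) (x : At A') : f (α a x) = β a (f x) := by
  have h1 : (ContinuousLinearMap.compL ℂ (At A') (At A') V f) ∘L α =
      (ContinuousLinearMap.compL ℂ (At A') V V).flip f ∘L β := by
    refine gen_ext fun b => gen_ext fun b' => ?_
    exact h b b'
  have h2 := congrArg (fun F => F a x) h1
  exact h2

lemma incI_act (k : Bool) (a : MAlg) (x : At (atomsI k)) :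
    incI k (actI true k a x) = actI true true a (incI k x) :=
  hom_of_basis (actI true k) (actI true true) (incI k) (fun b p => by
    rw [actI_g, incI_g, actI_g]; cases bactI b p <;> simp) a x

lemma incM_act (k : Bool) (a : MAlg) (x : At (atomsM k)) :
    incM k (actM true k a x) = actM true true a (incM k x) :=
  hom_of_basis (actM true k) (actM true true) (incM k) (fun b p => by
    rw [actM_g, incM_g, actM_g]; cases bmul b p <;> simp) a x

lemma inM_act (k : Bool) (a : MAlg) (x : At (atomsI k)) :
    inM k (actI true k a x) = actM true k a (inM k x) :=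
  hom_of_basis (actI true k) (actM true k) (inM k) (fun b p => by
    rw [actI_g, inM_g, actM_g]
    rcases b with q | l <;> simp only [bactI, bmul] <;> split_ifs <;> simp) a x

lemma prL_act (k : Bool) (a : MAlg) (x : At (atomsM k)) :
    prL k (actM true k a x) = actL true a (prL k x) :=
  hom_of_basis (actM true k) (actL true) (prL k) (fun b p => by
    rw [actM_g]
    rcases b with q | l <;> rcases p with p | m <;> simp only [bmul] <;> split_ifs <;>
      simp_all [bactL]) a x

lemma incI_hom (k : Bool) : IsHom (modI k) (modI true) (incI k) := incI_act k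
lemma incM_hom (k : Bool) : IsHom (modM k) (modM true) (incM k) := incM_act k
lemma inM_hom (k : Bool) : IsHom (modI k) (modM k) (inM k) := inM_act k
lemma prL_hom (k : Bool) : IsHom (modM k) modL (prL k) := prL_act k

/-- the sequence `I k → M k → L` -/
lemma SES_L (k : Bool) : SES (modI k) (modM k) modL (inM k) (prL k) where
  jhom := inM_hom k
  πhom := prL_hom k
  split := by
    refine ⟨retI k, secL k, fun x => ?_, fun x => ?_, fun x => ?_, fun x => ?_⟩
    · exact at_eq (retI k ∘L inM k) (.id ℂ _) (fun b => by simp) x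
    · exact at_eq (prL k ∘L secL k) (.id ℂ _) (fun b => by simp) x
    · exact at_eq (inM k ∘L retI k + secL k ∘L prL k) (.id ℂ _) (fun b => by
        rcases b with p | l <;> simp) x
    · exact at_eq (prL k ∘L inM k) 0 (fun b => by simp) x

/-- the module `P₁ = M' × I` -/
abbrev modP : OpMod MAlg := prodMod (modM false) (modI true)

/-- `j : I' → P₁`, `f ↦ (f, -f)` -/
def jj : At (atomsI false) →L[ℂ] At (atomsM false) × At (atomsI true) :=
  (inM false).prod (-(incI false))

/-- `π : P₁ → M`, `(F, g) ↦ F + g` -/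
def pp : At (atomsM false) × At (atomsI true) →L[ℂ] MAlg :=
  (incM false).coprod (inM true)

/-- linear retraction of `j` -/
def tt : At (atomsM false) × At (atomsI true) →L[ℂ] At (atomsI false) :=
  retI false ∘L ContinuousLinearMap.fst ℂ _ _

/-- linear section of `π` -/
def ss : MAlg →L[ℂ] At (atomsM false) × At (atomsI true) :=
  (secL false ∘L prL true).prod (retI true)

lemma jj_apply (x : At (atomsI false)) : jj x = (inM false x, -(incI false x)) := rfl
lemma pp_apply (x : At (atomsM false)) (y : At (atomsI true)) :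
    pp (x, y) = incM false x + inM true y := by
  rw [pp, ContinuousLinearMap.coprod_apply]
lemma tt_apply (x : At (atomsM false)) (y : At (atomsI true)) : tt (x, y) = retI false x := rfl
lemma ss_apply (a : MAlg) : ss a = (secL false (prL true a), retI true a) := rfl

lemma jj_hom : IsHom (modI false) modP jj := fun a x => by
  change (inM false (actI true false a x), -(incI false (actI true false a x))) =
    (actM true false a (inM false x), actI true true a (-(incI false x)))
  rw [inM_act false a x, incI_act false a x, map_neg]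

lemma pp_hom : IsHom modP (modM true) pp := fun a x => by
  obtain ⟨x, y⟩ := x
  change pp (actM true false a x, actI true true a y) = actM true true a (pp (x, y))
  rw [pp_apply, pp_apply, incM_act false a x, inM_act true a y, map_add]

/-- the sequence `I' → P₁ → M` -/
lemma SES_M : SES (modI false) modP (modM true) jj pp where
  jhom := jj_hom
  πhom := pp_hom
  split := by
    refine ⟨tt, ss, fun x => ?_, fun x => ?_, fun x => ?_, fun x => ?_⟩
    · exact at_eq (tt ∘L jj) (.id ℂ _) (fun b => by simp [jj_apply, tt_apply]) x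
    · exact at_eq (pp ∘L ss) (.id ℂ _) (fun b => by
        rcases b with p | l <;> simp [ss_apply, pp_apply]) x
    · obtain ⟨x, y⟩ := x
      have h1 := at_eq (inM false ∘L retI false + secL false ∘L prL true ∘L incM false)
        (.id ℂ _) (fun b => by rcases b with p | l <;> simp) x
      have h2 := at_eq (secL false ∘L prL true ∘L inM true) 0 (fun b => by simp) y
      have h3 := at_eq (-(incI false ∘L retI false) + retI true ∘L incM false)
        0 (fun b => by rcases b with p | l <;> simp) x
      have h4 := at_eq (retI true ∘L inM true) (.id ℂ _) (fun b => by simp) y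
      simp only [add_apply, ContinuousLinearMap.comp_apply, ContinuousLinearMap.id_apply,
        zero_apply, neg_apply] at h1 h2 h3 h4
      change jj (tt (x, y)) + ss (pp (x, y)) = (x, y)
      rw [tt_apply, jj_apply, pp_apply, ss_apply]
      simp only [map_add, Prod.mk_add_mk, h2, h4, add_zero]
      rw [h1, ← add_assoc, h3, zero_add]
    · exact at_eq (pp ∘L jj) 0 (fun b => by simp [jj_apply, pp_apply]) x

end

end Pool.Agent.Lib.MP_1618a1_an
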