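import Pool.Agent.Lib.MP_1618a1_an.Gen

/-!
# The projective tensor product of two Banach spaces
-/

set_option autoImplicit false

namespace Pool.Agent.Lib.MP_1618a1_an

noncomputable section

/-- the test functions on `E × F`: bounded bilinear forms of norm `≤ 1` -/
def tenTest (E F : Type) [NormedAddCommGroup E] [NormedSpace ℂ E] [NormedAddCommGroup F]
    [NormedSpace ℂ F] : Test (E × F) where
  W := {f | ∃ β : E →L[ℂ] F →L[ℂ] ℂ, ‖β‖ ≤ 1 ∧ ∀ p, f p = β p.1 p.2}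
  bdd p := ⟨‖p.1‖ * ‖p.2‖, by
    rintro _ ⟨β, hβ, h⟩
    rw [h]
    calc ‖β p.1 p.2‖ ≤ ‖β‖ * ‖p.1‖ * ‖p.2‖ := β.le_opNorm₂ _ _
      _ ≤ 1 * ‖p.1‖ * ‖p.2‖ := by gcongr
      _ = _ := by ring⟩

variable {E F G : Type} [NormedAddCommGroup E] [NormedSpace ℂ E] [NormedAddCommGroup F]
    [NormedSpace ℂ F] [NormedAddCommGroup G] [NormedSpace ℂ G]
variable {E' F' : Type} [NormedAddCommGroup E'] [NormedSpace ℂ E'] [NormedAddCommGroup F']
    [NormedSpace ℂ F']
variable {E'' F'' : Type} [NormedAddCommGroup E''] [NormedSpace ℂ E''] [NormedAddCommGroup F'']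
    [NormedSpace ℂ F'']

/-- the projective tensor product -/
abbrev Ten (E F : Type) [NormedAddCommGroup E] [NormedSpace ℂ E] [NormedAddCommGroup F]
    [NormedSpace ℂ F] : Type := GenSp (tenTest E F)

/-- elementary tensors -/
def tmk (x : E) (y : F) : Ten E F := gen (tenTest E F) (x, y)

lemma tmk_eq_lc (x : E) (y : F) :
    tmk x y = lc (gen (tenTest E F)) (Finsupp.single (x, y) 1) := by simp [tmk]

lemma ten_lc_zero {u : (E × F) →₀ ℂ}
    (h : ∀ β : E →L[ℂ] F →L[ℂ] ℂ, lc (fun p : E × F => β p.1 p.2) u = 0) :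
    lc (gen (tenTest E F)) u = 0 := by
  have : ‖lc (gen (tenTest E F)) u‖ ≤ 0 := by
    refine norm_lc_gen_le le_rfl ?_
    rintro f ⟨β, -, hf⟩
    have : f = fun p : E × F => β p.1 p.2 := funext hf
    rw [this, h β, norm_zero]
  simpa using this

lemma tmk_add_left (x x' : E) (y : F) : tmk (x + x') y = tmk x y + tmk x' y := by
  have := ten_lc_zero (E := E) (F := F) (u := Finsupp.single (x + x', y) 1 -
    Finsupp.single (x, y) 1 - Finsupp.single (x', y) 1) (fun β => by simp [lc, map_sub])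
  rw [← sub_eq_zero, tmk_eq_lc, tmk_eq_lc, tmk_eq_lc, ← this]
  simp only [lc, map_sub]
  abel

lemma tmk_add_right (x : E) (y y' : F) : tmk x (y + y') = tmk x y + tmk x y' := by
  have := ten_lc_zero (E := E) (F := F) (u := Finsupp.single (x, y + y') 1 -
    Finsupp.single (x, y) 1 - Finsupp.single (x, y') 1) (fun β => by simp [lc, map_sub])
  rw [← sub_eq_zero, tmk_eq_lc, tmk_eq_lc, tmk_eq_lc, ← this]
  simp only [lc, map_sub]
  abel

lemma tmk_smul_left (c : ℂ) (x : E) (y : F) : tmk (c • x) y = c • tmk x y := by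
  have := ten_lc_zero (E := E) (F := F) (u := Finsupp.single (c • x, y) 1 -
    c • Finsupp.single (x, y) 1) (fun β => by simp [lc, map_sub])
  rw [← sub_eq_zero, tmk_eq_lc, tmk_eq_lc, ← this]
  simp only [lc, map_sub, map_smul]

lemma tmk_smul_right (c : ℂ) (x : E) (y : F) : tmk x (c • y) = c • tmk x y := by
  have := ten_lc_zero (E := E) (F := F) (u := Finsupp.single (x, c • y) 1 -
    c • Finsupp.single (x, y) 1) (fun β => by simp [lc, map_sub])
  rw [← sub_eq_zero, tmk_eq_lc, tmk_eq_lc, ← this]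
  simp only [lc, map_sub, map_smul]

lemma norm_tmk_le (x : E) (y : F) : ‖tmk x y‖ ≤ ‖x‖ * ‖y‖ := by
  rw [tmk_eq_lc]
  refine norm_lc_gen_le (by positivity) ?_
  rintro f ⟨β, hβ, hf⟩
  have : lc f (Finsupp.single (x, y) 1) = β x y := by simp [lc, hf]
  rw [this]
  calc ‖β x y‖ ≤ ‖β‖ * ‖x‖ * ‖y‖ := β.le_opNorm₂ _ _
    _ ≤ 1 * ‖x‖ * ‖y‖ := by gcongr
    _ = _ := by ring

/-- elementary tensors as a bounded bilinear map -/
def tmkL : E →L[ℂ] F →L[ℂ] Ten E F :=
  LinearMap.mkContinuous₂ (LinearMap.mk₂ ℂ tmk tmk_add_left tmk_smul_left tmk_add_right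
    tmk_smul_right) 1 (fun x y => by simpa using norm_tmk_le x y)

@[simp] lemma tmkL_apply (x : E) (y : F) : tmkL x y = tmk x y := rfl

@[simp] lemma tmk_zero_left (y : F) : tmk (0 : E) y = 0 := by
  rw [← tmkL_apply]; simp

@[simp] lemma tmk_zero_right (x : E) : tmk x (0 : F) = 0 := by
  rw [← tmkL_apply, map_zero]

/-- two bounded linear maps that agree on elementary tensors are equal -/
lemma ten_ext {f g : Ten E F →L[ℂ] G} (h : ∀ x y, f (tmk x y) = g (tmk x y)) : f = g :=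
  gen_ext (T := tenTest E F) fun p => h p.1 p.2

lemma ten_ind {p : Ten E F → Prop} (hc : IsClosed {x | p x}) (h0 : p 0)
    (hadd : ∀ x y, p x → p y → p (x + y)) (hsmul : ∀ (c : ℂ) x, p x → p (c • x))
    (hgen : ∀ x y, p (tmk x y)) (x : Ten E F) : p x :=
  gen_ind (T := tenTest E F) hc h0 hadd hsmul (fun b => hgen b.1 b.2) x

lemma ten_bound (β : E →L[ℂ] F →L[ℂ] G) (u : (E × F) →₀ ℂ) :
    ‖lc (fun p : E × F => β p.1 p.2) u‖ ≤ ‖β‖ * ‖lc (gen (tenTest E F)) u‖ := by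
  rcases (norm_nonneg β).eq_or_lt with h0 | h0
  · have hz : ∀ x y, β x y = 0 := fun x y => by
      have := β.le_opNorm₂ x y
      rw [← h0] at this
      simpa using this
    have h2 : lc (fun p : E × F => β p.1 p.2) u = 0 := by
      simp [lc, Finsupp.linearCombination_apply, hz]
    rw [h2, norm_zero]
    positivity
  · refine bound_of_dual (T := tenTest E F) (C := ‖β‖) (fun φ hφ => ?_) h0.le u
    have hc : ((‖β‖ : ℝ) : ℂ) ≠ 0 := by exact_mod_cast h0.ne'
    refine ⟨fun p => φ (β p.1 p.2) / ‖β‖, ?_, fun p => ?_⟩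
    · refine ⟨(ContinuousLinearMap.compL ℂ F G ℂ (((‖β‖ : ℂ)⁻¹) • φ)).comp β, ?_, fun p => ?_⟩
      · refine ContinuousLinearMap.opNorm_le_bound₂ _ zero_le_one fun x y => ?_
        change ‖(‖β‖ : ℂ)⁻¹ * φ (β x y)‖ ≤ _
        rw [norm_mul, norm_inv]
        have : ‖((‖β‖ : ℝ) : ℂ)‖ = ‖β‖ := by rw [Complex.norm_real, Real.norm_of_nonneg h0.le]
        rw [this]
        rw [inv_mul_le_iff₀ h0]
        calc ‖φ (β x y)‖ ≤ ‖φ‖ * ‖β x y‖ := φ.le_opNorm _
          _ ≤ 1 * (‖β‖ * ‖x‖ * ‖y‖) :=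
            mul_le_mul hφ (β.le_opNorm₂ x y) (norm_nonneg _) zero_le_one
          _ = _ := by ring
      · change _ = (‖β‖ : ℂ)⁻¹ * φ (β p.1 p.2)
        field_simp
    · field_simp

variable [CompleteSpace G]

/-- the linear map induced by a bounded bilinear map -/
def tlift (β : E →L[ℂ] F →L[ℂ] G) : Ten E F →L[ℂ] G :=
  genLift (tenTest E F) (fun p => β p.1 p.2)

@[simp] lemma tlift_tmk (β : E →L[ℂ] F →L[ℂ] G) (x : E) (y : F) : tlift β (tmk x y) = β x y :=
  genLift_gen ⟨‖β‖, ten_bound β⟩ (x, y)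

lemma norm_tlift_le (β : E →L[ℂ] F →L[ℂ] G) : ‖tlift β‖ ≤ ‖β‖ :=
  norm_genLift_le (norm_nonneg β) (ten_bound β)

/-- `tlift` as a bounded linear map -/
def tliftL (E F G : Type) [NormedAddCommGroup E] [NormedSpace ℂ E] [NormedAddCommGroup F]
    [NormedSpace ℂ F] [NormedAddCommGroup G] [NormedSpace ℂ G] [CompleteSpace G] :
    (E →L[ℂ] F →L[ℂ] G) →L[ℂ] (Ten E F →L[ℂ] G) :=
  LinearMap.mkContinuous
    { toFun := fun β => tlift (G := G) β
      map_add' := fun β γ => ten_ext fun x y => by simp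
      map_smul' := fun c β => ten_ext fun x y => by simp } 1 (fun β => by
        rw [one_mul]; exact norm_tlift_le β)

@[simp] lemma tliftL_apply (β : E →L[ℂ] F →L[ℂ] G) : tliftL E F G β = tlift β := rfl

/-- functoriality of the tensor product -/
def tmap (f : E →L[ℂ] E') (g : F →L[ℂ] F') : Ten E F →L[ℂ] Ten E' F' :=
  tlift ((ContinuousLinearMap.compL ℂ F F' (Ten E' F')).flip g ∘L (tmkL ∘L f))

@[simp] lemma tmap_tmk (f : E →L[ℂ] E') (g : F →L[ℂ] F') (x : E) (y : F) :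
    tmap f g (tmk x y) = tmk (f x) (g y) := by
  rw [tmap, tlift_tmk]; rfl

lemma norm_tmap_le (f : E →L[ℂ] E') (g : F →L[ℂ] F') : ‖tmap f g‖ ≤ ‖f‖ * ‖g‖ := by
  refine (norm_tlift_le _).trans ?_
  refine ContinuousLinearMap.opNorm_le_bound₂ _ (by positivity) fun x y => ?_
  change ‖tmk (f x) (g y)‖ ≤ _
  calc ‖tmk (f x) (g y)‖ ≤ ‖f x‖ * ‖g y‖ := norm_tmk_le _ _
    _ ≤ (‖f‖ * ‖x‖) * (‖g‖ * ‖y‖) := by gcongr <;> exact ContinuousLinearMap.le_opNorm _ _
    _ = _ := by ring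

lemma tmap_comp (f : E →L[ℂ] E') (g : F →L[ℂ] F') (f' : E' →L[ℂ] E'') (g' : F' →L[ℂ] F'') :
    tmap (f' ∘L f) (g' ∘L g) = tmap f' g' ∘L tmap f g := ten_ext fun x y => by simp

lemma tmap_comp_apply (f : E →L[ℂ] E') (g : F →L[ℂ] F') (f' : E' →L[ℂ] E'') (g' : F' →L[ℂ] F'')
    (u : Ten E F) : tmap f' g' (tmap f g u) = tmap (f' ∘L f) (g' ∘L g) u := by
  rw [tmap_comp]; rfl

@[simp] lemma tmap_id : tmap (.id ℂ E) (.id ℂ F) = .id ℂ (Ten E F) := ten_ext fun x y => by simp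

lemma tmap_add_left (f f' : E →L[ℂ] E') (g : F →L[ℂ] F') :
    tmap (f + f') g = tmap f g + tmap f' g := ten_ext fun x y => by simp [tmk_add_left]

lemma tmap_add_right (f : E →L[ℂ] E') (g g' : F →L[ℂ] F') :
    tmap f (g + g') = tmap f g + tmap f g' := ten_ext fun x y => by simp [tmk_add_right]

lemma tmap_smul_left (c : ℂ) (f : E →L[ℂ] E') (g : F →L[ℂ] F') :
    tmap (c • f) g = c • tmap f g := ten_ext fun x y => by simp [tmk_smul_left]

lemma tmap_smul_right (c : ℂ) (f : E →L[ℂ] E') (g : F →L[ℂ] F') :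
    tmap f (c • g) = c • tmap f g := ten_ext fun x y => by simp [tmk_smul_right]

@[simp] lemma tmap_zero_left (g : F →L[ℂ] F') : tmap (0 : E →L[ℂ] E') g = 0 :=
  ten_ext fun x y => by simp

@[simp] lemma tmap_zero_right (f : E →L[ℂ] E') : tmap f (0 : F →L[ℂ] F') = 0 :=
  ten_ext fun x y => by simp

end

end Pool.Agent.Lib.MP_1618a1_an
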