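import Pool.Agent.Lib.MP_1618a1_an.Theory1
import Pool.Agent.Lib.MP_1618a1_an.Ten

/-!
# Left modules and bimodules over a commutative Banach algebra; tensor products
-/

set_option autoImplicit false

namespace Pool.Agent.Lib.MP_1618a1_an

noncomputable section

variable {A : Type} [NonUnitalNormedCommRing A] [NormedSpace ℂ A]

/-! ### identities for maps of tensor products of Banach spaces -/

section raw

variable {K P X K' P' X' F : Type} [NormedAddCommGroup K] [NormedSpace ℂ K]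
  [NormedAddCommGroup P] [NormedSpace ℂ P] [NormedAddCommGroup X] [NormedSpace ℂ X]
  [NormedAddCommGroup K'] [NormedSpace ℂ K'] [NormedAddCommGroup P'] [NormedSpace ℂ P']
  [NormedAddCommGroup X'] [NormedSpace ℂ X'] [NormedAddCommGroup F] [NormedSpace ℂ F]
  {t : P →L[ℂ] K} {j : K →L[ℂ] P} {s : X →L[ℂ] P} {π : P →L[ℂ] X}
  {t' : P' →L[ℂ] K'} {j' : K' →L[ℂ] P'} {s' : X' →L[ℂ] P'} {π' : P' →L[ℂ] X'}

lemma raw_left_one (h : t ∘L j = .id ℂ K) (x : Ten K F) :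
    tmap t (.id ℂ F) (tmap j (.id ℂ F) x) = x := by
  rw [tmap_comp_apply, h, ContinuousLinearMap.id_comp, tmap_id]
  rfl

lemma raw_right_one (h : t ∘L j = .id ℂ K) (x : Ten F K) :
    tmap (.id ℂ F) t (tmap (.id ℂ F) j x) = x := by
  rw [tmap_comp_apply, h, ContinuousLinearMap.id_comp, tmap_id]
  rfl

lemma raw_left_add (h : j ∘L t + s ∘L π = .id ℂ P) (x : Ten P F) :
    tmap j (.id ℂ F) (tmap t (.id ℂ F) x) + tmap s (.id ℂ F) (tmap π (.id ℂ F) x) = x := by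
  rw [tmap_comp_apply, tmap_comp_apply, ContinuousLinearMap.id_comp,
    ← add_apply, ← tmap_add_left, h, tmap_id]
  rfl

lemma raw_right_add (h : j ∘L t + s ∘L π = .id ℂ P) (x : Ten F P) :
    tmap (.id ℂ F) j (tmap (.id ℂ F) t x) + tmap (.id ℂ F) s (tmap (.id ℂ F) π x) = x := by
  rw [tmap_comp_apply, tmap_comp_apply, ContinuousLinearMap.id_comp,
    ← add_apply, ← tmap_add_right, h, tmap_id]
  rfl

lemma raw_left_zero (h : π ∘L j = 0) (x : Ten K F) :
    tmap π (.id ℂ F) (tmap j (.id ℂ F) x) = 0 := by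
  rw [tmap_comp_apply, h, tmap_zero_left]
  rfl

lemma raw_right_zero (h : π ∘L j = 0) (x : Ten F K) :
    tmap (.id ℂ F) π (tmap (.id ℂ F) j x) = 0 := by
  rw [tmap_comp_apply, h, tmap_zero_right]
  rfl

lemma raw_section (h2 : π ∘L s = .id ℂ X) (h2' : π' ∘L s' = .id ℂ X') (x : Ten X X') :
    tmap π π' (tmap s s' x) = x := by
  rw [tmap_comp_apply, h2, h2', tmap_id]
  rfl

lemma raw_ker (h4 : π ∘L j = 0) (h4' : π' ∘L j' = 0) (v : Ten K P') (w : Ten P K') :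
    tmap π π' (tmap j (.id ℂ P') v + tmap (.id ℂ P) j' w) = 0 := by
  rw [map_add, tmap_comp_apply, tmap_comp_apply, h4, h4', tmap_zero_left, tmap_zero_right]
  simp

lemma raw_q_section (h3 : j ∘L t + s ∘L π = .id ℂ P) (h3' : j' ∘L t' + s' ∘L π' = .id ℂ P')
    (x : Ten P P') (hx : tmap π π' x = 0) :
    tmap j (.id ℂ P') (tmap t (.id ℂ P') x) + tmap (.id ℂ P) j' (tmap (s ∘L π) t' x) = x := by
  rw [tmap_comp_apply, tmap_comp_apply, ContinuousLinearMap.id_comp,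
    ContinuousLinearMap.id_comp]
  have e1 : tmap (s ∘L π) (j' ∘L t') x = tmap (s ∘L π) (.id ℂ P') x := by
    have e2 : tmap (s ∘L π) (s' ∘L π') x = 0 := by
      rw [← tmap_comp_apply, hx, map_zero]
    have e3 : tmap (s ∘L π) (.id ℂ P') x =
        tmap (s ∘L π) (j' ∘L t') x + tmap (s ∘L π) (s' ∘L π') x := by
      rw [← add_apply, ← tmap_add_right, h3']
    rw [e3, e2, add_zero]
  rw [e1, ← add_apply, ← tmap_add_left, h3, tmap_id]
  rfl

lemma raw_fst (h1 : t ∘L j = .id ℂ K) (v : Ten K P') (w : Ten P K') :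
    tmap (.id ℂ K) j' (-(tmap t (.id ℂ K') w)) +
      tmap t (.id ℂ P') (tmap j (.id ℂ P') v + tmap (.id ℂ P) j' w) = v := by
  have a1 : tmap (.id ℂ K) j' (tmap t (.id ℂ K') w) = tmap t j' w := by
    rw [tmap_comp_apply]
    rfl
  have a2 : tmap t (.id ℂ P') (tmap (.id ℂ P) j' w) = tmap t j' w := by
    rw [tmap_comp_apply]
    rfl
  rw [map_neg, map_add, a1, a2, raw_left_one h1]
  abel

lemma raw_snd (h1' : t' ∘L j' = .id ℂ K') (h3 : j ∘L t + s ∘L π = .id ℂ P) (h4 : π ∘L j = 0)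
    (v : Ten K P') (w : Ten P K') :
    -(tmap j (.id ℂ K') (-(tmap t (.id ℂ K') w))) +
      tmap (s ∘L π) t' (tmap j (.id ℂ P') v + tmap (.id ℂ P) j' w) = w := by
  have a4 : tmap (s ∘L π) t' (tmap j (.id ℂ P') v) = 0 := by
    rw [tmap_comp_apply, ContinuousLinearMap.comp_assoc, h4, ContinuousLinearMap.comp_zero,
      tmap_zero_left]
    rfl
  have a5 : tmap (s ∘L π) t' (tmap (.id ℂ P) j' w) = tmap (s ∘L π) (.id ℂ K') w := by
    rw [tmap_comp_apply, h1']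
    rfl
  have a6 : tmap j (.id ℂ K') (tmap t (.id ℂ K') w) = tmap (j ∘L t) (.id ℂ K') w := by
    rw [tmap_comp_apply]
    rfl
  rw [map_neg, neg_neg, map_add, a4, a5, a6, zero_add, ← add_apply,
    ← tmap_add_left, h3, tmap_id]
  rfl

lemma raw_qΘ (x : Ten K K') : tmap j (.id ℂ P') (tmap (.id ℂ K) j' x) +
    tmap (.id ℂ P) j' (-(tmap j (.id ℂ K') x)) = 0 := by
  rw [map_neg, tmap_comp_apply, tmap_comp_apply, ContinuousLinearMap.id_comp,
    ContinuousLinearMap.id_comp, ContinuousLinearMap.comp_id, ContinuousLinearMap.comp_id,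
    add_neg_cancel]

end raw

/-! ### constructions -/

/-- the left module `X ⊗ E` (`E` a Banach space) -/
def tenS (X : OpMod A) (E : Type) [NormedAddCommGroup E] [NormedSpace ℂ E] : OpMod A where
  V := Ten X.V E
  act a := tmap (X.act a) (.id ℂ E)

/-- the bimodule `X ⊗ Y` of two left modules (`A` is commutative) -/
def tenB (X Y : OpMod A) : OpMod (A ⊕ A) where
  V := Ten X.V Y.V
  act := Sum.elim (fun a => tmap (X.act a) (.id ℂ Y.V)) (fun a => tmap (.id ℂ X.V) (Y.act a))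

/-- a left module as a symmetric bimodule -/
def sym (X : OpMod A) : OpMod (A ⊕ A) where
  V := X.V
  act := Sum.elim X.act X.act

section

variable {X Y X' Y' K P Q : OpMod A} {E E' : Type} [NormedAddCommGroup E] [NormedSpace ℂ E]
  [NormedAddCommGroup E'] [NormedSpace ℂ E']

lemma act_norm_le (hX : IsLeft A X) :
    ∃ C : ℝ, 0 ≤ C ∧ ∀ a, ‖X.act a‖ ≤ C * ‖a‖ := by
  obtain ⟨C, hC⟩ := hX.bdd
  refine ⟨max C 0, le_max_right _ _, fun a => ?_⟩
  refine ContinuousLinearMap.opNorm_le_bound _ (by positivity) fun x => (hC a x).trans ?_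
  have h1 : C ≤ max C 0 := le_max_left _ _
  gcongr

lemma act_add_eq (hX : IsLeft A X) (a b : A) : X.act (a + b) = X.act a + X.act b :=
  ContinuousLinearMap.ext fun x => hX.add a b x

lemma act_smul_eq (hX : IsLeft A X) (c : ℂ) (a : A) : X.act (c • a) = c • X.act a :=
  ContinuousLinearMap.ext fun x => hX.smul c a x

lemma act_mul_eq (hX : IsLeft A X) (a b : A) : X.act (a * b) = X.act a ∘L X.act b :=
  ContinuousLinearMap.ext fun x => hX.mul a b x

lemma tmap_bdd_left (hX : IsLeft A X) : ∃ C : ℝ, ∀ (a : A) (u : Ten X.V E),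
    ‖tmap (X.act a) (.id ℂ E) u‖ ≤ C * ‖a‖ * ‖u‖ := by
  obtain ⟨C, hC0, hC⟩ := act_norm_le hX
  refine ⟨C, fun a u => ?_⟩
  calc ‖tmap (X.act a) (.id ℂ E) u‖ ≤ ‖tmap (X.act a) (.id ℂ E)‖ * ‖u‖ :=
        ContinuousLinearMap.le_opNorm _ _
    _ ≤ (‖X.act a‖ * ‖ContinuousLinearMap.id ℂ E‖) * ‖u‖ :=
        mul_le_mul_of_nonneg_right (norm_tmap_le _ _) (norm_nonneg _)
    _ ≤ ((C * ‖a‖) * 1) * ‖u‖ := by
        refine mul_le_mul_of_nonneg_right ?_ (norm_nonneg _)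
        exact mul_le_mul (hC a) ContinuousLinearMap.norm_id_le (norm_nonneg _) (by positivity)
    _ = _ := by ring

lemma tmap_bdd_right (hX : IsLeft A X) : ∃ C : ℝ, ∀ (a : A) (u : Ten E X.V),
    ‖tmap (.id ℂ E) (X.act a) u‖ ≤ C * ‖a‖ * ‖u‖ := by
  obtain ⟨C, hC0, hC⟩ := act_norm_le hX
  refine ⟨C, fun a u => ?_⟩
  calc ‖tmap (.id ℂ E) (X.act a) u‖ ≤ ‖tmap (.id ℂ E) (X.act a)‖ * ‖u‖ :=
        ContinuousLinearMap.le_opNorm _ _
    _ ≤ (‖ContinuousLinearMap.id ℂ E‖ * ‖X.act a‖) * ‖u‖ :=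
        mul_le_mul_of_nonneg_right (norm_tmap_le _ _) (norm_nonneg _)
    _ ≤ (1 * (C * ‖a‖)) * ‖u‖ := by
        refine mul_le_mul_of_nonneg_right ?_ (norm_nonneg _)
        exact mul_le_mul ContinuousLinearMap.norm_id_le (hC a) (norm_nonneg _) zero_le_one
    _ = _ := by ring

lemma tenS_left (hX : IsLeft A X) : IsLeft A (tenS X E) where
  add a b x := by
    change tmap (X.act (a + b)) (.id ℂ E) x = _
    rw [act_add_eq hX, tmap_add_left]
    rfl
  smul c a x := by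
    change tmap (X.act (c • a)) (.id ℂ E) x = _
    rw [act_smul_eq hX, tmap_smul_left]
    rfl
  mul a b x := by
    change tmap (X.act (a * b)) (.id ℂ E) x = tmap (X.act a) (.id ℂ E) (tmap (X.act b) (.id ℂ E) x)
    rw [act_mul_eq hX, tmap_comp_apply]
    rfl
  bdd := tmap_bdd_left hX

lemma tenB_bi (hX : IsLeft A X) (hY : IsLeft A Y) : IsBi A (tenB X Y) where
  ladd a b x := by
    change tmap (X.act (a + b)) (.id ℂ Y.V) x = _
    rw [act_add_eq hX, tmap_add_left]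
    rfl
  lsmul c a x := by
    change tmap (X.act (c • a)) (.id ℂ Y.V) x = _
    rw [act_smul_eq hX, tmap_smul_left]
    rfl
  lmul a b x := by
    change tmap (X.act (a * b)) (.id ℂ Y.V) x =
      tmap (X.act a) (.id ℂ Y.V) (tmap (X.act b) (.id ℂ Y.V) x)
    rw [act_mul_eq hX, tmap_comp_apply]
    rfl
  lbdd := tmap_bdd_left hX
  radd a b x := by
    change tmap (.id ℂ X.V) (Y.act (a + b)) x = _
    rw [act_add_eq hY, tmap_add_right]
    rfl
  rsmul c a x := by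
    change tmap (.id ℂ X.V) (Y.act (c • a)) x = _
    rw [act_smul_eq hY, tmap_smul_right]
    rfl
  rmul a b x := by
    change tmap (.id ℂ X.V) (Y.act (a * b)) x =
      tmap (.id ℂ X.V) (Y.act b) (tmap (.id ℂ X.V) (Y.act a) x)
    rw [mul_comm a b, act_mul_eq hY, tmap_comp_apply]
    rfl
  rbdd := tmap_bdd_right hY
  comm a b x := by
    change tmap (X.act a) (.id ℂ Y.V) (tmap (.id ℂ X.V) (Y.act b) x) =
      tmap (.id ℂ X.V) (Y.act b) (tmap (X.act a) (.id ℂ Y.V) x)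
    rw [tmap_comp_apply, tmap_comp_apply]
    rfl

lemma sym_bi (hX : IsLeft A X) : IsBi A (sym X) where
  ladd := hX.add
  lsmul := hX.smul
  lmul := hX.mul
  lbdd := hX.bdd
  radd := hX.add
  rsmul := hX.smul
  rmul a b x := by
    change X.act (a * b) x = X.act b (X.act a x)
    rw [mul_comm a b, hX.mul]
  rbdd := hX.bdd
  comm a b x := by
    change X.act a (X.act b x) = X.act b (X.act a x)
    rw [← hX.mul, ← hX.mul, mul_comm]

lemma hom_comp {f : X.V →L[ℂ] Y.V} (hf : IsHom X Y f) (a : A) :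
    f ∘L X.act a = Y.act a ∘L f := ContinuousLinearMap.ext fun x => hf a x

lemma IsHom.tenS {f : X.V →L[ℂ] Y.V} (hf : IsHom X Y f) (g : E →L[ℂ] E') :
    IsHom (tenS X E) (tenS Y E') (tmap f g) := by
  intro o x
  change tmap f g (tmap (X.act o) (.id ℂ E) x) = tmap (Y.act o) (.id ℂ E') (tmap f g x)
  rw [tmap_comp_apply, tmap_comp_apply, hom_comp hf]
  rfl

lemma IsHom.tenB {f : X.V →L[ℂ] X'.V} {g : Y.V →L[ℂ] Y'.V} (hf : IsHom X X' f)
    (hg : IsHom Y Y' g) : IsHom (tenB X Y) (tenB X' Y') (tmap f g) := by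
  rintro (o | o) x
  · change tmap f g (tmap (X.act o) (.id ℂ Y.V) x) = tmap (X'.act o) (.id ℂ Y'.V) (tmap f g x)
    rw [tmap_comp_apply, tmap_comp_apply, hom_comp hf]
    rfl
  · change tmap f g (tmap (.id ℂ X.V) (Y.act o) x) = tmap (.id ℂ X'.V) (Y'.act o) (tmap f g x)
    rw [tmap_comp_apply, tmap_comp_apply, hom_comp hg]
    rfl

lemma IsHom.sym {f : X.V →L[ℂ] Y.V} (hf : IsHom X Y f) : IsHom (sym X) (sym Y) f := by
  rintro (o | o) x
  · exact hf o x
  · exact hf o x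

lemma SES.sym {j : K.V →L[ℂ] P.V} {π : P.V →L[ℂ] X.V} (h : SES K P X j π) :
    SES (sym K) (sym P) (sym X) j π := ⟨h.jhom.sym, h.πhom.sym, h.split⟩

lemma isHom_id (X : OpMod A) : IsHom X X (.id ℂ X.V) := fun _ _ => rfl

/-- the identities of a short exact sequence for the maps -/
lemma SES.maps {j : K.V →L[ℂ] P.V} {π : P.V →L[ℂ] X.V} (h : SES K P X j π) :
    ∃ (t : P.V →L[ℂ] K.V) (s : X.V →L[ℂ] P.V), t ∘L j = .id ℂ K.V ∧ π ∘L s = .id ℂ X.V ∧
      j ∘L t + s ∘L π = .id ℂ P.V ∧ π ∘L j = 0 := by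
  obtain ⟨t, s, h1, h2, h3, h4⟩ := h.split
  exact ⟨t, s, ContinuousLinearMap.ext h1, ContinuousLinearMap.ext h2,
    ContinuousLinearMap.ext h3, ContinuousLinearMap.ext h4⟩

lemma SES.tenB_left {j : K.V →L[ℂ] P.V} {π : P.V →L[ℂ] X.V} (h : SES K P X j π) (Q : OpMod A) :
    SES (tenB K Q) (tenB P Q) (tenB X Q) (tmap j (.id ℂ Q.V)) (tmap π (.id ℂ Q.V)) := by
  obtain ⟨t, s, h1, h2, h3, h4⟩ := h.maps
  exact ⟨h.jhom.tenB (isHom_id Q), h.πhom.tenB (isHom_id Q), tmap t (.id ℂ Q.V),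
    tmap s (.id ℂ Q.V), raw_left_one h1, raw_left_one h2, raw_left_add h3, raw_left_zero h4⟩

lemma SES.tenB_right {j : K.V →L[ℂ] P.V} {π : P.V →L[ℂ] X.V} (h : SES K P X j π) (Q : OpMod A) :
    SES (tenB Q K) (tenB Q P) (tenB Q X) (tmap (.id ℂ Q.V) j) (tmap (.id ℂ Q.V) π) := by
  obtain ⟨t, s, h1, h2, h3, h4⟩ := h.maps
  exact ⟨(isHom_id Q).tenB h.jhom, (isHom_id Q).tenB h.πhom, tmap (.id ℂ Q.V) t,
    tmap (.id ℂ Q.V) s, raw_right_one h1, raw_right_one h2, raw_right_add h3, raw_right_zero h4⟩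

/-- the kernel of `P ⊗ P' → X ⊗ X'` -/
lemma tensor_ker {K P X K' P' X' : OpMod A} {j : K.V →L[ℂ] P.V} {π : P.V →L[ℂ] X.V}
    {j' : K'.V →L[ℂ] P'.V} {π' : P'.V →L[ℂ] X'.V} (h : SES K P X j π) (h' : SES K' P' X' j' π') :
    ∃ (N : OpMod (A ⊕ A)) (i : N.V →L[ℂ] (tenB P P').V)
      (q : (prodMod (tenB K P') (tenB P K')).V →L[ℂ] N.V),
      SES N (tenB P P') (tenB X X') i (tmap π π') ∧
      SES (tenB K K') (prodMod (tenB K P') (tenB P K')) N
        ((tmap (.id ℂ K.V) j').prod (-(tmap j (.id ℂ K'.V)))) q := by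
  obtain ⟨t, s, h1, h2, h3, h4⟩ := h.maps
  obtain ⟨t', s', h1', h2', h3', h4'⟩ := h'.maps
  have hπ : IsHom (tenB P P') (tenB X X') (tmap π π') := h.πhom.tenB h'.πhom
  have hses := SES.ker hπ ⟨tmap s s', raw_section h2 h2'⟩
  -- the map `q` before the restriction of the codomain
  let q₀ : (prodMod (tenB K P') (tenB P K')).V →L[ℂ] (tenB P P').V :=
    (tmap j (.id ℂ P'.V)).comp (ContinuousLinearMap.fst ℂ (Ten K.V P'.V) (Ten P.V K'.V)) +
      (tmap (.id ℂ P.V) j').comp (ContinuousLinearMap.snd ℂ (Ten K.V P'.V) (Ten P.V K'.V))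
  have hker : ∀ x, tmap π π' (q₀ x) = 0 := fun x => raw_ker h4 h4' x.1 x.2
  have hq₀hom : IsHom (prodMod (tenB K P') (tenB P K')) (tenB P P') q₀ := by
    rintro o ⟨v, w⟩
    have e1 := (h.jhom.tenB (isHom_id P')) o v
    have e2 := ((isHom_id P).tenB h'.jhom) o w
    have e3 := ((tenB P P').act o).map_add (tmap j (.id ℂ P'.V) v) (tmap (.id ℂ P.V) j' w)
    refine Eq.trans ?_ e3.symm
    exact congrArg₂ (· + ·) e1 e2
  let N : OpMod (A ⊕ A) := kerMod (X := tenB P P') (Y := tenB X X') (tmap π π') hπ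
  let q : (prodMod (tenB K P') (tenB P K')).V →L[ℂ] N.V := q₀.codRestrict _ hker
  refine ⟨N, kerIncl (X := tenB P P') (Y := tenB X X') (tmap π π') hπ, q, hses, ?_, ?_, ?_⟩
  · rintro o x
    have e1 := ((isHom_id K).tenB h'.jhom) o x
    have e2 := (h.jhom.tenB (isHom_id K')) o x
    have e3 := ((tenB P K').act o).map_neg (tmap j (.id ℂ K'.V) x)
    refine Prod.ext e1 ?_
    exact (congrArg Neg.neg e2).trans e3.symm
  · exact fun o x => Subtype.ext (hq₀hom o x)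
  · exact ⟨(-(tmap t (.id ℂ K'.V))).comp
        (ContinuousLinearMap.snd ℂ (Ten K.V P'.V) (Ten P.V K'.V)),
      ((tmap t (.id ℂ P'.V)).prod (tmap (s ∘L π) t')).comp (tmap π π').ker.subtypeL,
      fun x => (by
        change -(tmap t (.id ℂ K'.V) (-(tmap j (.id ℂ K'.V) x))) = x
        rw [map_neg, neg_neg]
        exact raw_left_one h1 x),
      fun x => Subtype.ext (raw_q_section h3 h3' x.1 x.2),
      fun x => Prod.ext (raw_fst h1 x.1 x.2) (raw_snd h1' h3 h4 x.1 x.2),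
      fun x => Subtype.ext (raw_qΘ x)⟩

end

/-! ### projective modules -/

section

/-! #### the action as a bounded bilinear map -/

/-- the action of a left module as a bounded bilinear map -/
def actLin {X : OpMod A} (hX : IsLeft A X) : A →L[ℂ] X.V →L[ℂ] X.V :=
  LinearMap.mkContinuous₂ (LinearMap.mk₂ ℂ (fun a x => X.act a x) hX.add hX.smul
    (fun a x y => map_add _ _ _) (fun c a x => map_smul _ _ _)) hX.bdd.choose
    (fun a x => hX.bdd.choose_spec a x)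

@[simp] lemma actLin_apply {X : OpMod A} (hX : IsLeft A X) (a : A) (x : X.V) :
    actLin hX a x = X.act a x := rfl

lemma actLin_eq {X : OpMod A} (hX : IsLeft A X) (a : A) : actLin hX a = X.act a := rfl

lemma actLin_zero {X : OpMod A} (hX : IsLeft A X) (x : X.V) : X.act 0 x = 0 := by
  rw [← actLin_apply hX, map_zero, zero_apply]

/-- a left module structure given by a bounded bilinear map -/
lemma IsLeft.of_L {X : OpMod A} (L : A →L[ℂ] X.V →L[ℂ] X.V) (h : ∀ a x, X.act a x = L a x)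
    (hm : ∀ a b x, L (a * b) x = L a (L b x)) : IsLeft A X where
  add a b x := by simp [h]
  smul c a x := by simp [h]
  mul a b x := by simp [h, hm]
  bdd := ⟨‖L‖, fun a x => by rw [h]; exact L.le_opNorm₂ a x⟩

/-- the operators `act (inl a)` -/
def lft (X : OpMod (A ⊕ A)) : OpMod A where
  V := X.V
  act a := X.act (.inl a)

/-- the operators `act (inr a)` -/
def rgt (X : OpMod (A ⊕ A)) : OpMod A where
  V := X.V
  act a := X.act (.inr a)

lemma IsBi.lft {X : OpMod (A ⊕ A)} (h : IsBi A X) : IsLeft A (lft X) :=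
  ⟨h.ladd, h.lsmul, h.lmul, h.lbdd⟩

lemma IsBi.rgt {X : OpMod (A ⊕ A)} (h : IsBi A X) : IsLeft A (rgt X) :=
  ⟨h.radd, h.rsmul, fun a b x => by
    rw [mul_comm]
    exact h.rmul b a x, h.rbdd⟩

lemma IsBi.of {X : OpMod (A ⊕ A)} (hl : IsLeft A (Pool.Agent.Lib.MP_1618a1_an.lft X))
    (hr : IsLeft A (Pool.Agent.Lib.MP_1618a1_an.rgt X))
    (hc : ∀ a b x, X.act (.inl a) (X.act (.inr b) x) = X.act (.inr b) (X.act (.inl a) x)) :
    IsBi A X where
  ladd := hl.add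
  lsmul := hl.smul
  lmul := hl.mul
  lbdd := hl.bdd
  radd := hr.add
  rsmul := hr.smul
  rmul a b x := by
    rw [mul_comm]
    exact hr.mul b a x
  rbdd := hr.bdd
  comm := hc

lemma IsHom.lft {X Y : OpMod (A ⊕ A)} {f : X.V →L[ℂ] Y.V} (h : IsHom X Y f) :
    IsHom (Pool.Agent.Lib.MP_1618a1_an.lft X) (Pool.Agent.Lib.MP_1618a1_an.lft Y) f :=
  fun a x => h (.inl a) x

lemma IsHom.rgt {X Y : OpMod (A ⊕ A)} {f : X.V →L[ℂ] Y.V} (h : IsHom X Y f) :
    IsHom (Pool.Agent.Lib.MP_1618a1_an.rgt X) (Pool.Agent.Lib.MP_1618a1_an.rgt Y) f :=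
  fun a x => h (.inr a) x

lemma IsLeft.emb {X Y : OpMod A} {f : X.V →L[ℂ] Y.V} (hf : IsHom X Y f)
    (hc : ∃ c : ℝ, 0 < c ∧ ∀ x, c * ‖x‖ ≤ ‖f x‖) (hY : IsLeft A Y) : IsLeft A X := by
  obtain ⟨c, hc0, hc⟩ := hc
  have hinj : ∀ x y, f x = f y → x = y := fun x y h => by
    have h1 := hc (x - y)
    rw [map_sub, h, sub_self, norm_zero] at h1
    have h2 : ‖x - y‖ ≤ 0 := by
      by_contra h3
      push Not at h3
      nlinarith
    exact sub_eq_zero.1 (norm_le_zero_iff.1 h2)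
  refine ⟨fun a b x => hinj _ _ ?_, fun k a x => hinj _ _ ?_, fun a b x => hinj _ _ ?_, ?_⟩
  · rw [map_add, hf, hf, hf, hY.add]
  · rw [map_smul, hf, hf, hY.smul]
  · rw [hf, hf, hf, hY.mul]
  · refine ⟨‖actLin hY‖ * ‖f‖ / c, fun a x => ?_⟩
    have h1 := hc (X.act a x)
    rw [hf] at h1
    have h2 : ‖Y.act a (f x)‖ ≤ ‖actLin hY‖ * ‖a‖ * ‖f x‖ := (actLin hY).le_opNorm₂ a (f x)
    have h3 : ‖f x‖ ≤ ‖f‖ * ‖x‖ := f.le_opNorm x
    have h4 : ‖actLin hY‖ * ‖a‖ * ‖f x‖ ≤ ‖actLin hY‖ * ‖a‖ * (‖f‖ * ‖x‖) := by gcongr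
    rw [div_mul_eq_mul_div, div_mul_eq_mul_div, le_div_iff₀ hc0]
    calc ‖X.act a x‖ * c = c * ‖X.act a x‖ := mul_comm _ _
      _ ≤ ‖actLin hY‖ * ‖a‖ * (‖f‖ * ‖x‖) := h1.trans (h2.trans h4)
      _ = _ := by ring

lemma IsLeft.quot {X Y : OpMod A} {f : Y.V →L[ℂ] X.V} (hf : IsHom Y X f)
    (hs : ∃ s : X.V →L[ℂ] Y.V, ∀ x, f (s x) = x) (hY : IsLeft A Y) : IsLeft A X := by
  obtain ⟨s, hs⟩ := hs
  have key : ∀ a x, X.act a x = f (Y.act a (s x)) := fun a x => by rw [hf, hs]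
  have key2 : ∀ a y, X.act a (f y) = f (Y.act a y) := fun a x => by rw [hf]
  refine ⟨fun a b x => ?_, fun k a x => ?_, fun a b x => ?_, ?_⟩
  · rw [key, key, key, hY.add, map_add]
  · rw [key, key, hY.smul, map_smul]
  · rw [key (a * b), hY.mul, ← key2, ← key]
  · refine ⟨‖f‖ * ‖actLin hY‖ * ‖s‖, fun a x => ?_⟩
    rw [key]
    calc ‖f (Y.act a (s x))‖ ≤ ‖f‖ * ‖Y.act a (s x)‖ := f.le_opNorm _
      _ ≤ ‖f‖ * (‖actLin hY‖ * ‖a‖ * ‖s x‖) := by
          gcongr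
          exact (actLin hY).le_opNorm₂ a (s x)
      _ ≤ ‖f‖ * (‖actLin hY‖ * ‖a‖ * (‖s‖ * ‖x‖)) := by
          gcongr
          exact s.le_opNorm x
      _ = _ := by ring

lemma IsLeft.prod {X Y : OpMod A} (hX : IsLeft A X) (hY : IsLeft A Y) :
    IsLeft A (prodMod X Y) := by
  refine ⟨?_, ?_, ?_, ?_⟩
  · rintro a b ⟨x, y⟩
    exact Prod.ext (hX.add a b x) (hY.add a b y)
  · rintro c a ⟨x, y⟩
    exact Prod.ext (hX.smul c a x) (hY.smul c a y)
  · rintro a b ⟨x, y⟩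
    exact Prod.ext (hX.mul a b x) (hY.mul a b y)
  · refine ⟨max ‖actLin hX‖ ‖actLin hY‖, ?_⟩
    rintro a ⟨x, y⟩
    change max ‖X.act a x‖ ‖Y.act a y‖ ≤ _ * _ * max ‖x‖ ‖y‖
    refine max_le ?_ ?_
    · refine ((actLin hX).le_opNorm₂ a x).trans ?_
      gcongr
      · exact le_max_left _ _
      · exact le_max_left _ _
    · refine ((actLin hY).le_opNorm₂ a y).trans ?_
      gcongr
      · exact le_max_right _ _
      · exact le_max_right _ _

/-- retracts of projective modules (no assumption on the class) -/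
lemma Proj.retract' {Op : Type} {C : OpMod Op → Prop} {P Q : OpMod Op} {i : Q.V →L[ℂ] P.V}
    {r : P.V →L[ℂ] Q.V} (hi : IsHom Q P i) (hr : IsHom P Q r) (hri : ∀ x, r (i x) = x)
    (hQ : C Q) (hP : Proj C P) : Proj C Q := by
  refine ⟨hQ, fun Y Z hY hZ σ hσ hτ φ hφ => ?_⟩
  obtain ⟨ψ, hψ, h⟩ := hP.2 Y Z hY hZ σ hσ hτ (φ ∘L r) (hφ.comp hr)
  exact ⟨ψ ∘L i, hψ.comp hi, fun p => by
    change σ (ψ (i p)) = φ p
    rw [h]
    change φ (r (i p)) = φ p
    rw [hri]⟩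

variable (A) [IsScalarTower ℂ A A] [SMulCommClass ℂ A A] [CompleteSpace A]

/-- the unitization `A₊` as a left module -/
def plusL : OpMod A where
  V := ℂ × A
  act := plusLeft A

lemma plusLeft_apply (a : A) (u : ℂ × A) : plusLeft A a u = (0, u.1 • a + a * u.2) := rfl

lemma plusLeft_add (a b : A) (x : ℂ × A) :
    plusLeft A (a + b) x = plusLeft A a x + plusLeft A b x := by
  rw [plusLeft_apply, plusLeft_apply, plusLeft_apply]
  refine Prod.ext (by simp) ?_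
  change x.1 • (a + b) + (a + b) * x.2 = (x.1 • a + a * x.2) + (x.1 • b + b * x.2)
  rw [smul_add, add_mul]
  abel

lemma plusLeft_smul (c : ℂ) (a : A) (x : ℂ × A) :
    plusLeft A (c • a) x = c • plusLeft A a x := by
  rw [plusLeft_apply, plusLeft_apply]
  refine Prod.ext (by simp) ?_
  change x.1 • (c • a) + (c • a) * x.2 = c • (x.1 • a + a * x.2)
  rw [smul_add, smul_comm, smul_mul_assoc]

lemma plusLeft_mul (a b : A) (x : ℂ × A) :
    plusLeft A (a * b) x = plusLeft A a (plusLeft A b x) := by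
  rw [plusLeft_apply, plusLeft_apply, plusLeft_apply]
  refine Prod.ext (by simp) ?_
  change x.1 • (a * b) + (a * b) * x.2 = (0 : ℂ) • a + a * (x.1 • b + b * x.2)
  rw [zero_smul, zero_add, mul_add, mul_smul_comm, mul_assoc]

lemma plusLeft_norm (a : A) (x : ℂ × A) : ‖plusLeft A a x‖ ≤ 2 * ‖a‖ * ‖x‖ := by
  rw [plusLeft_apply]
  change max ‖(0 : ℂ)‖ ‖x.1 • a + a * x.2‖ ≤ _
  rw [norm_zero]
  have h1 : ‖x.1‖ ≤ ‖x‖ := norm_fst_le x
  have h2 : ‖x.2‖ ≤ ‖x‖ := norm_snd_le x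
  refine max_le (by positivity) ?_
  calc ‖x.1 • a + a * x.2‖ ≤ ‖x.1 • a‖ + ‖a * x.2‖ := norm_add_le _ _
    _ ≤ ‖x.1‖ * ‖a‖ + ‖a‖ * ‖x.2‖ := by
        gcongr
        · exact norm_smul_le _ _
        · exact norm_mul_le _ _
    _ ≤ ‖x‖ * ‖a‖ + ‖a‖ * ‖x‖ := by gcongr
    _ = _ := by ring

lemma plusL_left : IsLeft A (plusL A) :=
  ⟨plusLeft_add A, plusLeft_smul A, plusLeft_mul A, 2, plusLeft_norm A⟩

variable {A} in
/-- the action of `A₊` on a left module -/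
def actPl {X : OpMod A} (hX : IsLeft A X) : (ℂ × A) →L[ℂ] X.V →L[ℂ] X.V :=
  (ContinuousLinearMap.fst ℂ ℂ A).smulRight (.id ℂ X.V) +
    actLin hX ∘L (ContinuousLinearMap.snd ℂ ℂ A)

variable {A} in
lemma actPl_apply {X : OpMod A} (hX : IsLeft A X) (u : ℂ × A) (x : X.V) :
    actPl hX u x = u.1 • x + X.act u.2 x := rfl

variable {A} in
lemma actPl_plusLeft {X : OpMod A} (hX : IsLeft A X) (a : A) (u : ℂ × A) (x : X.V) :
    actPl hX (plusLeft A a u) x = X.act a (actPl hX u x) := by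
  rw [actPl_apply, actPl_apply, plusLeft_apply]
  change (0 : ℂ) • x + X.act (u.1 • a + a * u.2) x = _
  rw [zero_smul, zero_add, hX.add, hX.smul, hX.mul, map_add, map_smul]

variable {A} in
lemma actPl_one {X : OpMod A} (hX : IsLeft A X) (x : X.V) : actPl hX (1, 0) x = x := by
  rw [actPl_apply]
  change (1 : ℂ) • x + X.act 0 x = x
  rw [one_smul, ← actLin_apply hX, map_zero, zero_apply, add_zero]

variable {A} in
lemma IsHom.actPl {X Y : OpMod A} (hX : IsLeft A X) (hY : IsLeft A Y) {f : X.V →L[ℂ] Y.V}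
    (hf : IsHom X Y f) (u : ℂ × A) (x : X.V) : f (actPl hX u x) = actPl hY u (f x) := by
  rw [actPl_apply, actPl_apply, map_add, map_smul, hf]

lemma plusLeft_split (u : ℂ × A) :
    u = u.1 • ((1 : ℂ), (0 : A)) + plusLeft A u.2 ((1 : ℂ), (0 : A)) := by
  rw [plusLeft_apply]
  refine Prod.ext ?_ ?_
  · change u.1 = u.1 * 1 + 0
    ring
  · change u.2 = u.1 • (0 : A) + ((1 : ℂ) • u.2 + u.2 * 0)
    simp

lemma plusL_proj : Proj (IsLeft A) (plusL A) := by
  refine ⟨plusL_left A, fun Y Z hY hZ σ hσ ⟨τ, hτ⟩ φ hφ => ?_⟩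
  refine ⟨(actPl hY).flip (τ (φ ((1 : ℂ), (0 : A)))), fun a u => actPl_plusLeft hY a u _,
    fun (u : ℂ × A) => ?_⟩
  change σ (actPl hY u _) = φ u
  rw [hσ.actPl hY hZ, hτ, actPl_apply]
  have h1 : φ (plusLeft A u.2 ((1 : ℂ), (0 : A))) = Z.act u.2 (φ ((1 : ℂ), (0 : A))) := hφ u.2 _
  have h2 : φ (u.1 • ((1 : ℂ), (0 : A)) + plusLeft A u.2 ((1 : ℂ), (0 : A))) =
      u.1 • φ ((1 : ℂ), (0 : A)) + φ (plusLeft A u.2 ((1 : ℂ), (0 : A))) := by
    have h3 := map_add φ (u.1 • ((1 : ℂ), (0 : A)) : ℂ × A) (plusLeft A u.2 ((1 : ℂ), (0 : A)))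
    have h4 := map_smul φ u.1 (((1 : ℂ), (0 : A)) : ℂ × A)
    exact h3.trans (congrArg₂ (· + ·) h4 rfl)
  rw [← plusLeft_split A u] at h2
  rw [h2, h1]

/-- `A` is commutative, so `A₊` is a symmetric bimodule -/
lemma plusBi_eq : plusBi A = sym (plusL A) := by
  have h : plusRight A = plusLeft A := by
    funext a
    refine ContinuousLinearMap.ext fun u => ?_
    rw [plusLeft_apply]
    change ((0 : ℂ), u.1 • a + u.2 * a) = _
    rw [mul_comm]
  unfold plusBi sym plusL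
  rw [h]

variable {A} {X Y P Q : OpMod A} {E : Type} [NormedAddCommGroup E] [NormedSpace ℂ E]
  [CompleteSpace E]

/-- the module of bounded linear maps `E → Z` -/
def homMod (E : Type) [NormedAddCommGroup E] [NormedSpace ℂ E] (Z : OpMod A) : OpMod A where
  V := E →L[ℂ] Z.V
  act a := ContinuousLinearMap.compL ℂ E Z.V Z.V (Z.act a)

omit [IsScalarTower ℂ A A] [SMulCommClass ℂ A A] [CompleteSpace A] [CompleteSpace E] in
lemma homMod_left {Z : OpMod A} (hZ : IsLeft A Z) : IsLeft A (homMod E Z) := by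
  refine IsLeft.of_L ((ContinuousLinearMap.compL ℂ E Z.V Z.V) ∘L actLin hZ) (fun a T => rfl)
    (fun a b (T : E →L[ℂ] Z.V) => ContinuousLinearMap.ext fun e => ?_)
  exact hZ.mul a b (T e)

omit [IsScalarTower ℂ A A] [SMulCommClass ℂ A A] [CompleteSpace A] [CompleteSpace E] in
/-- lifting of bilinear maps `P × E → Z` that are morphisms in the first variable -/
lemma lift_bilin (hP : Proj (IsLeft A) P) {Y Z : OpMod A} (hY : IsLeft A Y) (hZ : IsLeft A Z)
    {σ : Y.V →L[ℂ] Z.V} (hσ : IsHom Y Z σ) (hτ : ∃ τ : Z.V →L[ℂ] Y.V, ∀ z, σ (τ z) = z)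
    (φ : P.V →L[ℂ] E →L[ℂ] Z.V) (hφ : ∀ a p e, φ (P.act a p) e = Z.act a (φ p e)) :
    ∃ ψ : P.V →L[ℂ] E →L[ℂ] Y.V, (∀ a p e, ψ (P.act a p) e = Y.act a (ψ p e)) ∧
      ∀ p e, σ (ψ p e) = φ p e := by
  obtain ⟨τ, hτ⟩ := hτ
  obtain ⟨ψ, h1, h2⟩ := hP.2 (homMod E Y) (homMod E Z) (homMod_left hY) (homMod_left hZ)
    (ContinuousLinearMap.compL ℂ E Y.V Z.V σ)
    (fun a (T : E →L[ℂ] Y.V) => ContinuousLinearMap.ext fun e => hσ a (T e))
    ⟨ContinuousLinearMap.compL ℂ E Z.V Y.V τ,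
      fun (T : E →L[ℂ] Z.V) => ContinuousLinearMap.ext fun e => hτ (T e)⟩
    φ (fun a p => ContinuousLinearMap.ext fun e => hφ a p e)
  change P.V →L[ℂ] E →L[ℂ] Y.V at ψ
  exact ⟨ψ, fun a p e => DFunLike.congr_fun (show ψ (P.act a p) = _ from h1 a p) e,
    fun p e => DFunLike.congr_fun (show σ ∘L (ψ p) = φ p from h2 p) e⟩

lemma tenS_proj (hP : Proj (IsLeft A) P) : Proj (IsLeft A) (tenS P E) := by
  refine ⟨tenS_left hP.1, fun Y Z hY hZ σ hσ hτ φ hφ => ?_⟩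
  change Ten P.V E →L[ℂ] Z.V at φ
  obtain ⟨ψ, h1, h2⟩ : ∃ ψ : P.V →L[ℂ] E →L[ℂ] Y.V, (∀ a p e, ψ (P.act a p) e =
      Y.act a (ψ p e)) ∧ ∀ p e, σ (ψ p e) = φ (tmk p e) :=
    lift_bilin (E := E) hP hY hZ hσ hτ
    ((ContinuousLinearMap.compL ℂ E (Ten P.V E) Z.V φ) ∘L tmkL)
    (fun a p e => by
      have := hφ a (tmk p e)
      change φ (tmap (P.act a) (.id ℂ E) (tmk p e)) = _ at this
      rw [tmap_tmk] at this
      exact this)
  refine ⟨tlift ψ, fun a u => ?_, fun u => ?_⟩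
  · have : tlift ψ ∘L tmap (P.act a) (.id ℂ E) = Y.act a ∘L tlift ψ := ten_ext fun p e => by
      simp [h1]
    exact DFunLike.congr_fun this u
  · have : σ ∘L tlift ψ = φ := ten_ext fun p e => by
      simp [h2]
    exact DFunLike.congr_fun this u

/-- the canonical epimorphism `A₊ ⊗ X → X`, `(z, a) ⊗ x ↦ z x + a x` -/
lemma free_left (hX : IsLeft A X) : ∃ π : (tenS (plusL A) X.V).V →L[ℂ] X.V,
    IsHom (tenS (plusL A) X.V) X π ∧ (∀ z a x, π (tmk (z, a) x) = z • x + X.act a x) := by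
  refine ⟨tlift (actPl hX), fun a u => ?_, fun z a x => ?_⟩
  · have : tlift (actPl hX) ∘L tmap (plusLeft A a) (.id ℂ X.V) = X.act a ∘L tlift (actPl hX) :=
      ten_ext fun p e => by simp [actPl_plusLeft]
    exact DFunLike.congr_fun this u
  · erw [tlift_tmk]
    rfl

omit [IsScalarTower ℂ A A] [SMulCommClass ℂ A A] [CompleteSpace A] [CompleteSpace E] in
/-- equality of maps on a tensor product of three spaces -/
lemma ten_ext3 {E₁ E₂ E₃ G : Type} [NormedAddCommGroup E₁] [NormedSpace ℂ E₁]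
    [NormedAddCommGroup E₂] [NormedSpace ℂ E₂] [NormedAddCommGroup E₃] [NormedSpace ℂ E₃]
    [NormedAddCommGroup G] [NormedSpace ℂ G] {f g : Ten E₁ (Ten E₂ E₃) →L[ℂ] G}
    (h : ∀ x y z, f (tmk x (tmk y z)) = g (tmk x (tmk y z))) : f = g := by
  refine ten_ext fun x w => ?_
  have : f ∘L tmkL x = g ∘L tmkL x := ten_ext fun y z => h x y z
  exact DFunLike.congr_fun this w

/-- `T ↦ (u ⊗ e ↦ R u (T e))` -/
def rExt {G : Type} [NormedAddCommGroup G] [NormedSpace ℂ G] [CompleteSpace G]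
    (R : (ℂ × A) →L[ℂ] G →L[ℂ] G) (E : Type) [NormedAddCommGroup E] [NormedSpace ℂ E] :
    (E →L[ℂ] G) →L[ℂ] (Ten (ℂ × A) E →L[ℂ] G) :=
  tliftL (ℂ × A) E G ∘L
    ((ContinuousLinearMap.compL ℂ (ℂ × A) (G →L[ℂ] G) (E →L[ℂ] G)).flip R ∘L
      (ContinuousLinearMap.compL ℂ E G G).flip)

omit [IsScalarTower ℂ A A] [SMulCommClass ℂ A A] [CompleteSpace A] [CompleteSpace E] in
@[simp] lemma rExt_tmk {G : Type} [NormedAddCommGroup G] [NormedSpace ℂ G] [CompleteSpace G]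
    (R : (ℂ × A) →L[ℂ] G →L[ℂ] G) (T : E →L[ℂ] G) (u : ℂ × A) (e : E) :
    rExt R E T (tmk u e) = R u (T e) := by
  change tlift _ (tmk u e) = _
  rw [tlift_tmk]
  rfl

/-- the right action of `A₊` on a bimodule -/
def actR {X : OpMod (A ⊕ A)} (hX : IsBi A X) : (ℂ × A) →L[ℂ] X.V →L[ℂ] X.V := actPl hX.rgt

lemma actR_apply {X : OpMod (A ⊕ A)} (hX : IsBi A X) (u : ℂ × A) (x : X.V) :
    actR hX u x = u.1 • x + X.act (.inr u.2) x := rfl

lemma actR_plusLeft {X : OpMod (A ⊕ A)} (hX : IsBi A X) (a : A) (u : ℂ × A) (x : X.V) :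
    actR hX (plusLeft A a u) x = X.act (.inr a) (actR hX u x) := actPl_plusLeft hX.rgt a u x

lemma actR_one {X : OpMod (A ⊕ A)} (hX : IsBi A X) (x : X.V) : actR hX (1, 0) x = x :=
  actPl_one hX.rgt x

lemma IsHom.actR {X Y : OpMod (A ⊕ A)} (hX : IsBi A X) (hY : IsBi A Y) {f : X.V →L[ℂ] Y.V}
    (hf : IsHom X Y f) (u : ℂ × A) (x : X.V) :
    f (Pool.Agent.Lib.MP_1618a1_an.actR hX u x) =
      Pool.Agent.Lib.MP_1618a1_an.actR hY u (f x) :=
  hf.rgt.actPl hX.rgt hY.rgt u x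

lemma actR_comm {Y : OpMod (A ⊕ A)} (hY : IsBi A Y) (a : A) (u : ℂ × A) (y : Y.V) :
    actR hY u (Y.act (.inl a) y) = Y.act (.inl a) (actR hY u y) := by
  rw [actR_apply, actR_apply, map_add, map_smul, hY.comm]

/-- `P ⊗ (A₊ ⊗ F)` is a projective bimodule -/
lemma tenB_free_proj (hP : Proj (IsLeft A) P) :
    Proj (IsBi A) (tenB P (tenS (plusL A) E)) := by
  refine ⟨tenB_bi hP.1 (tenS_left (plusL_left A)), fun Y Z hY hZ σ hσ hτ φ hφ => ?_⟩
  change Ten P.V (Ten (ℂ × A) E) →L[ℂ] Z.V at φ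
  -- the bilinear map `P × E → Z`, `(p, e) ↦ φ (p ⊗ (1 ⊗ e))`
  let ι : E →L[ℂ] Ten (ℂ × A) E := tmkL ((1 : ℂ), (0 : A))
  have hφl : ∀ a p w, φ (tmk (P.act a p) w) = Z.act (.inl a) (φ (tmk p w)) := fun a p w => by
    have := hφ (.inl a) (tmk p w)
    change φ (tmap (P.act a) (.id ℂ (Ten (ℂ × A) E)) (tmk p w)) = _ at this
    rw [tmap_tmk] at this
    exact this
  have hφr : ∀ a p u e, φ (tmk p (tmk (plusLeft A a u) e)) =
      Z.act (.inr a) (φ (tmk p (tmk u e))) := fun a p u e => by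
    have := hφ (.inr a) (tmk p (tmk u e))
    change φ (tmap (.id ℂ P.V) (tmap (plusLeft A a) (.id ℂ E)) (tmk p (tmk u e))) = _ at this
    rw [tmap_tmk, tmap_tmk] at this
    exact this
  obtain ⟨ψ, h1, h2⟩ : ∃ ψ : P.V →L[ℂ] E →L[ℂ] Y.V, (∀ a p e, ψ (P.act a p) e =
      Y.act (.inl a) (ψ p e)) ∧ ∀ p e, σ (ψ p e) = φ (tmk p (ι e)) :=
    lift_bilin (E := E) hP hY.lft hZ.lft hσ.lft hτ
    (((ContinuousLinearMap.compL ℂ E (Ten (ℂ × A) E) Z.V).flip ι) ∘L
      ((ContinuousLinearMap.compL ℂ (Ten (ℂ × A) E) (Ten P.V (Ten (ℂ × A) E)) Z.V φ) ∘L tmkL))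
    (fun a p e => hφl a p (ι e))
  refine ⟨tlift (rExt (actR hY) E ∘L ψ), ?_, fun u => ?_⟩
  · rintro (a | a) u
    · have : tlift (rExt (actR hY) E ∘L ψ) ∘L tmap (P.act a) (.id ℂ (Ten (ℂ × A) E)) =
          Y.act (.inl a) ∘L tlift (rExt (actR hY) E ∘L ψ) := ten_ext3 fun p v e => by
        simp only [ContinuousLinearMap.comp_apply, tmap_tmk, tlift_tmk, rExt_tmk,
          ContinuousLinearMap.id_apply]
        rw [h1, actR_comm]
      exact DFunLike.congr_fun this u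
    · have : tlift (rExt (actR hY) E ∘L ψ) ∘L
          tmap (.id ℂ P.V) (tmap (plusLeft A a) (.id ℂ E)) =
          Y.act (.inr a) ∘L tlift (rExt (actR hY) E ∘L ψ) := ten_ext3 fun p v e => by
        simp only [ContinuousLinearMap.comp_apply, tmap_tmk, tlift_tmk, rExt_tmk,
          ContinuousLinearMap.id_apply]
        rw [actR_plusLeft]
      exact DFunLike.congr_fun this u
  · have : σ ∘L tlift (rExt (actR hY) E ∘L ψ) = φ := ten_ext3 fun p v e => by
      simp only [ContinuousLinearMap.comp_apply, tlift_tmk, rExt_tmk]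
      rw [hσ.actR hY hZ, h2]
      change v.1 • φ (tmk p (tmk ((1 : ℂ), (0 : A)) e)) +
        Z.act (.inr v.2) (φ (tmk p (tmk ((1 : ℂ), (0 : A)) e))) = _
      rw [← hφr, ← map_smul, ← map_add, ← tmk_smul_right, ← tmk_add_right, ← tmk_smul_left,
        ← tmk_add_left, ← plusLeft_split]
    exact DFunLike.congr_fun this u

omit [IsScalarTower ℂ A A] [SMulCommClass ℂ A A] [CompleteSpace A] [CompleteSpace E] in
lemma IsHom.one {Op : Type} (X : OpMod Op) : IsHom X X (.id ℂ X.V) := fun _ _ => rfl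

lemma tenB_proj (hP : Proj (IsLeft A) P) (hQ : Proj (IsLeft A) Q) :
    Proj (IsBi A) (tenB P Q) := by
  obtain ⟨π, hπ, hπ2⟩ := free_left hQ.1
  obtain ⟨s, hs, hs2⟩ := hQ.section_of_epi (tenS_left (plusL_left A)) hπ
    ⟨tmkL ((1 : ℂ), (0 : A)), fun x => by
      have := hπ2 1 0 x
      rw [one_smul, ← actLin_apply hQ.1, map_zero, zero_apply, add_zero] at this
      exact this⟩
  refine Proj.retract' ((IsHom.one P).tenB hs) ((IsHom.one P).tenB hπ) (fun x => ?_)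
    (tenB_bi hP.1 hQ.1) (tenB_free_proj (E := Q.V) hP)
  have h1 : tmap (.id ℂ P.V) π ∘L tmap (.id ℂ P.V) s = .id ℂ (Ten P.V Q.V) := by
    refine ten_ext fun p q => ?_
    change tmap (.id ℂ P.V) π (tmap (.id ℂ P.V) s (tmk p q)) = tmk p q
    rw [tmap_tmk, tmap_tmk, hs2]
    rfl
  exact DFunLike.congr_fun h1 x

variable (A)

lemma good_left : Good (IsLeft A) where
  emb _ _ _ hf hc hY := hY.emb hf hc
  quot _ _ _ hf hs hY := hY.quot hf hs
  prod _ _ hX hY := hX.prod hY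
  enough X hX := by
    obtain ⟨π, hπ, hπ2⟩ := free_left hX
    refine ⟨_, π, tenS_proj (plusL_proj A), hπ, tmkL ((1 : ℂ), (0 : A)), fun x => ?_⟩
    have := hπ2 1 0 x
    rw [one_smul, ← actLin_apply hX, map_zero, zero_apply, add_zero] at this
    exact this

omit [IsScalarTower ℂ A A] [SMulCommClass ℂ A A] [CompleteSpace A] in
lemma inj_of_bound {E F : Type} [NormedAddCommGroup E] [NormedSpace ℂ E] [NormedAddCommGroup F]
    [NormedSpace ℂ F] {f : E →L[ℂ] F} (hc : ∃ c : ℝ, 0 < c ∧ ∀ x, c * ‖x‖ ≤ ‖f x‖) {x y : E}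
    (h : f x = f y) : x = y := by
  obtain ⟨c, hc0, hc⟩ := hc
  have h1 := hc (x - y)
  rw [map_sub, h, sub_self, norm_zero] at h1
  have h2 : ‖x - y‖ ≤ 0 := by
    by_contra h3
    push Not at h3
    nlinarith
  exact sub_eq_zero.1 (norm_le_zero_iff.1 h2)

lemma good_bi : Good (IsBi A) where
  emb X Y f hf hc hY := by
    refine IsBi.of (hY.lft.emb hf.lft hc) (hY.rgt.emb hf.rgt hc) fun a b x => ?_
    refine inj_of_bound hc ?_
    rw [hf, hf, hf, hf, hY.comm]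
  quot X Y f hf hs hY := by
    refine IsBi.of (hY.lft.quot hf.lft hs) (hY.rgt.quot hf.rgt hs) fun a b x => ?_
    obtain ⟨s, hs⟩ := hs
    rw [← hs x, ← hf, ← hf, hY.comm, hf, hf]
  prod X Y hX hY := by
    refine IsBi.of (hX.lft.prod hY.lft) (hX.rgt.prod hY.rgt) ?_
    rintro a b ⟨x, y⟩
    exact Prod.ext (hX.comm a b x) (hY.comm a b y)
  enough X hX := by
    obtain ⟨π, hπ, hπ2⟩ := free_left hX.lft
    change Ten (ℂ × A) X.V →L[ℂ] X.V at π
    refine ⟨tenB (tenS (plusL A) X.V) (plusL A),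
      tlift ((actR hX).flip ∘L π), tenB_proj (tenS_proj (plusL_proj A)) (plusL_proj A), ?_,
      ?_⟩
    · rintro (a | a) u
      · have : tlift ((actR hX).flip ∘L π) ∘L
            tmap (tmap (plusLeft A a) (.id ℂ X.V)) (.id ℂ (ℂ × A)) =
            X.act (.inl a) ∘L tlift ((actR hX).flip ∘L π) := ten_ext fun w v => by
          simp only [ContinuousLinearMap.comp_apply, tmap_tmk, tlift_tmk,
            ContinuousLinearMap.id_apply, ContinuousLinearMap.flip_apply]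
          have h1 : π (tmap (plusLeft A a) (.id ℂ X.V) w) = X.act (.inl a) (π w) := hπ a w
          rw [h1]
          rw [actR_comm]
        exact DFunLike.congr_fun this u
      · have : tlift ((actR hX).flip ∘L π) ∘L
            tmap (.id ℂ (Ten (ℂ × A) X.V)) (plusLeft A a) =
            X.act (.inr a) ∘L tlift ((actR hX).flip ∘L π) := ten_ext fun w v => by
          simp only [ContinuousLinearMap.comp_apply, tmap_tmk, tlift_tmk,
            ContinuousLinearMap.id_apply, ContinuousLinearMap.flip_apply]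
          rw [actR_plusLeft]
        exact DFunLike.congr_fun this u
    · refine ⟨(tmkL.flip ((1 : ℂ), (0 : A))) ∘L (tmkL ((1 : ℂ), (0 : A))), fun x => ?_⟩
      change tlift ((actR hX).flip ∘L π) (tmk (tmk ((1 : ℂ), (0 : A)) x) ((1 : ℂ), (0 : A))) = x
      rw [tlift_tmk]
      change actR hX ((1 : ℂ), (0 : A)) (π (tmk ((1 : ℂ), (0 : A)) x)) = x
      rw [actR_one]
      have h1 := hπ2 1 0 x
      have h2 : (lft X).act 0 x = 0 := actLin_zero hX.lft x
      refine h1.trans ?_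
      rw [h2]
      exact (add_zero _).trans (one_smul ℂ x)

variable {A}

lemma dhLE.tenB {m n : ℕ} (hX : dhLE (IsLeft A) m X) (hY : dhLE (IsLeft A) n Y) :
    dhLE (IsBi A) (m + n) (tenB X Y) := by
  induction m generalizing X with
  | zero =>
    rw [Nat.zero_add]
    change Proj (IsLeft A) X at hX
    induction n generalizing Y with
    | zero => exact tenB_proj hX hY
    | succ n ih =>
      obtain ⟨hY1, K, P, j, π, h, hP, hK⟩ := hY
      exact ⟨tenB_bi hX.1 hY1, _, _, _, _, h.tenB_right X, tenB_proj hX hP, ih hK⟩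
  | succ m ih =>
    have h0 : ∀ {P : OpMod A}, Proj (IsLeft A) P → dhLE (IsBi A) n (tenB P Y) := by
      intro P hP
      clear ih hX
      induction n generalizing Y with
      | zero => exact tenB_proj hP hY
      | succ n ih =>
        obtain ⟨hY1, K, P', j, π, h, hP', hK⟩ := hY
        exact ⟨tenB_bi hP.1 hY1, _, _, _, _, h.tenB_right P, tenB_proj hP hP', ih hK⟩
    obtain ⟨hX1, K, P, j, π, h, hP, hK⟩ := hX
    rw [Nat.add_right_comm]
    exact dhLE.right (good_bi A) (h.tenB_left Y) (ih hK)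
      ((h0 hP).mono (good_bi A) (by omega))

end

end

end Pool.Agent.Lib.MP_1618a1_an
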