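import Pool.Agent.Lib.MP_1618a1_an.Maps

/-!
# The morphisms `r_n : P₁ → I'` with `r_n ∘ j = ` the projection to the columns `≤ n`
-/

set_option autoImplicit false

namespace Pool.Agent.Lib.MP_1618a1_an

noncomputable section

/-- `r_n` on `M'` -/
def rM (n : ℕ) : At (atomsM false) →L[ℂ] At (atomsI false) :=
  atLift _ (Sum.elim (fun p => if p.1 ≤ n ∧ p.2 < n then (atomsI false).g p else 0)
    fun l => if l ≤ n then ∑ i ∈ Finset.range n, (atomsI false).g (l, i) else 0)

/-- `r_n` on `I` (up to the sign) -/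
def rI (n : ℕ) : At (atomsI true) →L[ℂ] At (atomsI false) :=
  atLift _ fun p => if p.1 ≤ n ∧ n ≤ p.2 then (atomsI false).g p else 0

lemma rI_bdd (n : ℕ) : ∀ s ∈ (atomsI true).S,
    ‖lc (fun p => if p.1 ≤ n ∧ n ≤ p.2 then (atomsI false).g p else 0) s‖ ≤ 1 := fun s hs => by
  rw [lc_filter]
  refine norm_atom_le ⟨hs.1.filter _, ?_⟩
  intro p hp q hq
  rw [Finsupp.support_filter, Finset.mem_filter] at hp hq
  by_contra hne
  rcases lt_or_gt_of_ne hne with h | h
  · have := hs.2 p hp.1 q hq.1 h
    omega
  · have := hs.2 q hq.1 p hp.1 h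
    omega

lemma rM_bdd (n : ℕ) : ∀ s ∈ (atomsM false).S,
    ‖lc (Sum.elim (fun p => if p.1 ≤ n ∧ p.2 < n then (atomsI false).g p else 0)
    fun l => if l ≤ n then ∑ i ∈ Finset.range n, (atomsI false).g (l, i) else 0) s‖ ≤ 1 := by
  refine sum_bdd (fun s hs => ?_) ?_
  · simp only [Sum.elim_inl]
    rw [lc_filter]
    exact norm_atom_le (atomsI_filter hs _)
  · rintro _ ⟨l, rfl⟩
    simp only [Sum.elim_inr, lc, Finsupp.linearCombination_single, one_smul]
    split_ifs
    · have h : ∑ i ∈ Finset.range n, (atomsI false).g (l, i) = lc (atomsI false).g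
          (∑ i ∈ Finset.range n, Finsupp.single (l, i) (1 : ℂ)) := by
        simp [lc, map_sum]
      rw [h]
      have hval : ∀ b : ℕ × ℕ, (∑ i ∈ Finset.range n, Finsupp.single (l, i) (1 : ℂ)) b =
          if b.1 = l ∧ b.2 < n then 1 else 0 := fun b => by
        rw [Finsupp.finsetSum_apply]
        obtain ⟨x, y⟩ := b
        simp only [Finsupp.single_apply, Prod.mk.injEq]
        by_cases hx : l = x
        · subst hx
          simp only [true_and]
          rw [Finset.sum_ite_eq']
          simp
        · simp [hx, eq_comm (a := x)]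
      refine norm_atom_le ⟨fun b => ?_, Adm.of_col (l := l) fun p hp => ?_⟩
      · rw [hval]; split_ifs <;> simp
      · rw [Finsupp.mem_support_iff, hval] at hp
        by_contra hne
        exact hp (if_neg fun h => hne h.1)
    · simp

@[simp] lemma rI_g (n : ℕ) (p : ℕ × ℕ) : rI n ((atomsI true).g p) =
    if p.1 ≤ n ∧ n ≤ p.2 then (atomsI false).g p else 0 := atLift_g ⟨1, rI_bdd n⟩ p

@[simp] lemma rM_inl (n : ℕ) (p : ℕ × ℕ) : rM n ((atomsM false).g (.inl p)) =
    if p.1 ≤ n ∧ p.2 < n then (atomsI false).g p else 0 := atLift_g ⟨1, rM_bdd n⟩ _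

@[simp] lemma rM_inr (n : ℕ) (l : ℕ) : rM n ((atomsM false).g (.inr l)) =
    if l ≤ n then ∑ i ∈ Finset.range n, (atomsI false).g (l, i) else 0 :=
  atLift_g ⟨1, rM_bdd n⟩ _

lemma norm_rI_le (n : ℕ) : ‖rI n‖ ≤ 1 := norm_atLift_le zero_le_one (rI_bdd n)
lemma norm_rM_le (n : ℕ) : ‖rM n‖ ≤ 1 := norm_atLift_le zero_le_one (rM_bdd n)

lemma rI_act (n : ℕ) (a : MAlg) (x : At (atomsI true)) :
    rI n (actI true true a x) = actI true false a (rI n x) := by
  refine at_eq (A := atomsI true) (rI n ∘L (actI true true a)) ((actI true false a) ∘L rI n)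
    (fun p => ?_) x
  simp only [ContinuousLinearMap.comp_apply]
  rw [actI_gp, map_smul, rI_g]
  split_ifs
  · rw [actI_gp]
  · simp

lemma rM_act (n : ℕ) (a : MAlg) (x : At (atomsM false)) :
    rM n (actM true false a x) = actI true false a (rM n x) :=
  hom_of_basis (actM true false) (actI true false) (rM n) (fun b p => by
    rw [actM_g]
    rcases b with q | l <;> rcases p with p | m
    · simp only [bmul, rM_inl]
      by_cases h : q = p
      · subst h
        by_cases h' : q.1 ≤ n ∧ q.2 < n <;> simp [h', bactI]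
      · by_cases h' : p.1 ≤ n ∧ p.2 < n <;> simp [h, h', bactI]
    · simp only [bmul, rM_inr]
      by_cases h : q.1 = m
      · subst h
        by_cases h' : q.1 ≤ n
        · simp only [if_true, Atoms.og_some, rM_inl, h', true_and, map_sum, actI_g, bactI]
          by_cases h2 : q.2 < n
          · rw [if_pos h2, Finset.sum_eq_single_of_mem q.2 (Finset.mem_range.2 h2)]
            · simp
            · intro i _ hi
              rw [if_neg]
              · rfl
              · intro h3
                exact hi (by rw [h3])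
          · rw [if_neg h2]
            symm
            refine Finset.sum_eq_zero fun i hi => ?_
            rw [if_neg]
            · rfl
            · intro h3
              rw [h3] at h2
              exact h2 (Finset.mem_range.1 hi)
        · simp [h']
      · by_cases h' : m ≤ n
        · simp only [if_neg h, Atoms.og_none, map_zero, if_pos h', map_sum, actI_g, bactI]
          symm
          refine Finset.sum_eq_zero fun i hi => ?_
          rw [if_neg]
          · rfl
          · intro h3
            exact h (by rw [h3])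
        · simp [h, h']
    · simp only [bmul, rM_inl]
      by_cases h : l = p.1
      · subst h
        by_cases h' : p.1 ≤ n ∧ p.2 < n <;> simp [h', bactI]
      · by_cases h' : p.1 ≤ n ∧ p.2 < n <;> simp [h, h', bactI]
    · simp only [bmul, rM_inr]
      by_cases h : l = m
      · subst h
        by_cases h' : l ≤ n <;> simp [h', bactI]
      · by_cases h' : m ≤ n <;> simp [h, h', bactI]) a x

/-- the morphism `r_n` -/
def rr (n : ℕ) : At (atomsM false) × At (atomsI true) →L[ℂ] At (atomsI false) :=
  (rM n).coprod (-(rI n))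

lemma rr_apply (n : ℕ) (x : At (atomsM false)) (y : At (atomsI true)) :
    rr n (x, y) = rM n x - rI n y := by
  rw [rr, ContinuousLinearMap.coprod_apply, neg_apply, sub_eq_add_neg]

lemma rr_hom (n : ℕ) : IsHom modP (modI false) (rr n) := fun a x => by
  obtain ⟨x, y⟩ := x
  change rr n (actM true false a x, actI true true a y) = actI true false a (rr n (x, y))
  rw [rr_apply, rr_apply, rM_act, rI_act, map_sub]

lemma norm_rr_le (n : ℕ) : ‖rr n‖ ≤ 2 := by
  refine ContinuousLinearMap.opNorm_le_bound _ zero_le_two fun x => ?_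
  obtain ⟨x, y⟩ := x
  rw [rr_apply]
  have h1 : ‖rM n x‖ ≤ ‖(x, y)‖ := by
    calc ‖rM n x‖ ≤ ‖rM n‖ * ‖x‖ := ContinuousLinearMap.le_opNorm _ _
      _ ≤ 1 * ‖(x, y)‖ := by
        gcongr
        · exact norm_rM_le n
        · exact norm_fst_le (x, y)
      _ = _ := one_mul _
  have h2 : ‖rI n y‖ ≤ ‖(x, y)‖ := by
    calc ‖rI n y‖ ≤ ‖rI n‖ * ‖y‖ := ContinuousLinearMap.le_opNorm _ _
      _ ≤ 1 * ‖(x, y)‖ := by
        gcongr
        · exact norm_rI_le n
        · exact norm_snd_le (x, y)
      _ = _ := one_mul _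
  calc ‖rM n x - rI n y‖ ≤ ‖rM n x‖ + ‖rI n y‖ := norm_sub_le _ _
    _ ≤ 2 * ‖(x, y)‖ := by linarith

lemma rr_jj (n : ℕ) (p : ℕ × ℕ) : rr n (jj ((atomsI false).g p)) =
    if p.1 ≤ n then (atomsI false).g p else 0 := by
  rw [jj_apply, rr_apply, inM_g, incI_g, map_neg, rM_inl, rI_g]
  by_cases h : p.1 ≤ n
  · by_cases h' : p.2 < n
    · have : ¬ (n ≤ p.2) := not_le.2 h'
      simp [h, h', this]
    · have : n ≤ p.2 := not_lt.1 h'
      simp [h, h', this]
  · simp [h]

end

end Pool.Agent.Lib.MP_1618a1_an
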