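import Pool.Agent.Lib.MP_1618a1_an.Maps
import Pool.Agent.Lib.MP_1618a1_an.Mods

/-!
# Diagonal maps, projective left modules, retracts of tensor products
-/

set_option autoImplicit false

namespace Pool.Agent.Lib.MP_1618a1_an

noncomputable section

lemma tmk_smul_smul {E F : Type} [NormedAddCommGroup E] [NormedSpace ℂ E] [NormedAddCommGroup F]
    [NormedSpace ℂ F] (x x' : E) (y y' : F) :
    tmk x y + tmk x' y' = (2⁻¹ : ℂ) • tmk (x + x') (y + y') + (2⁻¹ : ℂ) • tmk (x - x') (y - y') := by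
  simp only [sub_eq_add_neg, tmk_add_left, tmk_add_right]
  have h1 : ∀ (u : E) (v : F), tmk (-u) v = -tmk u v := fun u v => by
    rw [← tmkL_apply, ← tmkL_apply, map_neg]; rfl
  have h2 : ∀ (u : E) (v : F), tmk u (-v) = -tmk u v := fun u v => by
    rw [← tmkL_apply, ← tmkL_apply, map_neg]
  simp only [h1, h2, neg_neg]
  module

/-- averaging over signs -/
lemma avg {ι E F : Type} [DecidableEq ι] [NormedAddCommGroup E] [NormedSpace ℂ E]
    [NormedAddCommGroup F] [NormedSpace ℂ F] (x : ι → E) (y : ι → F) {c d : ℝ} (hc : 0 ≤ c)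
    (G : Finset ι) : ∀ (X : E) (Y : F),
    (∀ ε : ι → ℂ, (∀ i, ε i = 1 ∨ ε i = -1) → ‖X + ∑ i ∈ G, ε i • x i‖ ≤ c) →
    (∀ ε : ι → ℂ, (∀ i, ε i = 1 ∨ ε i = -1) → ‖Y + ∑ i ∈ G, ε i • y i‖ ≤ d) →
    ‖tmk X Y + ∑ i ∈ G, tmk (x i) (y i)‖ ≤ c * d := by
  induction G using Finset.induction_on with
  | empty =>
    intro X Y h1 h2
    simp only [Finset.sum_empty, add_zero] at h1 h2 ⊢
    have h1' := h1 (fun _ => 1) fun _ => Or.inl rfl
    have h2' := h2 (fun _ => 1) fun _ => Or.inl rfl
    calc ‖tmk X Y‖ ≤ ‖X‖ * ‖Y‖ := norm_tmk_le _ _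
      _ ≤ c * d := mul_le_mul h1' h2' (norm_nonneg _) hc
  | insert q G hq ih =>
    intro X Y h1 h2
    rw [Finset.sum_insert hq]
    have key : tmk X Y + (tmk (x q) (y q) + ∑ i ∈ G, tmk (x i) (y i)) =
        (2⁻¹ : ℂ) • (tmk (X + x q) (Y + y q) + ∑ i ∈ G, tmk (x i) (y i)) +
        (2⁻¹ : ℂ) • (tmk (X - x q) (Y - y q) + ∑ i ∈ G, tmk (x i) (y i)) := by
      rw [← add_assoc, tmk_smul_smul X (x q) Y (y q)]
      module
    have aux : ∀ {V : Type} [NormedAddCommGroup V] [NormedSpace ℂ V] (Z : V) (z : ι → V) (e : ℝ)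
        (h : ∀ ε : ι → ℂ, (∀ i, ε i = 1 ∨ ε i = -1) → ‖Z + ∑ i ∈ insert q G, ε i • z i‖ ≤ e)
        (σ : ℂ) (_ : σ = 1 ∨ σ = -1), ∀ ε : ι → ℂ, (∀ i, ε i = 1 ∨ ε i = -1) →
        ‖(Z + σ • z q) + ∑ i ∈ G, ε i • z i‖ ≤ e := by
      intro V _ _ Z z e h σ hσ ε hε
      have := h (fun i => if i = q then σ else ε i) fun i => by
        by_cases hi : i = q
        · simp [hi, hσ]
        · simp [hi, hε i]
      rw [Finset.sum_insert hq, if_pos rfl, ← add_assoc] at this
      have h3 : ∑ i ∈ G, (if i = q then σ else ε i) • z i = ∑ i ∈ G, ε i • z i :=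
        Finset.sum_congr rfl fun i hi => by
          rw [if_neg (fun h' : i = q => hq (h' ▸ hi))]
      rwa [h3] at this
    have hp := ih (X + x q) (Y + y q)
      (by simpa using aux X x c h1 1 (Or.inl rfl)) (by simpa using aux Y y d h2 1 (Or.inl rfl))
    have hm := ih (X - x q) (Y - y q)
      (by simpa [sub_eq_add_neg] using aux X x c h1 (-1) (Or.inr rfl))
      (by simpa [sub_eq_add_neg] using aux Y y d h2 (-1) (Or.inr rfl))
    rw [key]
    have hn : ‖(2⁻¹ : ℂ)‖ = 2⁻¹ := by simp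
    calc _ ≤ ‖(2⁻¹ : ℂ) • (tmk (X + x q) (Y + y q) + ∑ i ∈ G, tmk (x i) (y i))‖ +
          ‖(2⁻¹ : ℂ) • (tmk (X - x q) (Y - y q) + ∑ i ∈ G, tmk (x i) (y i))‖ := norm_add_le _ _
      _ ≤ 2⁻¹ * (c * d) + 2⁻¹ * (c * d) := by
          rw [norm_smul, norm_smul, hn]
          gcongr
      _ = c * d := by ring

/-- signed sums over admissible sets have norm `≤ 1` -/
lemma norm_signed_sum_le {k : Bool} {G : Finset (ℕ × ℕ)} (hG : Adm k G) (η : ℕ × ℕ → ℂ)
    (hη : ∀ p, η p = 0 ∨ η p = 1 ∨ η p = -1) : ‖∑ p ∈ G, η p • (atomsI k).g p‖ ≤ 1 := by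
  have h : ∑ p ∈ G, η p • (atomsI k).g p =
      lc (atomsI k).g (∑ p ∈ G, Finsupp.single p (η p)) := by
    simp [lc, map_sum]
  have hval : ∀ b : ℕ × ℕ, (∑ p ∈ G, Finsupp.single p (η p)) b = if b ∈ G then η b else 0 :=
    fun b => by
      rw [Finsupp.finsetSum_apply]
      simp only [Finsupp.single_apply]
      rw [Finset.sum_ite_eq']
  rw [h]
  refine norm_atom_le ⟨fun b => ?_, hG.mono fun p hp => ?_⟩
  · rw [hval]
    split_ifs
    · exact hη b
    · simp
  · rw [Finsupp.mem_support_iff, hval] at hp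
    by_contra hne
    exact hp (if_neg hne)

/-- the diagonal map `I → I ⊗ I`, `δ_p ↦ δ_p ⊗ δ_p` -/
def rho (k : Bool) : At (atomsI k) →L[ℂ] Ten (At (atomsI k)) (At (atomsI k)) :=
  atLift _ fun p => tmk ((atomsI k).g p) ((atomsI k).g p)

lemma rho_bdd (k : Bool) : ∀ s ∈ (atomsI k).S,
    ‖lc (fun p => tmk ((atomsI k).g p) ((atomsI k).g p)) s‖ ≤ 1 := fun s hs => by
  have h1 : lc (fun p => tmk ((atomsI k).g p) ((atomsI k).g p)) s =
      tmk 0 0 + ∑ p ∈ s.support, tmk (s p • (atomsI k).g p) ((atomsI k).g p) := by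
    simp only [lc, Finsupp.linearCombination_apply, Finsupp.sum, tmk_smul_left, tmk_zero_left,
      zero_add]
  rw [h1]
  refine (avg (fun p => s p • (atomsI k).g p) (fun p => (atomsI k).g p) zero_le_one s.support 0 0
    (fun ε hε => ?_) (fun ε hε => ?_) (d := 1)).trans (by norm_num)
  · simp only [zero_add, smul_smul]
    refine norm_signed_sum_le hs.2 (fun p => ε p * s p) fun p => ?_
    rcases hε p with h | h <;> rcases hs.1 p with h' | h' | h' <;> simp [h, h']
  · rw [zero_add]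
    exact norm_signed_sum_le hs.2 ε fun p => Or.inr (hε p)

@[simp] lemma rho_g (k : Bool) (p : ℕ × ℕ) : rho k ((atomsI k).g p) =
    tmk ((atomsI k).g p) ((atomsI k).g p) := atLift_g ⟨1, rho_bdd k⟩ p

/-- the product of `I` as a map `I ⊗ I → I` -/
def mulI (k : Bool) : Ten (At (atomsI k)) (At (atomsI k)) →L[ℂ] At (atomsI k) :=
  tlift (oact _ _ _ fun p q => if p = q then some q else none)

lemma bdd_mulI (k : Bool) : Bdd₂ (atomsI k) (atomsI k)
    (fun p q => (atomsI k).og (if p = q then some q else none)) 1 := by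
  intro t ht s hs
  have h : ∀ p : ℕ × ℕ, lc (fun q => (atomsI k).og (if p = q then some q else none)) s =
      s p • (atomsI k).g p := fun p => by
    rw [← lc_ite_eq]
    congr 1
    funext q
    split_ifs <;> rfl
  simp only [h]
  rw [lc_mul]
  exact norm_atom_le (atomsI_mul ht hs)

@[simp] lemma mulI_g (k : Bool) (p q : ℕ × ℕ) :
    mulI k (tmk ((atomsI k).g p) ((atomsI k).g q)) = if p = q then (atomsI k).g q else 0 := by
  rw [mulI, tlift_tmk, oact, atLift₂_g zero_le_one (bdd_mulI k)]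
  split_ifs <;> rfl

/-- the diagonal map `L → L ⊗ L` -/
def rhoL : At atomsL →L[ℂ] Ten (At atomsL) (At atomsL) :=
  atLift _ fun l => tmk (atomsL.g l) (atomsL.g l)

@[simp] lemma rhoL_g (l : ℕ) : rhoL (atomsL.g l) = tmk (atomsL.g l) (atomsL.g l) :=
  atLift_g ⟨1, by
    rintro _ ⟨m, rfl⟩
    simp only [lc, Finsupp.linearCombination_single, one_smul]
    calc _ ≤ ‖atomsL.g m‖ * ‖atomsL.g m‖ := norm_tmk_le _ _
      _ ≤ 1 * 1 := mul_le_mul (norm_g_le m) (norm_g_le m) (norm_nonneg _) zero_le_one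
      _ = 1 := one_mul 1⟩ l

/-- the product of `L` -/
def mulL : Ten (At atomsL) (At atomsL) →L[ℂ] At atomsL :=
  tlift (oact _ _ _ fun p q => if p = q then some q else none)

lemma bdd_mulL : Bdd₂ atomsL atomsL
    (fun p q => atomsL.og (if p = q then some q else none)) 1 := by
  rintro _ ⟨l, rfl⟩ _ ⟨m, rfl⟩
  simp only [lc, Finsupp.linearCombination_single, one_smul]
  split_ifs
  · exact norm_g_le _
  · simp

@[simp] lemma mulL_g (p q : ℕ) :
    mulL (tmk (atomsL.g p) (atomsL.g q)) = if p = q then atomsL.g q else 0 := by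
  rw [mulL, tlift_tmk, oact, atLift₂_g zero_le_one bdd_mulL]
  split_ifs <;> rfl

/-- two bounded maps on `At A ⊗ At A'` that agree on the basis tensors are equal -/
lemma ten_at_ext {B B' G : Type} {A : Atoms B} {A' : Atoms B'} [NormedAddCommGroup G]
    [NormedSpace ℂ G] {f g : Ten (At A) (At A') →L[ℂ] G}
    (h : ∀ b b', f (tmk (A.g b) (A'.g b')) = g (tmk (A.g b) (A'.g b'))) : f = g := by
  have h1 : (ContinuousLinearMap.compL ℂ (At A') (Ten (At A) (At A')) G f) ∘L tmkL =
      (ContinuousLinearMap.compL ℂ (At A') (Ten (At A) (At A')) G g) ∘L tmkL :=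
    gen_ext fun b => gen_ext fun b' => h b b'
  exact ten_ext fun x y => congrArg (fun F => F x y) h1

lemma rho_hom (k : Bool) : IsHom (sym (modI k)) (tenB (modI k) (modI k)) (rho k) := by
  rintro (a | a) x
  · exact at_eq (A := atomsI k) (rho k ∘L (actI true k a)) (tmap (actI true k a) (.id ℂ _) ∘L rho k) (fun p => by
      simp [actI_gp, tmk_smul_left]) x
  · exact at_eq (A := atomsI k) (rho k ∘L (actI true k a)) (tmap (.id ℂ _) (actI true k a) ∘L rho k) (fun p => by
      simp [actI_gp, tmk_smul_right]) x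

lemma mulI_hom (k : Bool) : IsHom (tenB (modI k) (modI k)) (sym (modI k)) (mulI k) := by
  rintro (a | a) x
  · have h : mulI k ∘L tmap (actI true k a) (.id ℂ _) = actI true k a ∘L mulI k :=
      ten_at_ext fun p q => by
        simp only [ContinuousLinearMap.comp_apply, tmap_tmk, ContinuousLinearMap.id_apply,
          actI_gp, tmk_smul_left, map_smul, mulI_g]
        split_ifs with hpq
        · subst hpq; rw [actI_gp]
        · simp
    exact congrArg (fun F => F x) h
  · have h : mulI k ∘L tmap (.id ℂ _) (actI true k a) = actI true k a ∘L mulI k :=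
      ten_at_ext fun p q => by
        simp only [ContinuousLinearMap.comp_apply, tmap_tmk, ContinuousLinearMap.id_apply,
          actI_gp, tmk_smul_right, map_smul, mulI_g]
        split_ifs with hpq
        · subst hpq; rw [actI_gp]
        · simp
    exact congrArg (fun F => F x) h

lemma mulI_rho (k : Bool) (x : At (atomsI k)) : mulI k (rho k x) = x :=
  at_eq (mulI k ∘L rho k) (.id ℂ _) (fun p => by simp) x

lemma rhoL_hom : IsHom (sym modL) (tenB modL modL) rhoL := by
  rintro (a | a) x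
  · exact at_eq (A := atomsL) (rhoL ∘L (actL true a)) (tmap (actL true a) (.id ℂ _) ∘L rhoL) (fun p => by
      simp [actL_gl, tmk_smul_left]) x
  · exact at_eq (A := atomsL) (rhoL ∘L (actL true a)) (tmap (.id ℂ _) (actL true a) ∘L rhoL) (fun p => by
      simp [actL_gl, tmk_smul_right]) x

lemma mulL_hom : IsHom (tenB modL modL) (sym modL) mulL := by
  rintro (a | a) x
  · have h : mulL ∘L tmap (actL true a) (.id ℂ _) = actL true a ∘L mulL :=
      ten_at_ext fun p q => by
        simp only [ContinuousLinearMap.comp_apply, tmap_tmk, ContinuousLinearMap.id_apply,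
          actL_gl, tmk_smul_left, map_smul, mulL_g]
        split_ifs with hpq
        · subst hpq; rw [actL_gl]
        · simp
    exact congrArg (fun F => F x) h
  · have h : mulL ∘L tmap (.id ℂ _) (actL true a) = actL true a ∘L mulL :=
      ten_at_ext fun p q => by
        simp only [ContinuousLinearMap.comp_apply, tmap_tmk, ContinuousLinearMap.id_apply,
          actL_gl, tmk_smul_right, map_smul, mulL_g]
        split_ifs with hpq
        · subst hpq; rw [actL_gl]
        · simp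
    exact congrArg (fun F => F x) h

lemma mulL_rhoL (x : At atomsL) : mulL (rhoL x) = x :=
  at_eq (mulL ∘L rhoL) (.id ℂ _) (fun p => by simp) x

end

end Pool.Agent.Lib.MP_1618a1_an
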