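import Pool.Agent.Lib.MP_1618a1_an.Alg
import Pool.Agent.Lib.MP_1618a1_an.Coord

/-!
# `M` is a Banach function algebra
-/

set_option autoImplicit false

namespace Pool.Agent.Lib.MP_1618a1_an

noncomputable section

lemma atomsI_her (k : Bool) : (atomsI k).Her where
  filter s hs K := norm_atom_le (atomsI_filter hs _)
  bdd s hs b := hs.1.norm_le b

lemma atomsL_her : atomsL.Her where
  filter := by
    rintro _ ⟨l, rfl⟩ K
    by_cases h : l ∈ K
    · rw [Finsupp.filter_single_of_pos _ h]
      exact norm_atom_le ⟨l, rfl⟩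
    · rw [Finsupp.filter_single_of_neg _ h]
      simp [lc]
  bdd := by
    rintro _ ⟨l, rfl⟩ b
    exact (Sgn.single l).norm_le b

lemma atomsC_her : atomsC.Her where
  filter s hs K := norm_atom_le (Sgn.filter hs _)
  bdd s hs b := Sgn.norm_le hs b

lemma atomsM_her (k : Bool) : (atomsM k).Her where
  filter := by
    classical
    rintro _ (⟨t, ht, rfl⟩ | ⟨_, ⟨l, rfl⟩, rfl⟩) K
    · rw [← lc_trunc, lc_mapDomain]
      rw [lc_filter (fun p => (atomsM k).g (Sum.inl p)) (fun p => Sum.inl p ∈ K),
        ← lc_mapDomain Sum.inl (atomsM k).g]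
      exact norm_atom_le (Or.inl ⟨_, atomsI_filter ht _, rfl⟩)
    · rw [← lc_trunc, lc_mapDomain]
      simp only [lc, Finsupp.linearCombination_single, one_smul]
      split_ifs
      · exact norm_g_le _
      · simp
  bdd := by
    rintro _ (⟨t, ht, rfl⟩ | ⟨_, ⟨l, rfl⟩, rfl⟩) b
    · rcases b with b | b
      · rw [Finsupp.mapDomain_apply Sum.inl_injective]
        exact ht.1.norm_le b
      · rw [Finsupp.mapDomain_of_notMem_range _ _ (by simp)]
        simp
    · simp only [Finsupp.mapDomain_single]
      exact (Sgn.single _).norm_le b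

/-- the character of the eigenvector `δ_p` -/
def chI (p : ℕ × ℕ) : MAlg →L[ℂ] ℂ := coord (atomsM true) (.inl p) + coord (atomsM true) (.inr p.1)

/-- the character of the eigenvector `δ_l` of `L` and `X` -/
def chL (l : ℕ) : MAlg →L[ℂ] ℂ := coord (atomsM true) (.inr l)

lemma g_ne_zero {B : Type} [DecidableEq B] {A : Atoms B} (hA : A.Her) (b : B) : A.g b ≠ 0 := by
  intro h
  have := coord_g hA b b
  rw [h, map_zero, if_pos rfl] at this
  exact zero_ne_one this

lemma actI_gp (k : Bool) (a : MAlg) (p : ℕ × ℕ) :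
    actI true k a ((atomsI k).g p) = chI p a • (atomsI k).g p := by
  refine at_eq ((actI true k).flip ((atomsI k).g p)) ((chI p).smulRight ((atomsI k).g p))
    (fun b => ?_) a
  rw [ContinuousLinearMap.flip_apply, actI_g, ContinuousLinearMap.smulRight_apply, chI, add_apply,
    coord_g (atomsM_her true), coord_g (atomsM_her true)]
  rcases b with q | l
  · simp only [bactI, Sum.inl.injEq, reduceCtorEq, if_false, add_zero, eq_comm (a := q)]
    split_ifs <;> simp
  · simp only [bactI, Sum.inr.injEq, reduceCtorEq, if_false, zero_add, eq_comm (a := l)]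
    split_ifs <;> simp

lemma actL_gl (a : MAlg) (l : ℕ) : actL true a (atomsL.g l) = chL l a • atomsL.g l := by
  refine at_eq ((actL true).flip (atomsL.g l)) ((chL l).smulRight (atomsL.g l)) (fun b => ?_) a
  rw [ContinuousLinearMap.flip_apply, actL_g, ContinuousLinearMap.smulRight_apply, chL,
    coord_g (atomsM_her true)]
  rcases b with q | m
  · simp [bactL]
  · simp only [bactL, Sum.inr.injEq, eq_comm (a := m)]
    split_ifs <;> simp

lemma actC_gl (a : MAlg) (l : ℕ) : actC true a (atomsC.g l) = chL l a • atomsC.g l := by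
  refine at_eq ((actC true).flip (atomsC.g l)) ((chL l).smulRight (atomsC.g l)) (fun b => ?_) a
  rw [ContinuousLinearMap.flip_apply, actC_g, ContinuousLinearMap.smulRight_apply, chL,
    coord_g (atomsM_her true)]
  rcases b with q | m
  · simp [bactL]
  · simp only [bactL, Sum.inr.injEq, eq_comm (a := m)]
    split_ifs <;> simp

lemma chI_mul (p : ℕ × ℕ) (a b : MAlg) : chI p (a * b) = chI p a * chI p b := by
  have h := actI_assoc true true true a b ((atomsI true).g p)
  rw [actI_gp, actI_gp, map_smul, actI_gp, smul_smul] at h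
  have h2 := smul_left_injective ℂ (g_ne_zero (atomsI_her true) p) h
  rw [MAlg.mul_def]
  exact h2.trans (mul_comm _ _)

lemma chL_mul (l : ℕ) (a b : MAlg) : chL l (a * b) = chL l a * chL l b := by
  have h := actL_assoc true true a b (atomsL.g l)
  rw [actL_gl, actL_gl, map_smul, actL_gl, smul_smul] at h
  have h2 := smul_left_injective ℂ (g_ne_zero atomsL_her l) h
  rw [MAlg.mul_def]
  exact h2.trans (mul_comm _ _)

/-- a multiplicative functional as a homomorphism -/
def toChar (f : MAlg →L[ℂ] ℂ) (h : ∀ a b, f (a * b) = f a * f b) : MAlg →ₙₐ[ℂ] ℂ where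
  toFun := f
  map_smul' c a := by simp
  map_zero' := by simp
  map_add' a b := by simp
  map_mul' := h

theorem isBFA_MAlg : IsBFA MAlg := by
  refine ⟨inferInstance, fun a h => eq_zero_of_coord (atomsM_her true) fun b => ?_⟩
  have h1 : ∀ l, coord (atomsM true) (.inr l) a = 0 := fun l =>
    h (toChar (chL l) (chL_mul l))
  rcases b with p | l
  · have h2 : chI p a = 0 := h (toChar (chI p) (chI_mul p))
    rw [chI, add_apply, h1, add_zero] at h2
    exact h2
  · exact h1 l

end

end Pool.Agent.Lib.MP_1618a1_an
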