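import Mathlib

/-!
# Relative homological dimensions of Banach modules and Banach algebras

All Banach spaces are over `ℂ`.
-/

set_option autoImplicit false

namespace Pool.Agent.Lib.MP_1618a1_an

/-- A Banach space `V` with bounded linear operators `act o`, `o : Op`.  Left Banach modules over
an algebra `A` are such objects with `Op = A` (see `IsLeftMod`), Banach `A`-bimodules are such
objects with `Op = A ⊕ A` (see `IsBiMod`). -/
structure OpMod (Op : Type) where
  /-- the underlying Banach space -/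
  V : Type
  [grp : NormedAddCommGroup V]
  [spc : NormedSpace ℂ V]
  [cpl : CompleteSpace V]
  /-- the operators -/
  act : Op → V →L[ℂ] V

attribute [instance] OpMod.grp OpMod.spc OpMod.cpl

section General

variable {Op : Type}

/-- `o · x` -/
def OpMod.op (X : OpMod Op) (o : Op) (x : X.V) : X.V := X.act o x

/-- the bounded linear maps between the underlying Banach spaces -/
def Lin (X Y : OpMod Op) : Type := X.V →L[ℂ] Y.V

/-- `f x` -/
def Lin.app {X Y : OpMod Op} (f : Lin X Y) (x : X.V) : Y.V :=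
  DFunLike.coe (F := X.V →L[ℂ] Y.V) f x

/-- A bounded linear map is a morphism if it commutes with the operators. -/
def IsMor {X Y : OpMod Op} (f : Lin X Y) : Prop := ∀ o x, f.app (X.op o x) = Y.op o (f.app x)

/-- `P` is a projective object of the class `C`: `P` is in `C`, and every morphism `φ : P → Z` lifts
along every morphism `σ : Y → Z` with a bounded linear right inverse (`Y`, `Z` in `C`). -/
def IsProj (C : OpMod Op → Prop) (P : OpMod Op) : Prop :=
  C P ∧ ∀ Y Z : OpMod Op, C Y → C Z → ∀ σ : Lin Y Z, IsMor σ →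
    (∃ τ : Lin Z Y, ∀ z, σ.app (τ.app z) = z) →
    ∀ φ : Lin P Z, IsMor φ → ∃ ψ : Lin P Y, IsMor ψ ∧ ∀ p, σ.app (ψ.app p) = φ.app p

/-- A projective resolution `0 ← X ← P 0 ← P 1 ← ... ← P n ← 0` (with `P i = 0` for `i > n`) that
splits as a complex of Banach spaces: `s₀`, `s i` is a contracting homotopy by bounded linear
maps. -/
structure Resol (C : OpMod Op → Prop) (X : OpMod Op) (n : ℕ) where
  /-- the modules -/
  P : ℕ → OpMod Op
  /-- the augmentation `P 0 → X` -/
  ε : Lin (P 0) X
  /-- the differentials `P (i+1) → P i` -/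
  d : ∀ i, Lin (P (i + 1)) (P i)
  proj : ∀ i, IsProj C (P i)
  zero : ∀ i, n < i → ∀ x : (P i).V, x = 0
  ε_mor : IsMor ε
  d_mor : ∀ i, IsMor (d i)
  ε_d : ∀ x, ε.app ((d 0).app x) = 0
  d_d : ∀ i x, (d i).app ((d (i + 1)).app x) = 0
  /-- the contracting homotopy, `X → P 0` -/
  s₀ : Lin X (P 0)
  /-- the contracting homotopy, `P i → P (i+1)` -/
  s : ∀ i, Lin (P i) (P (i + 1))
  ε_s : ∀ x, ε.app (s₀.app x) = x
  s_ε : ∀ x, s₀.app (ε.app x) + (d 0).app ((s 0).app x) = x
  s_d : ∀ i x, (s i).app ((d i).app x) + (d (i + 1)).app ((s (i + 1)).app x) = x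

/-- The homological dimension of `X` (in the class `C`): the least length of a resolution. -/
noncomputable def hdim (C : OpMod Op → Prop) (X : OpMod Op) : ℕ∞ :=
  sInf ((fun n : ℕ => (n : ℕ∞)) '' {n | Nonempty (Resol C X n)})

end General

section Algebra

variable (A : Type) [NonUnitalNormedCommRing A] [NormedSpace ℂ A]

/-- `X` is a left Banach `A`-module: `a · x` is a bounded bilinear map and
`(a b) · x = a · (b · x)`.  No unit is assumed. -/
def IsLeftMod (X : OpMod A) : Prop :=
  IsBoundedBilinearMap ℂ (fun p : A × X.V => X.op p.1 p.2) ∧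
    ∀ a b x, X.op (a * b) x = X.op a (X.op b x)

/-- `X` is a Banach `A`-bimodule: `op (inl a) x = a · x`, `op (inr a) x = x · a`. -/
def IsBiMod (X : OpMod (A ⊕ A)) : Prop :=
  IsBoundedBilinearMap ℂ (fun p : A × X.V => X.op (Sum.inl p.1) p.2) ∧
    IsBoundedBilinearMap ℂ (fun p : A × X.V => X.op (Sum.inr p.1) p.2) ∧
    (∀ a b x, X.op (Sum.inl (a * b)) x = X.op (Sum.inl a) (X.op (Sum.inl b) x)) ∧
    (∀ a b x, X.op (Sum.inr (a * b)) x = X.op (Sum.inr b) (X.op (Sum.inr a) x)) ∧
    ∀ a b x, X.op (Sum.inl a) (X.op (Sum.inr b) x) = X.op (Sum.inr b) (X.op (Sum.inl a) x)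

variable [IsScalarTower ℂ A A] [SMulCommClass ℂ A A]

/-- left multiplication by `a` on the unitization `A₊ = ℂ ⊕ A`: `a (z, b) = (0, z a + a b)` -/
noncomputable def plusLeft (a : A) : (ℂ × A) →L[ℂ] (ℂ × A) :=
  (ContinuousLinearMap.inr ℂ ℂ A).comp
    ((ContinuousLinearMap.fst ℂ ℂ A).smulRight a +
      (ContinuousLinearMap.mul ℂ A a).comp (ContinuousLinearMap.snd ℂ ℂ A))

/-- right multiplication by `a` on the unitization `A₊ = ℂ ⊕ A`: `(z, b) a = (0, z a + b a)` -/
noncomputable def plusRight (a : A) : (ℂ × A) →L[ℂ] (ℂ × A) :=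
  (ContinuousLinearMap.inr ℂ ℂ A).comp
    ((ContinuousLinearMap.fst ℂ ℂ A).smulRight a +
      ((ContinuousLinearMap.mul ℂ A).flip a).comp (ContinuousLinearMap.snd ℂ ℂ A))

variable [CompleteSpace A]

/-- The unitization `A₊ = ℂ ⊕ A` as a Banach `A`-bimodule. -/
noncomputable def plusBi : OpMod (A ⊕ A) where
  V := ℂ × A
  act := Sum.elim (plusLeft A) (plusRight A)

/-- The global dimension of `A`: the supremum of the homological dimensions of all left Banach
`A`-modules. -/
noncomputable def gdim : ℕ∞ := ⨆ X : {X : OpMod A // IsLeftMod A X}, hdim (IsLeftMod A) X.1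

/-- The bidimension of `A`: the homological dimension of the bimodule `A₊`. -/
noncomputable def bidim : ℕ∞ := hdim (IsBiMod A) (plusBi A)

end Algebra

/-- `A` is semisimple (`A` is commutative): the homomorphisms `A → ℂ` separate the points. -/
def IsSemisimple (A : Type) [NonUnitalNormedCommRing A] [NormedSpace ℂ A] : Prop :=
  ∀ a : A, (∀ χ : A →ₙₐ[ℂ] ℂ, χ a = 0) → a = 0

/-- A Banach function algebra: a commutative semisimple Banach algebra over `ℂ`. -/
structure BanachFunctionAlgebra where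
  /-- the underlying Banach space -/
  A : Type
  [ring : NonUnitalNormedCommRing A]
  [spc : NormedSpace ℂ A]
  [tower : IsScalarTower ℂ A A]
  [smulComm : SMulCommClass ℂ A A]
  [cpl : CompleteSpace A]
  semisimple : IsSemisimple A

attribute [instance] BanachFunctionAlgebra.ring BanachFunctionAlgebra.spc
  BanachFunctionAlgebra.tower BanachFunctionAlgebra.smulComm BanachFunctionAlgebra.cpl

/-- the set of all global dimensions of Banach function algebras -/
def Mg : Set ℕ∞ := {n | ∃ B : BanachFunctionAlgebra, gdim B.A = n}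

/-- the set of all bidimensions of Banach function algebras -/
def Mb : Set ℕ∞ := {n | ∃ B : BanachFunctionAlgebra, bidim B.A = n}

/-- alternative (i) of the problem: `{0, 2, 4, ...} ∪ {∞}` -/
def altI : Set ℕ∞ := {x | ∃ k : ℕ, x = ((2 * k : ℕ) : ℕ∞)} ∪ {⊤}

/-- alternative (ii) of the problem: `{0, 2, 4, ...} ∪ {2k+1 : k ≥ n+1} ∪ {∞}` -/
def altII (n : ℕ) : Set ℕ∞ :=
  {x | ∃ k : ℕ, x = ((2 * k : ℕ) : ℕ∞)} ∪ {x | ∃ k : ℕ, n + 1 ≤ k ∧ x = ((2 * k + 1 : ℕ) : ℕ∞)} ∪ {⊤}

end Pool.Agent.Lib.MP_1618a1_an
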