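import Pool.Agent.Lib.MP_1618a1_an.Theory1

/-!
# Second part of the dimension theory: Schanuel's lemma
-/

set_option autoImplicit false

namespace Pool.Agent.Lib.MP_1618a1_an

noncomputable section

variable {Op : Type} {C : OpMod Op → Prop}

lemma kerIncl_inj {X Y : OpMod Op} (f : X.V →L[ℂ] Y.V) (hf : IsHom X Y f)
    {a b : (kerMod f hf).V} (h : kerIncl f hf a = kerIncl f hf b) : a = b :=
  Subtype.ext h

lemma kerIncl_hom {X Y : OpMod Op} (f : X.V →L[ℂ] Y.V) (hf : IsHom X Y f) :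
    IsHom (kerMod f hf) X (kerIncl f hf) := fun _ _ => rfl

lemma kerIncl_mem {X Y : OpMod Op} (f : X.V →L[ℂ] Y.V) (hf : IsHom X Y f)
    (a : (kerMod f hf).V) : f (kerIncl f hf a) = 0 := a.2

/-- a morphism killed by `f` factors through the kernel of `f` -/
lemma kerLift {X Y Z : OpMod Op} (f : X.V →L[ℂ] Y.V) (hf : IsHom X Y f) {g : Z.V →L[ℂ] X.V}
    (hg : IsHom Z X g) (h0 : ∀ z, f (g z) = 0) :
    ∃ k : Z.V →L[ℂ] (kerMod f hf).V, IsHom Z (kerMod f hf) k ∧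
      ∀ z, kerIncl f hf (k z) = g z := by
  refine ⟨g.codRestrict f.ker (fun z => h0 z), fun o z => ?_, fun z => rfl⟩
  apply Subtype.ext
  change g (Z.act o z) = X.act o (g z)
  exact hg o z

lemma SES.inj {K P X : OpMod Op} {j : K.V →L[ℂ] P.V} {π : P.V →L[ℂ] X.V} (h : SES K P X j π)
    {a b : K.V} (hab : j a = j b) : a = b := by
  obtain ⟨t, s, h1, -, -, -⟩ := h.split
  rw [← h1 a, ← h1 b, hab]

/-- one half of Schanuel's lemma: the map `K × P' → K' × P` -/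
lemma schanuel_map {K P K' P' X : OpMod Op} {j : K.V →L[ℂ] P.V} {π : P.V →L[ℂ] X.V}
    {j' : K'.V →L[ℂ] P'.V} {π' : P'.V →L[ℂ] X.V} (h : SES K P X j π) (h' : SES K' P' X j' π')
    {φ : P.V →L[ℂ] P'.V} (hφ : IsHom P P' φ) (hπφ : ∀ p, π' (φ p) = π p)
    {φ' : P'.V →L[ℂ] P.V} (hφ' : IsHom P' P φ') (hπφ' : ∀ p, π (φ' p) = π' p) :
    ∃ f : (prodMod K P').V →L[ℂ] (prodMod K' P).V, IsHom (prodMod K P') (prodMod K' P) f ∧
      ∀ k p', (f (k, p')).2 = j k + φ' p' ∧ j' (f (k, p')).1 = p' - φ (j k + φ' p') := by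
  let a : (K.V × P'.V) →L[ℂ] P.V := j.comp (ContinuousLinearMap.fst ℂ K.V P'.V) +
    φ'.comp (ContinuousLinearMap.snd ℂ K.V P'.V)
  have ha : IsHom (prodMod K P') P a := by
    rintro o ⟨k, p'⟩
    change j (K.act o k) + φ' (P'.act o p') = P.act o (j k + φ' p')
    rw [h.jhom, hφ', map_add]
  let F : (K.V × P'.V) →L[ℂ] P'.V := ContinuousLinearMap.snd ℂ K.V P'.V - φ.comp a
  have hF : IsHom (prodMod K P') P' F := by
    rintro o ⟨k, p'⟩
    have e : φ (j (K.act o k) + φ' (P'.act o p')) = P'.act o (φ (j k + φ' p')) := by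
      rw [h.jhom, hφ', ← map_add, hφ]
    change P'.act o p' - φ (j (K.act o k) + φ' (P'.act o p')) = P'.act o (p' - φ (j k + φ' p'))
    rw [e, map_sub]
  have h0 : ∀ y, π' (F y) = 0 := by
    rintro ⟨k, p'⟩
    change π' (p' - φ (j k + φ' p')) = 0
    obtain ⟨t, s, -, -, -, h4⟩ := h.split
    rw [map_sub, hπφ, map_add, h4, hπφ', zero_add, sub_self]
  obtain ⟨g, hg, hjg⟩ := h'.lift hF h0
  refine ⟨ContinuousLinearMap.prod g a, ?_, ?_⟩
  · intro o x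
    exact Prod.ext (hg o x) (ha o x)
  · intro k p'
    exact ⟨rfl, hjg (k, p')⟩

/-- Schanuel's lemma: two projective presentations of the same module -/
lemma schanuel (hC : Good C) {K P K' P' X : OpMod Op} {j : K.V →L[ℂ] P.V} {π : P.V →L[ℂ] X.V}
    {j' : K'.V →L[ℂ] P'.V} {π' : P'.V →L[ℂ] X.V} (h : SES K P X j π) (h' : SES K' P' X j' π')
    (hP : Proj C P) (hP' : Proj C P') :
    ∃ (f : (prodMod K P').V →L[ℂ] (prodMod K' P).V) (g : (prodMod K' P).V →L[ℂ] (prodMod K P').V),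
      IsHom _ _ f ∧ IsHom _ _ g ∧ (∀ x, g (f x) = x) ∧ ∀ y, f (g y) = y := by
  have hX : C X := (h.cls hC hP.1).2
  have hs : ∃ s : X.V →L[ℂ] P.V, ∀ x, π (s x) = x := by
    obtain ⟨t, s, -, h2, -, -⟩ := h.split
    exact ⟨s, h2⟩
  have hs' : ∃ s : X.V →L[ℂ] P'.V, ∀ x, π' (s x) = x := by
    obtain ⟨t, s, -, h2, -, -⟩ := h'.split
    exact ⟨s, h2⟩
  obtain ⟨φ, hφ, hπφ⟩ := hP.2 P' X hP'.1 hX π' h'.πhom hs' π h.πhom
  obtain ⟨φ', hφ', hπφ'⟩ := hP'.2 P X hP.1 hX π h.πhom hs π' h'.πhom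
  obtain ⟨f, hf, hf2⟩ := schanuel_map h h' hφ hπφ hφ' hπφ'
  obtain ⟨g, hg, hg2⟩ := schanuel_map h' h hφ' hπφ' hφ hπφ
  refine ⟨f, g, hf, hg, ?_, ?_⟩
  · rintro ⟨k, p'⟩
    obtain ⟨e1, e2⟩ := hf2 k p'
    obtain ⟨e3, e4⟩ := hg2 (f (k, p')).1 (f (k, p')).2
    have e5 : (g (f (k, p'))).2 = p' := by
      change (g ((f (k, p')).1, (f (k, p')).2)).2 = p'
      rw [e3, e2, e1]
      abel
    have e6 : (g (f (k, p'))).1 = k := by
      apply h.inj
      change j (g ((f (k, p')).1, (f (k, p')).2)).1 = j k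
      rw [e4, e2, e1, sub_add_cancel]
      abel
    exact Prod.ext e6 e5
  · rintro ⟨k', p⟩
    obtain ⟨e1, e2⟩ := hg2 k' p
    obtain ⟨e3, e4⟩ := hf2 (g (k', p)).1 (g (k', p)).2
    have e5 : (f (g (k', p))).2 = p := by
      change (f ((g (k', p)).1, (g (k', p)).2)).2 = p
      rw [e3, e2, e1]
      abel
    have e6 : (f (g (k', p))).1 = k' := by
      apply h'.inj
      change j' (f ((g (k', p)).1, (g (k', p)).2)).1 = j' k'
      rw [e4, e2, e1, sub_add_cancel]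
      abel
    exact Prod.ext e6 e5

/-- every projective presentation computes the dimension, given invariance under retracts -/
lemma syzygy_step (hC : Good C) (n : ℕ)
    (R : ∀ (X Y : OpMod Op) (i : Y.V →L[ℂ] X.V) (r : X.V →L[ℂ] Y.V), IsHom Y X i → IsHom X Y r →
      (∀ y, r (i y) = y) → dhLE C n X → dhLE C n Y)
    (K P X : OpMod Op) (j : K.V →L[ℂ] P.V) (π : P.V →L[ℂ] X.V) (h : SES K P X j π)
    (hP : Proj C P) (hX : dhLE C (n + 1) X) : dhLE C n K := by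
  obtain ⟨_, K0, P0, j0, π0, h0, hP0, hK0⟩ := hX
  obtain ⟨f, g, hf, hg, hgf, hfg⟩ := schanuel hC h0 h hP0 hP
  have hprod : dhLE C n (prodMod K0 P) :=
    dhLE.prod hC hK0 (dhLE.mono hC (Nat.zero_le n) (show dhLE C 0 P from hP))
  refine R (prodMod K0 P) K (g.comp (ContinuousLinearMap.inl ℂ K.V P0.V))
    ((ContinuousLinearMap.fst ℂ K.V P0.V).comp f) ?_ ?_ ?_ hprod
  · intro o k
    change g (K.act o k, 0) = (prodMod K0 P).act o (g (k, 0))
    rw [← hg]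
    change g (K.act o k, 0) = g (K.act o k, P0.act o 0)
    rw [map_zero]
  · intro o x
    change (f ((prodMod K0 P).act o x)).1 = K.act o (f x).1
    rw [hf]
    rfl
  · intro k
    change (f (g (k, 0))).1 = k
    rw [hfg]

/-- invariance under retracts, one step up -/
lemma retract_step (hC : Good C) (n : ℕ)
    (R : ∀ (X Y : OpMod Op) (i : Y.V →L[ℂ] X.V) (r : X.V →L[ℂ] Y.V), IsHom Y X i → IsHom X Y r →
      (∀ y, r (i y) = y) → dhLE C n X → dhLE C n Y)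
    (X Y : OpMod Op) (i : Y.V →L[ℂ] X.V) (r : X.V →L[ℂ] Y.V) (hi : IsHom Y X i)
    (hr : IsHom X Y r) (hri : ∀ y, r (i y) = y) (hX : dhLE C (n + 1) X) : dhLE C (n + 1) Y := by
  have cX : C X := hX.cls
  have hk := SES.ker hr ⟨i, hri⟩
  obtain ⟨cX', cY⟩ := hk.cls hC cX
  obtain ⟨PY, πY, hPY, hπY, sY, hsY⟩ := hC.enough Y cY
  obtain ⟨PZ, πZ, hPZ, hπZ, sZ, hsZ⟩ := hC.enough (kerMod r hr) cX'
  let p1 : (prodMod PY PZ).V →L[ℂ] PY.V := ContinuousLinearMap.fst ℂ PY.V PZ.V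
  let p2 : (prodMod PY PZ).V →L[ℂ] PZ.V := ContinuousLinearMap.snd ℂ PY.V PZ.V
  let Qp : (prodMod PY PZ).V →L[ℂ] X.V := (i.comp πY).comp p1 + ((kerIncl r hr).comp πZ).comp p2
  have hQ : IsHom (prodMod PY PZ) X Qp := by
    rintro o ⟨p, q⟩
    change i (πY (PY.act o p)) + kerIncl r hr (πZ (PZ.act o q))
      = X.act o (i (πY p) + kerIncl r hr (πZ q))
    rw [hπY, hi, hπZ, kerIncl_hom r hr, map_add]
  have hrQ : ∀ p q, r (Qp (p, q)) = πY p := by
    intro p q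
    change r (i (πY p) + kerIncl r hr (πZ q)) = πY p
    rw [map_add, hri, kerIncl_mem, add_zero]
  have hQs : ∃ s : X.V →L[ℂ] (prodMod PY PZ).V, ∀ x, Qp (s x) = x := by
    let c : X.V →L[ℂ] (kerMod r hr).V :=
      (ContinuousLinearMap.id ℂ X.V - i.comp r).codRestrict r.ker (fun x => by
        change r (x - i (r x)) = 0
        rw [map_sub, hri, sub_self])
    have hc : ∀ x, kerIncl r hr (c x) = x - i (r x) := fun x => rfl
    refine ⟨ContinuousLinearMap.prod (sY.comp r) (sZ.comp c), fun x => ?_⟩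
    change i (πY (sY (r x))) + kerIncl r hr (πZ (sZ (c x))) = x
    rw [hsY, hsZ, hc]
    abel
  have hses := SES.ker hQ hQs
  have hker := syzygy_step hC n R _ _ _ _ _ hses (hPY.prod hC hPZ) hX
  refine ⟨cY, kerMod πY hπY, PY, kerIncl πY hπY, πY, SES.ker hπY ⟨sY, hsY⟩, hPY, ?_⟩
  -- `ker πY` is a retract of `ker Qp`
  have hG : IsHom (kerMod πY hπY) (prodMod PY PZ)
      ((ContinuousLinearMap.inl ℂ PY.V PZ.V).comp (kerIncl πY hπY)) := by
    intro o k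
    change (kerIncl πY hπY ((kerMod πY hπY).act o k), (0 : PZ.V))
      = (PY.act o (kerIncl πY hπY k), PZ.act o 0)
    rw [kerIncl_hom, map_zero]
  obtain ⟨G, hGh, hGi⟩ := kerLift Qp hQ hG (fun k => by
    change i (πY (kerIncl πY hπY k)) + kerIncl r hr (πZ 0) = 0
    rw [kerIncl_mem, map_zero, map_zero, map_zero, add_zero])
  have hF : IsHom (kerMod Qp hQ) PY (p1.comp (kerIncl Qp hQ)) := by
    intro o k
    change (kerIncl Qp hQ ((kerMod Qp hQ).act o k)).1 = PY.act o (kerIncl Qp hQ k).1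
    rw [kerIncl_hom]
    rfl
  obtain ⟨F, hFh, hFi⟩ := kerLift πY hπY hF (fun k => by
    change πY (kerIncl Qp hQ k).1 = 0
    rw [← hrQ (kerIncl Qp hQ k).1 (kerIncl Qp hQ k).2]
    change r (Qp (kerIncl Qp hQ k)) = 0
    rw [kerIncl_mem Qp hQ k, map_zero])
  refine R (kerMod Qp hQ) (kerMod πY hπY) G F hGh hFh (fun k => ?_) hker
  apply kerIncl_inj πY hπY
  rw [hFi]
  change (kerIncl Qp hQ (G k)).1 = kerIncl πY hπY k
  rw [hGi]
  rfl

/-- retracts do not increase the dimension, and every projective presentation computes it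
(simultaneous induction) -/
lemma dhLE.retract_and_syzygy (hC : Good C) (n : ℕ) :
    (∀ (X Y : OpMod Op) (i : Y.V →L[ℂ] X.V) (r : X.V →L[ℂ] Y.V), IsHom Y X i → IsHom X Y r →
      (∀ y, r (i y) = y) → dhLE C n X → dhLE C n Y) ∧
    (∀ (K P X : OpMod Op) (j : K.V →L[ℂ] P.V) (π : P.V →L[ℂ] X.V), SES K P X j π → Proj C P →
      dhLE C (n + 1) X → dhLE C n K) := by
  induction n with
  | zero =>
    have R : ∀ (X Y : OpMod Op) (i : Y.V →L[ℂ] X.V) (r : X.V →L[ℂ] Y.V), IsHom Y X i →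
        IsHom X Y r → (∀ y, r (i y) = y) → dhLE C 0 X → dhLE C 0 Y :=
      fun X Y i r hi hr hri hX => Proj.retract hC hi hr hri hX
    exact ⟨R, syzygy_step hC 0 R⟩
  | succ n ih =>
    have R := retract_step hC n ih.1
    exact ⟨R, syzygy_step hC (n + 1) R⟩

lemma dhLE.retract (hC : Good C) {n : ℕ} {X Y : OpMod Op} {i : Y.V →L[ℂ] X.V}
    {r : X.V →L[ℂ] Y.V} (hi : IsHom Y X i) (hr : IsHom X Y r) (hri : ∀ y, r (i y) = y)
    (h : dhLE C n X) : dhLE C n Y :=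
  (dhLE.retract_and_syzygy hC n).1 X Y i r hi hr hri h

lemma dhLE.syzygy (hC : Good C) {n : ℕ} {K P X : OpMod Op} {j : K.V →L[ℂ] P.V}
    {π : P.V →L[ℂ] X.V} (h : SES K P X j π) (hP : Proj C P) (hX : dhLE C (n + 1) X) :
    dhLE C n K :=
  (dhLE.retract_and_syzygy hC n).2 K P X j π h hP hX

/-- If `0 → Q3 → Q2 → Q1 → Q0 → X → 0` is split exact as a complex of Banach spaces, `Q0`, `Q1` are
projective and `X` has dimension `≤ 2`, then `Q3 → Q2` has a left inverse that is a morphism. -/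
lemma split_of_dhLE_two (hC : Good C) {X Q0 Q1 Q2 Q3 : OpMod Op}
    {ε : Q0.V →L[ℂ] X.V} {d1 : Q1.V →L[ℂ] Q0.V} {d2 : Q2.V →L[ℂ] Q1.V} {d3 : Q3.V →L[ℂ] Q2.V}
    (hε : IsHom Q0 X ε) (h1 : IsHom Q1 Q0 d1) (h2 : IsHom Q2 Q1 d2) (h3 : IsHom Q3 Q2 d3)
    (s : X.V →L[ℂ] Q0.V) (s0 : Q0.V →L[ℂ] Q1.V) (s1 : Q1.V →L[ℂ] Q2.V) (s2 : Q2.V →L[ℂ] Q3.V)
    (e1 : ∀ x, ε (d1 x) = 0) (e2 : ∀ x, d1 (d2 x) = 0) (e3 : ∀ x, d2 (d3 x) = 0)
    (a : ∀ x, ε (s x) = x) (a0 : ∀ x, s (ε x) + d1 (s0 x) = x)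
    (a1 : ∀ x, s0 (d1 x) + d2 (s1 x) = x) (a2 : ∀ x, s1 (d2 x) + d3 (s2 x) = x)
    (a3 : ∀ x, s2 (d3 x) = x)
    (p0 : Proj C Q0) (p1 : Proj C Q1) (c2 : C Q2) (hX : dhLE C 2 X) :
    ∃ ρ : Q2.V →L[ℂ] Q3.V, IsHom Q2 Q3 ρ ∧ ∀ x, ρ (d3 x) = x := by
  have S0 := SES.ker hε ⟨s, a⟩
  have D1 := dhLE.syzygy hC (n := 1) S0 p0 hX
  obtain ⟨d1', hd1', hid1⟩ := kerLift ε hε h1 e1
  have S1 := SES.ker hd1' ⟨s0.comp (kerIncl ε hε), fun k => by
    apply kerIncl_inj ε hε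
    rw [hid1]
    change d1 (s0 (kerIncl ε hε k)) = kerIncl ε hε k
    have := a0 (kerIncl ε hε k)
    rwa [kerIncl_mem, map_zero, zero_add] at this⟩
  have D0 : Proj C (kerMod d1' hd1') := dhLE.syzygy hC (n := 0) S1 p1 D1
  have hd1z : ∀ k, d1 (kerIncl d1' hd1' k) = 0 := by
    intro k
    rw [← hid1, kerIncl_mem, map_zero]
  obtain ⟨d2', hd2', hid2⟩ := kerLift d1' hd1' h2 (fun x => by
    apply kerIncl_inj ε hε
    rw [hid1, e2, map_zero])
  obtain ⟨h, hh, hsec⟩ := D0.section_of_epi c2 hd2' ⟨s1.comp (kerIncl d1' hd1'), fun k => by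
    apply kerIncl_inj d1' hd1'
    rw [hid2]
    change d2 (s1 (kerIncl d1' hd1' k)) = kerIncl d1' hd1' k
    have := a1 (kerIncl d1' hd1' k)
    rwa [hd1z, map_zero, zero_add] at this⟩
  have key : ∀ y, d2 y = 0 → d3 (s2 y) = y := by
    intro y hy
    have := a2 y
    rwa [hy, map_zero, zero_add] at this
  have hm : ∀ x, d2 (x - h (d2' x)) = 0 := by
    intro x
    rw [map_sub, ← hid2 (h (d2' x)), hsec, hid2, sub_self]
  have hinj : ∀ u v, d3 u = d3 v → u = v := by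
    intro u v huv
    rw [← a3 u, ← a3 v, huv]
  refine ⟨s2.comp (ContinuousLinearMap.id ℂ Q2.V - h.comp d2'), ?_, ?_⟩
  · intro o x
    change s2 (Q2.act o x - h (d2' (Q2.act o x))) = Q3.act o (s2 (x - h (d2' x)))
    apply hinj
    rw [key _ (hm _), h3, key _ (hm _), hd2', hh, map_sub]
  · intro x
    change s2 (d3 x - h (d2' (d3 x))) = x
    have : d2' (d3 x) = 0 := by
      apply kerIncl_inj d1' hd1'
      rw [hid2, e3, map_zero]
    rw [this, map_zero, sub_zero, a3]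

end

end Pool.Agent.Lib.MP_1618a1_an
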