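import Pool.Agent.Lib.MP_1618a1_an.LeftProj
import Pool.Agent.Lib.MP_1618a1_an.RR
import Pool.Agent.Lib.MP_1618a1_an.Theory2

/-!
# The upper bound: the bimodule `M₊` has dimension `≤ 3`
-/

set_option autoImplicit false

namespace Pool.Agent.Lib.MP_1618a1_an

noncomputable section

lemma ten_ext_left {B F G : Type} {A : Atoms B} [NormedAddCommGroup F] [NormedSpace ℂ F]
    [NormedAddCommGroup G] [NormedSpace ℂ G] {f g : Ten (At A) F →L[ℂ] G}
    (h : ∀ b y, f (tmk (A.g b) y) = g (tmk (A.g b) y)) : f = g := by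
  have h1 : (ContinuousLinearMap.compL ℂ F (Ten (At A) F) G f) ∘L tmkL =
      (ContinuousLinearMap.compL ℂ F (Ten (At A) F) G g) ∘L tmkL :=
    gen_ext fun b => ContinuousLinearMap.ext fun y => h b y
  exact ten_ext fun x y => congrArg (fun F => F x y) h1

lemma ten_ext_right {B E G : Type} {A : Atoms B} [NormedAddCommGroup E] [NormedSpace ℂ E]
    [NormedAddCommGroup G] [NormedSpace ℂ G] {f g : Ten E (At A) →L[ℂ] G}
    (h : ∀ x b, f (tmk x (A.g b)) = g (tmk x (A.g b))) : f = g :=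
  ten_ext fun x y => by
    exact at_eq (A := A) (f ∘L tmkL x) (g ∘L tmkL x) (fun b => h x b) y

/-- the Banach space `P₁` -/
abbrev PS : Type := At (atomsM false) × At (atomsI true)

/-- `r_{m-1}` for `m ≥ 1`, `0` for `m = 0` -/
def rr' (m : ℕ) : PS →L[ℂ] At (atomsI false) := if m = 0 then 0 else rr (m - 1)

lemma norm_rr'_le (m : ℕ) : ‖rr' m‖ ≤ 2 := by
  rw [rr']
  split_ifs
  · simp
  · exact norm_rr_le _

/-- the action on `P₁` -/
def actP (a : MAlg) : PS →L[ℂ] PS := (actM true false a).prodMap (actI true true a)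

lemma rr_actP (m : ℕ) (a : MAlg) (y : PS) :
    rr m (actP a y) = actI true false a (rr m y) := rr_hom m a y

lemma rr'_actP (m : ℕ) (a : MAlg) (y : PS) :
    rr' m (actP a y) = actI true false a (rr' m y) := by
  rw [rr']
  split_ifs
  · simp
  · exact rr_actP (m - 1) a y

lemma rr'_jj (m : ℕ) (p : ℕ × ℕ) : rr' m (jj ((atomsI false).g p)) =
    if p.1 < m then (atomsI false).g p else 0 := by
  rw [rr']
  by_cases hm : m = 0
  · subst hm; simp
  · rw [if_neg hm, rr_jj]
    have : (p.1 ≤ m - 1) ↔ p.1 < m := by omega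
    simp only [this]

/-- bilinear maps `(δ_p, y) ↦ δ_p ⊗ T_{p.1} y` -/
lemma col_bdd (T : ℕ → PS →L[ℂ] At (atomsI false)) (hT : ∀ m, ‖T m‖ ≤ 2) :
    ∀ s ∈ (atomsI false).S, ‖lc (fun p => (tmkL (F := At (atomsI false))
      ((atomsI false).g p)) ∘L T p.1) s‖ ≤ 2 := fun s hs => by
  rcases s.support.eq_empty_or_nonempty with h0 | ⟨q, hq⟩
  · have : s = 0 := by simpa using h0
    subst this
    simp [lc]
  · refine ContinuousLinearMap.opNorm_le_bound _ zero_le_two fun y => ?_
    have h1 : (lc (fun p => (tmkL (F := At (atomsI false)) ((atomsI false).g p)) ∘L T p.1) s) y =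
        tmk (lc (atomsI false).g s) (T q.1 y) := by
      rw [← tmkL_apply]
      simp only [lc, Finsupp.linearCombination_apply, Finsupp.sum, map_sum, map_smul, sum_apply,
        smul_apply, ContinuousLinearMap.comp_apply]
      refine Finset.sum_congr rfl fun p hp => ?_
      rw [hs.2 p hp q hq]
    rw [h1]
    calc _ ≤ ‖lc (atomsI false).g s‖ * ‖T q.1 y‖ := norm_tmk_le _ _
      _ ≤ 1 * (2 * ‖y‖) := by
          refine mul_le_mul (norm_atom_le hs) ?_ (norm_nonneg _) zero_le_one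
          exact (ContinuousLinearMap.le_opNorm _ _).trans
            (mul_le_mul_of_nonneg_right (hT _) (norm_nonneg _))
      _ = _ := one_mul _

lemma col_bdd' (T : ℕ → PS →L[ℂ] At (atomsI false)) (hT : ∀ m, ‖T m‖ ≤ 2) :
    ∀ s ∈ (atomsI false).S, ‖lc (fun p => (tmkL (E := At (atomsI false)).flip
      ((atomsI false).g p)) ∘L T p.1) s‖ ≤ 2 := fun s hs => by
  rcases s.support.eq_empty_or_nonempty with h0 | ⟨q, hq⟩
  · have : s = 0 := by simpa using h0
    subst this
    simp [lc]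
  · refine ContinuousLinearMap.opNorm_le_bound _ zero_le_two fun y => ?_
    have h1 : (lc (fun p => (tmkL (E := At (atomsI false)).flip ((atomsI false).g p)) ∘L T p.1) s)
        y = tmk (T q.1 y) (lc (atomsI false).g s) := by
      rw [← tmkL_apply]
      simp only [lc, Finsupp.linearCombination_apply, Finsupp.sum, map_sum, map_smul, sum_apply,
        smul_apply, ContinuousLinearMap.comp_apply, ContinuousLinearMap.flip_apply]
      refine Finset.sum_congr rfl fun p hp => ?_
      rw [hs.2 p hp q hq]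
    rw [h1]
    calc _ ≤ ‖T q.1 y‖ * ‖lc (atomsI false).g s‖ := norm_tmk_le _ _
      _ ≤ (2 * ‖y‖) * 1 := by
          refine mul_le_mul ?_ (norm_atom_le hs) (norm_nonneg _) (by positivity)
          exact (ContinuousLinearMap.le_opNorm _ _).trans
            (mul_le_mul_of_nonneg_right (hT _) (norm_nonneg _))
      _ = _ := mul_one _

/-- `R₂ : I' ⊗ P₁ → I' ⊗ I'` -/
def R2 : Ten (At (atomsI false)) PS →L[ℂ] Ten (At (atomsI false)) (At (atomsI false)) :=
  tlift (atLift (atomsI false) fun p => (tmkL (F := At (atomsI false))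
      ((atomsI false).g p)) ∘L rr' p.1)

/-- `R₁ : P₁ ⊗ I' → I' ⊗ I'` -/
def R1 : Ten PS (At (atomsI false)) →L[ℂ] Ten (At (atomsI false)) (At (atomsI false)) :=
  tlift (atLift (atomsI false) fun p => (tmkL (E := At (atomsI false)).flip
      ((atomsI false).g p)) ∘L rr p.1).flip

lemma R2_g (p : ℕ × ℕ) (y : PS) :
    R2 (tmk ((atomsI false).g p) y) = tmk ((atomsI false).g p) (rr' p.1 y) := by
  rw [R2, tlift_tmk]
  have := atLift_g (A := atomsI false) ⟨2, col_bdd rr' norm_rr'_le⟩ p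
  rw [this]
  rfl

lemma R1_g (p : ℕ × ℕ) (y : PS) :
    R1 (tmk y ((atomsI false).g p)) = tmk (rr p.1 y) ((atomsI false).g p) := by
  rw [R1, tlift_tmk, ContinuousLinearMap.flip_apply]
  have := atLift_g (A := atomsI false) ⟨2, col_bdd' rr norm_rr_le⟩ p
  rw [this]
  rfl

lemma R2_hom : IsHom (tenB (modI false) modP) (tenB (modI false) (modI false)) R2 := by
  rintro (a | a) u
  · have h : R2 ∘L tmap (actI true false a) (.id ℂ PS) =
        tmap (actI true false a) (.id ℂ _) ∘L R2 :=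
      ten_ext_left fun p y => by
        simp only [ContinuousLinearMap.comp_apply, tmap_tmk, ContinuousLinearMap.id_apply,
          actI_gp, tmk_smul_left, map_smul, R2_g]
    exact congrArg (fun F => F u) h
  · have h : R2 ∘L tmap (.id ℂ _) (actP a) = tmap (.id ℂ _) (actI true false a) ∘L R2 :=
      ten_ext_left fun p y => by
        simp only [ContinuousLinearMap.comp_apply, tmap_tmk, ContinuousLinearMap.id_apply, R2_g,
          rr'_actP]
    exact congrArg (fun F => F u) h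

lemma R1_hom : IsHom (tenB modP (modI false)) (tenB (modI false) (modI false)) R1 := by
  rintro (a | a) u
  · have h : R1 ∘L tmap (actP a) (.id ℂ _) = tmap (actI true false a) (.id ℂ _) ∘L R1 :=
      ten_ext_right fun y p => by
        simp only [ContinuousLinearMap.comp_apply, tmap_tmk, ContinuousLinearMap.id_apply, R1_g,
          rr_actP]
    exact congrArg (fun F => F u) h
  · have h : R1 ∘L tmap (.id ℂ PS) (actI true false a) =
        tmap (.id ℂ _) (actI true false a) ∘L R1 :=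
      ten_ext_right fun y p => by
        simp only [ContinuousLinearMap.comp_apply, tmap_tmk, ContinuousLinearMap.id_apply,
          actI_gp, tmk_smul_right, map_smul, R1_g]
    exact congrArg (fun F => F u) h

/-- the main point: `(1 ⊗ j, - j ⊗ 1)` has a left inverse that is a morphism -/
lemma RR_theta (u : Ten (At (atomsI false)) (At (atomsI false))) :
    R2 (tmap (.id ℂ _) jj u) + R1 (tmap jj (.id ℂ _) u) = u := by
  have h : R2 ∘L tmap (.id ℂ _) jj + R1 ∘L tmap jj (.id ℂ _) = .id ℂ _ :=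
    ten_at_ext fun p q => by
      simp only [add_apply, ContinuousLinearMap.comp_apply, tmap_tmk,
        ContinuousLinearMap.id_apply, R2_g, R1_g, rr'_jj, rr_jj]
      by_cases h : q.1 < p.1
      · have : ¬ p.1 ≤ q.1 := not_le.2 h
        simp [h, this]
      · have : p.1 ≤ q.1 := not_lt.1 h
        simp [h, this]
  exact congrArg (fun F => F u) h

/-- the sequence `M → M₊ → ℂ` -/
lemma SES_plus : SES (modM true) (plusL MAlg) triv (ContinuousLinearMap.inr ℂ ℂ MAlg)
    (ContinuousLinearMap.fst ℂ ℂ MAlg) where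
  jhom a x := by
    change ((0 : ℂ), actM true true a x) = plusLeft MAlg a (0, x)
    rw [plusLeft_inr]; rfl
  πhom a x := by
    change (plusLeft MAlg a x).1 = 0
    simp [plusLeft]
  split := ⟨ContinuousLinearMap.snd ℂ ℂ MAlg, ContinuousLinearMap.inl ℂ ℂ MAlg,
    fun x => rfl, fun x => rfl, fun x => by
      change ((0 : ℂ), x.2) + (x.1, (0 : MAlg)) = x
      simp, fun x => rfl⟩

lemma left_L : dhLE (IsLeft MAlg) 1 modL :=
  ⟨modL_left, _, _, _, _, SES_L false, modM'_proj, modI_proj false⟩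

lemma left_M : dhLE (IsLeft MAlg) 1 (modM true) :=
  ⟨modM_left true, _, _, _, _, SES_M, modP_proj, modI_proj false⟩

lemma left_plus : dhLE (IsLeft MAlg) 0 (plusL MAlg) := plusL_proj MAlg

lemma left_MM : dhLE (IsBi MAlg) 1 (tenB (modM true) (modM true)) := by
  obtain ⟨N, i, q, h1, h2⟩ := tensor_ker SES_M SES_M
  refine ⟨tenB_bi (modM_left true) (modM_left true), N, _, i, _, h1,
    tenB_proj modP_proj modP_proj, ?_⟩
  have hP : Proj (IsBi MAlg) (prodMod (tenB (modI false) modP) (tenB modP (modI false))) :=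
    Proj.prod (good_bi MAlg) (tenB_proj (modI_proj false) modP_proj)
      (tenB_proj modP_proj (modI_proj false))
  refine h2.proj_right (good_bi MAlg) hP
    (r := R2 ∘L ContinuousLinearMap.fst ℂ _ _ - R1 ∘L ContinuousLinearMap.snd ℂ _ _) ?_ ?_
  · intro o x
    obtain ⟨x, y⟩ := x
    have h1 := R2_hom o x
    have h2 := R1_hom o y
    have h3 := ((tenB (modI false) (modI false)).act o).map_sub (R2 x) (R1 y)
    exact (congrArg₂ (· - ·) h1 h2).trans h3.symm
  · intro x
    change R2 (tmap (.id ℂ _) jj x) - R1 (-(tmap jj (.id ℂ _) x)) = x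
    rw [map_neg, sub_neg_eq_add]
    exact RR_theta x

lemma bi_L : dhLE (IsBi MAlg) 2 (sym modL) :=
  (dhLE.tenB left_L left_L).retract (good_bi MAlg) rhoL_hom mulL_hom mulL_rhoL

lemma bi_I : dhLE (IsBi MAlg) 0 (sym (modI true)) :=
  (dhLE.tenB (m := 0) (n := 0) (modI_proj true) (modI_proj true)).retract (good_bi MAlg)
    (rho_hom true) (mulI_hom true) (mulI_rho true)

lemma bi_M : dhLE (IsBi MAlg) 2 (sym (modM true)) :=
  dhLE.mid (good_bi MAlg) (SES_L true).sym (sym_bi (modM_left true))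
    (bi_I.mono (good_bi MAlg) (by norm_num)) bi_L

lemma bi_TT : dhLE (IsBi MAlg) 3 (tenB triv triv) := by
  obtain ⟨N, i, q, h1, h2⟩ := tensor_ker SES_plus SES_plus
  refine ⟨tenB_bi triv_left triv_left, N, _, i, _, h1, tenB_proj (plusL_proj MAlg)
    (plusL_proj MAlg), ?_⟩
  refine dhLE.right (good_bi MAlg) h2 left_MM ?_
  refine dhLE.prod (good_bi MAlg) ?_ ?_
  · exact (dhLE.tenB left_M left_plus).mono (good_bi MAlg) (by norm_num)
  · exact (dhLE.tenB left_plus left_M).mono (good_bi MAlg) (by norm_num)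

/-- `ℂ → ℂ ⊗ ℂ` -/
def iT : ℂ →L[ℂ] Ten ℂ ℂ := (ContinuousLinearMap.id ℂ ℂ).smulRight (tmk (1 : ℂ) (1 : ℂ))

lemma bi_T : dhLE (IsBi MAlg) 3 (sym triv) := by
  have h1 : ∀ x : ℂ, iT ((0 : ℂ →L[ℂ] ℂ) x) = tmap (0 : ℂ →L[ℂ] ℂ) (.id ℂ ℂ) (iT x) := by simp
  have h2 : ∀ x : ℂ, iT ((0 : ℂ →L[ℂ] ℂ) x) = tmap (.id ℂ ℂ) (0 : ℂ →L[ℂ] ℂ) (iT x) := by simp
  have h3 : ∀ x : Ten ℂ ℂ, tlift (ContinuousLinearMap.mul ℂ ℂ)
      (tmap (0 : ℂ →L[ℂ] ℂ) (.id ℂ ℂ) x) = 0 := by simp
  have h4 : ∀ x : Ten ℂ ℂ, tlift (ContinuousLinearMap.mul ℂ ℂ)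
      (tmap (.id ℂ ℂ) (0 : ℂ →L[ℂ] ℂ) x) = 0 := by simp
  have h5 : ∀ x : ℂ, tlift (ContinuousLinearMap.mul ℂ ℂ) (iT x) = x := by simp [iT]
  refine dhLE.retract (good_bi MAlg) (X := tenB triv triv) (Y := sym triv) (i := iT)
    (r := tlift (ContinuousLinearMap.mul ℂ ℂ)) ?_ ?_ h5 bi_TT
  · rintro (a | a) x
    · exact h1 x
    · exact h2 x
  · rintro (a | a) x
    · exact h3 x
    · exact h4 x

theorem upper_bound : dhLE (IsBi MAlg) 3 (plusBi MAlg) := by
  rw [plusBi_eq]
  exact dhLE.mid (good_bi MAlg) SES_plus.sym (sym_bi (plusL_left MAlg))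
    (bi_M.mono (good_bi MAlg) (by norm_num)) bi_T

end

end Pool.Agent.Lib.MP_1618a1_an
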